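import Pool.Agent.H86.CMLib.R912.Q.Kil
import Pool.Agent.H86.CMLib.R912.U15

set_option autoImplicit false
set_option linter.unusedSectionVars false
set_option linter.unusedSimpArgs false
set_option linter.unusedVariables false

/-!
# De Rham-Betti classes of degree four on abelian fourfolds
-/

open Module Function TensorProduct Matrix

noncomputable section

namespace Pool.Agent.R912

open Pool.Agent.Y102 Pool.Agent.W516.DR Pool.Agent.H204R3.GP Pool.Agent.W516.KC
  Pool.Agent.H204R3.SP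

/-! ## Forms in four variables -/

section Q4

variable {R U : Type} [CommRing R] [AddCommGroup U] [Module R U]

/-- a vector with four entries -/
def vec4 (a b c d : U) : Fin 2 × Fin 2 → U := fun l =>
  if l = (0, 0) then a else if l = (0, 1) then b else if l = (1, 0) then c else d

@[simp] theorem vec4_0 (a b c d : U) : vec4 a b c d (0, 0) = a := rfl
@[simp] theorem vec4_1 (a b c d : U) : vec4 a b c d (0, 1) = b := rfl
@[simp] theorem vec4_2 (a b c d : U) : vec4 a b c d (1, 0) = c := rfl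
@[simp] theorem vec4_3 (a b c d : U) : vec4 a b c d (1, 1) = d := rfl

theorem forall4 {p : Fin 2 × Fin 2 → Prop} (h0 : p (0, 0)) (h1 : p (0, 1)) (h2 : p (1, 0))
    (h3 : p (1, 1)) : ∀ l, p l := by
  rintro ⟨i, j⟩
  fin_cases i <;> fin_cases j
  · exact h0
  · exact h1
  · exact h2
  · exact h3

theorem vec4_eta (v : Fin 2 × Fin 2 → U) : vec4 (v (0, 0)) (v (0, 1)) (v (1, 0)) (v (1, 1)) = v := by
  funext l
  revert l
  exact forall4 rfl rfl rfl rfl

theorem up0 (a b c d x : U) : update (vec4 a b c d) (0, 0) x = vec4 x b c d := by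
  funext l
  revert l
  refine forall4 ?_ ?_ ?_ ?_ <;> simp [update, vec4]

theorem up1 (a b c d x : U) : update (vec4 a b c d) (0, 1) x = vec4 a x c d := by
  funext l
  revert l
  refine forall4 ?_ ?_ ?_ ?_ <;> simp [update, vec4]

theorem up2 (a b c d x : U) : update (vec4 a b c d) (1, 0) x = vec4 a b x d := by
  funext l
  revert l
  refine forall4 ?_ ?_ ?_ ?_ <;> simp [update, vec4]

theorem up3 (a b c d x : U) : update (vec4 a b c d) (1, 1) x = vec4 a b c x := by
  funext l
  revert l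
  refine forall4 ?_ ?_ ?_ ?_ <;> simp [update, vec4]

end Q4

section Form

variable {U : Type} [AddCommGroup U] [Module ℂ U]

/-- the form in four variables -/
def toQ4 (Ψ : MultilinearMap ℂ (fun _ : Fin 2 × Fin 2 => U) ℂ) : Q4 U :=
  { toFun := fun a =>
      { toFun := fun b =>
          { toFun := fun c =>
              { toFun := fun d => Ψ (vec4 a b c d)
                map_add' := fun x y => by
                  have h := Ψ.map_update_add (vec4 a b c 0) (1, 1) x y
                  rwa [up3, up3, up3] at h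
                map_smul' := fun r x => by
                  have h := Ψ.map_update_smul (vec4 a b c 0) (1, 1) r x
                  rwa [up3, up3] at h }
            map_add' := fun x y => LinearMap.ext fun d => by
              have h := Ψ.map_update_add (vec4 a b 0 d) (1, 0) x y
              rwa [up2, up2, up2] at h
            map_smul' := fun r x => LinearMap.ext fun d => by
              have h := Ψ.map_update_smul (vec4 a b 0 d) (1, 0) r x
              rwa [up2, up2] at h }
        map_add' := fun x y => LinearMap.ext fun c => LinearMap.ext fun d => by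
          have h := Ψ.map_update_add (vec4 a 0 c d) (0, 1) x y
          rwa [up1, up1, up1] at h
        map_smul' := fun r x => LinearMap.ext fun c => LinearMap.ext fun d => by
          have h := Ψ.map_update_smul (vec4 a 0 c d) (0, 1) r x
          rwa [up1, up1] at h }
    map_add' := fun x y => LinearMap.ext fun b => LinearMap.ext fun c => LinearMap.ext fun d => by
      have h := Ψ.map_update_add (vec4 0 b c d) (0, 0) x y
      rwa [up0, up0, up0] at h
    map_smul' := fun r x => LinearMap.ext fun b => LinearMap.ext fun c => LinearMap.ext fun d => by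
      have h := Ψ.map_update_smul (vec4 0 b c d) (0, 0) r x
      rwa [up0, up0] at h }

theorem toQ4_apply (Ψ : MultilinearMap ℂ (fun _ : Fin 2 × Fin 2 => U) ℂ) (a b c d : U) :
    toQ4 Ψ a b c d = Ψ (vec4 a b c d) := rfl

theorem kills_iff_kill4 (Ψ : MultilinearMap ℂ (fun _ : Fin 2 × Fin 2 => U) ℂ)
    (X : Module.End ℂ U) : Kills X Ψ ↔ Kill4 ⊤ (toQ4 Ψ) X := by
  have key : ∀ a b c d, ∑ k, Ψ (update (vec4 a b c d) k (X (vec4 a b c d k))) =
      toQ4 Ψ (X a) b c d + toQ4 Ψ a (X b) c d + toQ4 Ψ a b (X c) d + toQ4 Ψ a b c (X d) := by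
    intro a b c d
    rw [Fintype.sum_prod_type, Fin.sum_univ_two, Fin.sum_univ_two, Fin.sum_univ_two]
    simp only [vec4_0, vec4_1, vec4_2, vec4_3, up0, up1, up2, up3, toQ4_apply]
    ring
  constructor
  · intro h a _ b _ c _ d _
    rw [← key]
    exact h _
  · intro h v
    rw [← vec4_eta v, key]
    exact h _ trivial _ trivial _ trivial _ trivial

end Form

section Alt

variable {W : Type} [AddCommGroup W] [Module ℚ W] [FiniteDimensional ℚ W]

/-- The base change of an alternating form is alternating. -/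
theorem alt_bcm {ν : Type} [Fintype ν] [DecidableEq ν] (β : Basis ν ℚ W)
    (φ : W [⋀^Fin 2 × Fin 2]→ₗ[ℚ] ℚ) :
    Alt4 (toQ4 (bcm (Ω := ℂ) β φ.toMultilinearMap)) := by
  obtain ⟨Ψ, hΨ⟩ : ∃ Ψ, Ψ = bcm (Ω := ℂ) β φ.toMultilinearMap := ⟨_, rfl⟩
  rw [← hΨ]
  have key : ∀ i j : Fin 2 × Fin 2, i ≠ j → ∀ v : Fin 2 × Fin 2 → ℂ ⊗[ℚ] W,
      Ψ (v ∘ Equiv.swap i j) = -Ψ v := by
    intro i j hij v
    have h1 : Ψ.domDomCongr (Equiv.swap i j) = -Ψ := by
      refine Basis.ext_multilinear (fun _ => β.baseChange ℂ) fun I => ?_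
      rw [_root_.neg_apply, MultilinearMap.domDomCongr_apply, hΨ]
      have h2 := bcm_basis (Ω := ℂ) β φ.toMultilinearMap (fun l => I (Equiv.swap i j l))
      have h3 := bcm_basis (Ω := ℂ) β φ.toMultilinearMap I
      rw [h2, h3, ← map_neg]
      congr 1
      exact φ.map_swap (fun l => β (I l)) hij
    have h2 := congrArg (fun F : MultilinearMap ℂ (fun _ : Fin 2 × Fin 2 => ℂ ⊗[ℚ] W) ℂ => F v) h1
    exact h2
  refine ⟨fun a b c d => ?_, fun a b c d => ?_, fun a b c d => ?_⟩
  · rw [toQ4_apply, toQ4_apply, ← key (0, 0) (0, 1) (by simp)]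
    congr 1
    funext l
    revert l
    refine forall4 ?_ ?_ ?_ ?_ <;> simp [Equiv.swap_apply_def]
  · rw [toQ4_apply, toQ4_apply, ← key (0, 1) (1, 0) (by simp)]
    congr 1
    funext l
    revert l
    refine forall4 ?_ ?_ ?_ ?_ <;> simp [Equiv.swap_apply_def]
  · rw [toQ4_apply, toQ4_apply, ← key (1, 0) (1, 1) (by simp)]
    congr 1
    funext l
    revert l
    refine forall4 ?_ ?_ ?_ ?_ <;> simp [Equiv.swap_apply_def]

end Alt

/-! ## The representation -/

section Rep

variable {g : ℕ} (A : AbVar g)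

/-- The centre of the algebra of the endomorphisms is the field of rational numbers. -/
def CentreQ : Prop :=
  ∀ P ∈ A.EA, (∀ Q ∈ A.EA, P * Q = Q * P) → ∃ q : ℚ, P = q • (1 : Module.End ℚ A.H1)

theorem stab_adj {V : Type} [AddCommGroup V] [Module ℚ V] {S : Submodule ℚ (Module.End ℚ V)}
    {P : Submodule ℚ V} (hP : ∀ X ∈ S, ∀ u ∈ P, X u ∈ P) {X : Module.End ℚ V}
    (hX : X ∈ Algebra.adjoin ℚ (S : Set (Module.End ℚ V))) : ∀ u ∈ P, X u ∈ P := by
  induction hX using Algebra.adjoin_induction with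
  | mem x hx => exact hP x hx
  | algebraMap r =>
    intro u hu
    rw [Module.algebraMap_end_apply]
    exact P.smul_mem r hu
  | add x y _ _ hx hy =>
    intro u hu
    exact P.add_mem (hx u hu) (hy u hu)
  | mul x y _ _ hx hy =>
    intro u hu
    exact hx _ (hy u hu)

/-- The Lie algebra and the endomorphisms act semisimply. -/
theorem semi_sup : Semi (A.LA ⊔ A.EA) := by
  intro U hU
  have hUL : ∀ X ∈ A.LA, ∀ u ∈ U, X u ∈ U := fun X hX => hU X (Submodule.mem_sup_left hX)
  have hUE : ∀ X ∈ A.EA, ∀ u ∈ U, X u ∈ U := fun X hX => hU X (Submodule.mem_sup_right hX)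
  let U' : Submodule ℚ A.H1 :=
    { carrier := {v | ∀ u ∈ U, A.om u v = 0}
      zero_mem' := fun u _ => map_zero _
      add_mem' := fun {v w} hv hw u hu => by rw [map_add, hv u hu, hw u hu, add_zero]
      smul_mem' := fun c v hv u hu => by rw [map_smul, hv u hu, smul_zero] }
  have hstab : ∀ X ∈ A.LA ⊔ A.EA, ∀ u ∈ U', X u ∈ U' := by
    intro X hX v hv u hu
    obtain ⟨Y, hY, Q, hQ, rfl⟩ := Submodule.mem_sup.1 hX
    rw [LinearMap.add_apply, map_add]
    have h1 := A.LA_skew hY u v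
    have h2 : A.om (Y u) v = 0 := hv _ (hUL Y hY u hu)
    obtain ⟨Q', hQ', hadj⟩ := A.endAlg.adj Q hQ
    have h3 : A.om (Q' u) v = 0 := hv _ (hUE Q' hQ' u hu)
    have h4 := hadj v u
    have h5 := A.om_anti u (Q v)
    have h6 := A.om_anti v (Q' u)
    rw [h2, zero_add] at h1
    rw [h1, zero_add, h5, h4, h6, h3]
    simp
  have hdisj : U ⊓ U' = ⊥ := by
    rw [eq_bot_iff]
    rintro u ⟨hu, hu'⟩
    rw [Submodule.mem_bot]
    have h1 : A.E (Complex.I • A.per u) (A.per u) = 0 := by
      apply exists_sep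
      intro f
      rw [← A.om_cmp]
      exact hu' _ (stab_adj hUL (A.NA_adjoin (A.MA_le_NA (A.J_mem f))) u hu)
    apply A.per_inj
    rw [map_zero]
    by_contra hne
    have h2 := A.E_pos hne
    rw [A.E_anti, h1, neg_zero] at h2
    exact lt_irrefl _ h2
  have hU' : U' = LinearMap.BilinForm.orthogonal (A.om : LinearMap.BilinForm ℚ A.H1) U := by
    ext v
    rw [LinearMap.BilinForm.mem_orthogonal_iff]
    rfl
  refine ⟨U', hstab, ?_⟩
  rw [hU', LinearMap.BilinForm.isCompl_orthogonal_iff_disjoint A.om_isRefl, disjoint_iff, ← hU']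
  exact hdisj

/-- Stable subspaces are trivial. -/
theorem full_of_centreQ (hZ : CentreQ A) (P : Submodule ℂ (ℂ ⊗[ℚ] A.H1))
    (h1 : ∀ x ∈ cx A.LA, ∀ u ∈ P, x u ∈ P) (h2 : ∀ x ∈ cx A.EA, ∀ u ∈ P, x u ∈ P) :
    P = ⊥ ∨ P = ⊤ := by
  have h3 : ∀ x ∈ cx (A.LA ⊔ A.EA), ∀ u ∈ P, x u ∈ P := by
    intro x hx
    induction hx using Submodule.span_induction with
    | mem x hx =>
      obtain ⟨Y, hY, rfl⟩ := hx
      obtain ⟨Y1, hY1, Y2, hY2, rfl⟩ := Submodule.mem_sup.1 hY
      intro u hu
      rw [LinearMap.baseChange_add, LinearMap.add_apply]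
      exact P.add_mem (h1 _ (bc_mem hY1) u hu) (h2 _ (bc_mem hY2) u hu)
    | zero => intro u _; exact P.zero_mem
    | add x y _ _ hx hy => intro u hu; exact P.add_mem (hx u hu) (hy u hu)
    | smul c x _ hx => intro u hu; exact P.smul_mem c (hx u hu)
  have h4 : ∀ T : Module.End ℚ A.H1, ∀ u ∈ P, T.baseChange ℂ u ∈ P := by
    intro T
    refine Pool.Agent.Y102.SP.kil_adj _ P h3 _ (bc_adjoin ?_)
    refine mem_adjoin_of_comm (semi_sup A) fun Q hQ => ?_
    obtain ⟨q, rfl⟩ := hZ Q (fun X hX => hQ X (Submodule.mem_sup_left hX))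
      (fun X hX => (hQ X (Submodule.mem_sup_right hX)).symm)
    rw [mul_smul_comm, mul_one, smul_mul_assoc, one_mul]
  have h5 : ∀ T : Module.End ℂ (ℂ ⊗[ℚ] A.H1), ∀ u ∈ P, T u ∈ P := by
    intro T u hu
    have h6 : T ∈ extEnd ℂ (fun _ : A.H1 →ₗ[ℚ] A.H1 => True) := end_mem_span _ T fun _ => trivial
    unfold extEnd at h6
    induction h6 using Submodule.span_induction with
    | mem x hx =>
      obtain ⟨Y, -, rfl⟩ := hx
      exact h4 Y u hu
    | zero => exact P.zero_mem
    | add x y _ _ hx hy => exact P.add_mem hx hy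
    | smul c x _ hx => exact P.smul_mem c hx
  by_cases hP : P = ⊥
  · exact Or.inl hP
  · right
    obtain ⟨u, hu, hu0⟩ := (Submodule.ne_bot_iff P).1 hP
    rw [eq_top_iff]
    intro v _
    obtain ⟨f, hf⟩ : ∃ f : Module.Dual ℂ (ℂ ⊗[ℚ] A.H1), f u ≠ 0 := by
      by_contra hcon
      push Not at hcon
      exact hu0 ((Module.forall_dual_apply_eq_zero_iff ℂ u).1 hcon)
    have h6 := h5 (f.smulRight v) u hu
    rw [LinearMap.smulRight_apply] at h6
    have h7 := P.smul_mem (f u)⁻¹ h6
    rwa [smul_smul, inv_mul_cancel₀ hf, one_smul] at h7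

/-- the complexification of the Riemann form -/
def omC : (ℂ ⊗[ℚ] A.H1) →ₗ[ℂ] (ℂ ⊗[ℚ] A.H1) →ₗ[ℂ] ℂ := LinearMap.BilinForm.baseChange ℂ A.om

theorem omC_tmul (u v : A.H1) :
    omC A ((1 : ℂ) ⊗ₜ[ℚ] u) ((1 : ℂ) ⊗ₜ[ℚ] v) = algebraMap ℚ ℂ (A.om u v) := by
  change LinearMap.BilinForm.baseChange ℂ A.om _ _ = _
  rw [LinearMap.BilinForm.baseChange_tmul]
  simp

theorem omC_anti (u v : ℂ ⊗[ℚ] A.H1) : omC A u v = -omC A v u := by
  have h1 : omC A = -(omC A).flip := by
    apply bilin_ext
    intro u v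
    rw [LinearMap.neg_apply, LinearMap.neg_apply, LinearMap.flip_apply, omC_tmul, omC_tmul,
      A.om_anti u v, map_neg]
  have h2 := congrArg (fun B : (ℂ ⊗[ℚ] A.H1) →ₗ[ℂ] (ℂ ⊗[ℚ] A.H1) →ₗ[ℂ] ℂ => B u v) h1
  exact h2

theorem omC_skew {S : Submodule ℚ (Module.End ℚ A.H1)} (hS : ∀ X ∈ S, IsSkew A.om X) :
    ∀ X ∈ cx S, ∀ u v, omC A (X u) v + omC A u (X v) = 0 := by
  intro X hX
  induction hX using Submodule.span_induction with
  | mem X hX =>
    obtain ⟨Y, hY, rfl⟩ := hX
    exact skew_ext A.om (omC A) (omC_tmul A) (hS Y hY)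
  | zero => intro u v; simp
  | add x y _ _ hx hy =>
    intro u v
    rw [LinearMap.add_apply, LinearMap.add_apply, map_add, map_add, LinearMap.add_apply]
    linear_combination hx u v + hy u v
  | smul c x _ hx =>
    intro u v
    rw [LinearMap.smul_apply, LinearMap.smul_apply, map_smul, map_smul, LinearMap.smul_apply,
      smul_eq_mul, smul_eq_mul]
    linear_combination c * hx u v

theorem cx_commutes {S T : Submodule ℚ (Module.End ℚ A.H1)}
    (h : ∀ X ∈ S, ∀ Y ∈ T, X * Y = Y * X) : ∀ X ∈ cx S, ∀ Y ∈ cx T, X * Y = Y * X := by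
  intro X hX Y hY
  induction hX using Submodule.span_induction with
  | mem X hX =>
    obtain ⟨X, hX, rfl⟩ := hX
    induction hY using Submodule.span_induction with
    | mem Y hY =>
      obtain ⟨Y, hY, rfl⟩ := hY
      rw [← bc_mul, ← bc_mul, h X hX Y hY]
    | zero => rw [mul_zero, zero_mul]
    | add a b _ _ ha hb => rw [mul_add, add_mul, ha, hb]
    | smul c a _ ha => rw [mul_smul_comm, smul_mul_assoc, ha]
  | zero => rw [mul_zero, zero_mul]
  | add a b _ _ ha hb => rw [mul_add, add_mul, ha, hb]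
  | smul c a _ ha => rw [mul_smul_comm, smul_mul_assoc, ha]

theorem qhyp (hZ : CentreQ A) : QHyp (cx A.LA) (cx A.EA) (omC A) where
  br := cx_br fun X hX Y hY => by
    rw [← bc_br]
    exact bc_mem (A.LA_bracket hX hY)
  skew := omC_skew A fun X hX => A.LA_skew hX
  alt := omC_anti A
  nd := fun u hu => nondeg_ext A.om (omC A) (omC_tmul A) (fun u hu => A.om_nondeg hu) u fun z => by
    rw [omC_anti, hu, neg_zero]
  comm := cx_commutes A fun X hX Y hY => hY X hX
  Kmul := by
    intro k hk l hl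
    induction hk using Submodule.span_induction with
    | mem k hk =>
      obtain ⟨X, hX, rfl⟩ := hk
      induction hl using Submodule.span_induction with
      | mem l hl =>
        obtain ⟨Y, hY, rfl⟩ := hl
        rw [← bc_mul]
        exact bc_mem (A.endAlg.mul X hX Y hY)
      | zero => rw [mul_zero]; exact Submodule.zero_mem _
      | add a b _ _ ha hb => rw [mul_add]; exact Submodule.add_mem _ ha hb
      | smul c a _ ha => rw [mul_smul_comm]; exact Submodule.smul_mem _ c ha
    | zero => rw [zero_mul]; exact Submodule.zero_mem _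
    | add a b _ _ ha hb => rw [add_mul]; exact Submodule.add_mem _ ha hb
    | smul c a _ ha => rw [smul_mul_assoc]; exact Submodule.smul_mem _ c ha
  Kone := by
    have h1 : (1 : Module.End ℂ (ℂ ⊗[ℚ] A.H1)) = (1 : Module.End ℚ A.H1).baseChange ℂ :=
      (LinearMap.baseChange_id).symm
    rw [h1]
    exact bc_mem A.endAlg.one
  full := full_of_centreQ A hZ

end Rep

/-- **Main theorem**: the de Rham-Betti classes of degree four are killed by the skew endomorphisms
commuting with the endomorphisms. -/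
theorem four_kills (A : AbVar 4) (hZ : CentreQ A) (φ : A.H1 [⋀^Fin 2 × Fin 2]→ₗ[ℚ] ℚ)
    (hφ : IsDeRhamBettiForm QBar A.dR tau 2 φ.toMultilinearMap) {X : Module.End ℚ A.H1}
    (hX1 : IsSkew A.om X) (hX2 : ∀ Q ∈ A.EA, X * Q = Q * X) :
    Kills X φ.toMultilinearMap := by
  classical
  let β := Module.finBasis ℚ A.H1
  obtain ⟨Ψ, hΨ⟩ : ∃ Ψ, Ψ = bcm (Ω := ℂ) β φ.toMultilinearMap := ⟨_, rfl⟩
  have hA : Alt4 (toQ4 Ψ) := hΨ ▸ alt_bcm β φ
  have hL : ∀ x ∈ cx A.LA, Kill4 ⊤ (toQ4 Ψ) x := by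
    intro x hx
    rw [← kills_iff_kill4, hΨ, kills_bcm_iff]
    intro lam
    exact A.kills_of_mem hφ (cmp_of_ext A.LA hx lam)
  have hadj : X ∈ Algebra.adjoin ℚ (A.LA : Set (Module.End ℚ A.H1)) :=
    mem_adjoin_of_comm A.semi_LA fun P hP => hX2 P hP
  have hU : finrank ℂ (ℂ ⊗[ℚ] A.H1) = 8 := by
    rw [finrank_baseChange, Module.finrank_fin_fun]
  have hnt : Nontrivial (ℂ ⊗[ℚ] A.H1) := by
    apply Module.nontrivial_of_finrank_pos (R := ℂ)
    rw [hU]
    norm_num
  have hmain : Kill4 ⊤ (toQ4 Ψ) (X.baseChange ℂ) := by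
    refine (qhyp A hZ).main hU hA hL ?_ ?_ ?_
    · intro P hP
      exact Pool.Agent.Y102.SP.kil_adj _ P hP _ (bc_adjoin hadj)
    · have h1 := cx_commutes A (S := Submodule.span ℚ {X}) (T := A.EA) (fun Y hY Q hQ => by
        obtain ⟨c, rfl⟩ := Submodule.mem_span_singleton.1 hY
        rw [smul_mul_assoc, mul_smul_comm, hX2 Q hQ])
      exact h1 _ (bc_mem (Submodule.mem_span_singleton_self X))
    · exact skew_ext A.om (omC A) (omC_tmul A) hX1
  rw [← kills_iff_kill4, hΨ, kills_bcm_iff] at hmain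
  obtain ⟨lam, hlam⟩ := exists_lam
  have h2 := hmain lam
  have h3 : Pool.Agent.W516.DR.cmpE lam (X.baseChange ℂ) = X := by
    refine LinearMap.ext fun w => ?_
    rw [Pool.Agent.W516.DR.cmpE_apply, LinearMap.baseChange_tmul,
      Pool.Agent.W516.DR.cmp_tmul, hlam, one_smul]
  rwa [h3] at h2

/-- **De Rham-Betti classes of degree four on abelian fourfolds are Hodge classes**, if the centre of
the algebra of the endomorphisms is the field of rational numbers. -/
theorem four_hodge (A : AbVar 4) (hZ : CentreQ A) (φ : A.H1 [⋀^Fin 2 × Fin 2]→ₗ[ℚ] ℚ)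
    (hφ : IsDeRhamBettiForm QBar A.dR tau 2 φ.toMultilinearMap) :
    IsHodgeTensor (A.per : A.H1 →+ (Fin 4 → ℂ)) φ.toMultilinearMap :=
  hodge_of_kills _ A.isRationalStructure _ fun Z hZ' =>
    four_kills A hZ φ hφ (A.NA_skew (A.MA_le_NA hZ')) fun Q hQ => A.NA_comm (A.MA_le_NA hZ') hQ

end Pool.Agent.R912
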