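import Pool.Agent.H86.CMLib.R912.Q.Small

set_option autoImplicit false
set_option linter.unusedSectionVars false

/-!
# Skew endomorphisms annihilate the invariant forms
-/

open Module Matrix

namespace Pool.Agent.R912

open Pool.Agent.Y102.SP Q

attribute [local instance 100] LieRing.ofAssociativeRing

variable {U : Type} [AddCommGroup U] [Module ℂ U] [FiniteDimensional ℂ U]
  {T : Type} [AddCommGroup T] [Module ℂ T] {L : Submodule ℂ (Module.End ℂ U)}

theorem SB.ne_e {S : RS L T} {N : Submodule ℂ U} {B : U →ₗ[ℂ] U →ₗ[ℂ] ℂ} {ε : ℂ} {k : ℕ}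
    {e : Fin k × Bool → U} {w : Fin k × Bool → Module.Dual ℂ T} (h : SB S N B ε k e w)
    (hε : ε * ε = 1) (p : Fin k × Bool) : e p ≠ 0 := (h.li hε).ne_zero p

/-- Dimension one. -/
theorem kill_one {N : Submodule ℂ U} {B : U →ₗ[ℂ] U →ₗ[ℂ] ℂ} {ε : ℂ} (F : Frm L N B ε)
    (hd : finrank ℂ N = 1) {ψ : Q4 U} {X : Module.End ℂ U} (hX : ∀ u ∈ N, X u ∈ N)
    (hs : ∀ u ∈ N, ∀ v ∈ N, B (X u) v + B u (X v) = 0) : Kill4 N ψ X := by
  obtain ⟨v, hv0, hv⟩ := finrank_eq_one_iff'.1 hd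
  have hv0' : v.1 ≠ 0 := fun h => hv0 (Subtype.ext h)
  have hall : ∀ u ∈ N, ∃ c : ℂ, u = c • v.1 := by
    intro u hu
    obtain ⟨c, hc⟩ := hv ⟨u, hu⟩
    exact ⟨c, (congrArg Subtype.val hc).symm⟩
  have hB : B v.1 v.1 ≠ 0 := by
    intro h
    refine hv0' (F.nd _ v.2 fun u hu => ?_)
    obtain ⟨c, rfl⟩ := hall u hu
    rw [map_smul, LinearMap.smul_apply, h, smul_zero]
  obtain ⟨c, hc⟩ := hall _ (hX _ v.2)
  have h1 := hs _ v.2 _ v.2
  rw [hc, map_smul, map_smul, LinearMap.smul_apply, smul_eq_mul] at h1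
  have h2 : c = 0 := by
    have h3 : c * B v.1 v.1 = 0 := by linear_combination (1 / 2) * h1
    exact (mul_eq_zero.1 h3).resolve_right hB
  have h3 : ∀ u ∈ N, X u = 0 := by
    intro u hu
    obtain ⟨r, rfl⟩ := hall u hu
    rw [map_smul, hc, h2, zero_smul, smul_zero]
  intro a ha b hb c hc d hd
  rw [h3 a ha, h3 b hb, h3 c hc, h3 d hd]
  simp

/-- **Skew endomorphisms annihilate the invariant forms.** -/
theorem kill_core (S : RS L T) {N : Submodule ℂ U} (hN : IrrSub L N)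
    {B : U →ₗ[ℂ] U →ₗ[ℂ] ℂ} {ε : ℂ} (F : Frm L N B ε) (hε' : ε = 1 ∨ ε = -1) {ψ : Q4 U}
    (hψ : ∀ x ∈ L, Kill4 N ψ x) {X : Module.End ℂ U} (hX : ∀ u ∈ N, X u ∈ N)
    (hs : ∀ u ∈ N, ∀ v ∈ N, B (X u) v + B u (X v) = 0)
    (hc : (finrank ℂ N = 8 ∧ ε = -1 ∧ Alt4 ψ) ∨ (finrank ℂ N = 4 ∧ Three N ψ) ∨
      finrank ℂ N = 2 ∨ finrank ℂ N = 1) : Kill4 N ψ X := by
  have hε : ε * ε = 1 := by rcases hε' with rfl | rfl <;> norm_num
  by_cases h1 : finrank ℂ N = 1
  · exact kill_one F h1 hX hs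
  obtain ⟨b, χ, W⟩ := S.exists_wb hN
  have hpos : 0 < finrank ℂ N := by
    rcases hc with h | h | h | h <;> omega
  obtain ⟨φ, i0, hT⟩ := RS.exists_top (S := S) hpos χ
  rcases hε' with h2 | h2
  · -- orthogonal
    subst h2
    rcases hc with h | h | h | h
    · exfalso
      have := h.2.1
      norm_num at this
    · obtain ⟨k1, k2, k3⟩ := W.orth_four F hN hT h.1
      obtain ⟨k, e, w, hSB⟩ := exists_sb W F hT k2 k1
      have hk : k = 2 := by
        have := hSB.finrank_eq hε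
        omega
      subst hk
      refine hSB.kill_of_reg hε (Or.inl rfl) hN F hψ (fun a b' c d hne f => ?_) hX hs
      refine hSB.reg2' hψ (fun p q hpq => ?_) hne f
      obtain ⟨i, hi⟩ := W.exists_of_usp (hSB.mem p) (hSB.wt p) (hSB.ne_e hε p)
      obtain ⟨j, hj⟩ := W.exists_of_usp (hSB.mem q) (hSB.wt q) (hSB.ne_e hε q)
      rw [← hi, ← hj]
      refine k3 i j (fun h5 => ?_) fun h5 => ?_
      · rw [hi, hj] at h5
        exact hpq (by rw [hSB.inj _ _ h5])
      · rw [hi, hj, ← hSB.wbar] at h5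
        exact hpq (by rw [hSB.inj _ _ h5]; rfl)
    · exact (W.orth_two F hN hT h).elim
    · exact absurd h h1
  · -- symplectic
    have hd8 : finrank ℂ N ≤ 8 := by
      rcases hc with h | h | h | h <;> omega
    have k1 : ∀ i, χ i ≠ 0 := W.ne_zero F hN hT h2 hd8
    have k2 : ∀ i j, χ i = χ j → i = j := fun i j hij => W.simple_of_ne F hN hT hd8 hij (k1 i)
    obtain ⟨k, e, w, hSB⟩ := exists_sb W F hT k2 k1
    have hfr := hSB.finrank_eq hε
    rcases hc with h | h | h | h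
    · have hk : k = 4 := by omega
      subst hk
      subst h2
      exact hSB.kill_of_reg hε (Or.inr rfl) hN F hψ
        (fun a b' c d hne f => hSB.reg8 hN F h.2.2 hψ hne f) hX hs
    · have hk : k = 2 := by omega
      subst hk
      exact hSB.kill_of_reg hε (Or.inr h2) hN F hψ
        (fun a b' c d hne f => hSB.reg2 hψ h.2 hne f) hX hs
    · have hk : k = 1 := by omega
      subst hk
      exact hSB.kill_of_reg hε (Or.inr h2) hN F hψ
        (fun a b' c d hne f => hSB.reg1 hψ hne f) hX hs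
    · exact absurd h h1

end Pool.Agent.R912
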