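import Pool.Agent.H86.CMLib.R912.Q.SB

set_option autoImplicit false
set_option linter.unusedSectionVars false

/-!
# Alternating forms in four variables on irreducible symplectic spaces of dimension eight
-/

open Module Matrix

namespace Pool.Agent.R912

open Pool.Agent.Y102.SP Q

attribute [local instance 100] LieRing.ofAssociativeRing

variable {U : Type} [AddCommGroup U] [Module ℂ U] [FiniteDimensional ℂ U]
  {T : Type} [AddCommGroup T] [Module ℂ T] {L : Submodule ℂ (Module.End ℂ U)}

/-- alternating forms -/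
structure Alt4 (ψ : Q4 U) : Prop where
  s1 : ∀ a b c d, ψ b a c d = -ψ a b c d
  s2 : ∀ a b c d, ψ a c b d = -ψ a b c d
  s3 : ∀ a b c d, ψ a b d c = -ψ a b c d

/-- the first vector of integers -/
def f1 : Fin 4 → ℤ := ![111, -109, -91, 89]
/-- the second vector of integers -/
def f2 : Fin 4 → ℤ := ![91, -89, -111, 109]

theorem f12 : ∀ i j : Fin 4 × Bool, til f2 i - til f2 j = -2 → til f1 i - til f1 j = -2 := by
  decide

section Alg

/-- the last step of the computation -/
theorem cube_alg {P M r r' r'' x y z : ℂ} (h1 : M = r ^ 2 * P) (h2 : M = r' ^ 2 * P)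
    (h3 : M = r'' ^ 2 * P) (h4 : x - y = r * P) (h5 : z - x = r' * P) (h6 : y - z = r'' * P)
    (hr : r ≠ 0) : P = 0 := by
  by_contra hP
  have e1 : r ^ 2 = r' ^ 2 := mul_right_cancel₀ hP (h1.symm.trans h2)
  have e2 : r ^ 2 = r'' ^ 2 := mul_right_cancel₀ hP (h1.symm.trans h3)
  have e3 : r + r' + r'' = 0 := by
    have : (r + r' + r'') * P = 0 := by linear_combination -h4 - h5 - h6
    exact (mul_eq_zero.1 this).resolve_right hP
  apply hr
  rcases sq_eq_sq_iff_eq_or_eq_neg.1 e1 with h7 | h7 <;>
    rcases sq_eq_sq_iff_eq_or_eq_neg.1 e2 with h8 | h8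
  · have : (3 : ℂ) * r = 0 := by linear_combination e3 + h7 + h8
    simpa using this
  · linear_combination e3 + h7 - h8
  · linear_combination e3 - h7 + h8
  · have : (-1 : ℂ) * r = 0 := by linear_combination e3 - h7 - h8
    simpa using this

end Alg

namespace SB

variable {S : RS L T} {N : Submodule ℂ U} {B : U →ₗ[ℂ] U →ₗ[ℂ] ℂ}

section Relabel

variable {ε : ℂ} {k : ℕ} {e : Fin k × Bool → U} {w : Fin k × Bool → Module.Dual ℂ T}
  (h : SB S N B ε k e w)
include h

theorem relabel (hε : ε * ε = 1) (a : Fin k → Fin k × Bool)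
    (ha : ∀ i j, (a i).1 = (a j).1 → i = j) :
    SB S N B ε k (fun p => if p.2 then e (a p.1) else sg ε (a p.1) • e (bar (a p.1)))
      (fun p => if p.2 then w (a p.1) else w (bar (a p.1))) := by
  classical
  have hb : ∀ i j, bar (a i) = a j → False := by
    intro i j hij
    have h1 : i = j := ha _ _ (show (bar (a i)).1 = (a j).1 by rw [hij])
    subst h1
    have h2 := congrArg Prod.snd hij
    simp [bar] at h2
  have hbij : Function.Bijective fun i => (a i).1 :=
    Finite.injective_iff_bijective.1 fun i j hij => ha i j hij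
  refine ⟨?_, ?_, ?_, ?_, ?_, ?_, ?_⟩
  · rintro ⟨i, _ | _⟩
    · exact N.smul_mem _ (h.mem _)
    · exact h.mem _
  · refine h.span.trans ?_
    rw [Submodule.span_le]
    rintro _ ⟨p, rfl⟩
    obtain ⟨i, hi⟩ := hbij.2 p.1
    by_cases hp : p = a i
    · rw [hp]
      exact Submodule.subset_span ⟨(i, true), rfl⟩
    · have hp' : p = bar (a i) := by
        by_contra hcon
        exact fst_ne hp hcon hi.symm
      have h1 : e p = sg ε (a i) • (sg ε (a i) • e (bar (a i))) := by
        rw [smul_smul, sg_sq hε, one_smul, hp']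
      rw [h1]
      exact Submodule.smul_mem _ _ (Submodule.subset_span ⟨(i, false), rfl⟩)
  · have hne : ∀ i j, i ≠ j → bar (a i) ≠ bar (a j) := by
      intro i j hij e1
      exact hij (ha _ _ (congrArg Prod.fst e1 : (bar (a i)).1 = (bar (a j)).1))
    rintro ⟨i, _ | _⟩ ⟨j, _ | _⟩
    · have h1 : ((j, false) : Fin k × Bool) ≠ bar (i, false) := by simp [bar]
      rw [if_neg h1]
      simp only [Bool.false_eq_true, if_false]
      rw [map_smul, map_smul, LinearMap.smul_apply, h.form, if_neg, smul_zero, smul_zero]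
      rw [bar_bar]
      exact fun h2 => hb _ _ h2
    · simp only [Bool.false_eq_true, if_false, if_true]
      rw [map_smul, LinearMap.smul_apply, h.form, bar_bar]
      by_cases hij : j = i
      · subst hij
        have h0 : ((j, true) : Fin k × Bool) = bar (j, false) := rfl
        rw [if_pos rfl, ← h0, if_pos rfl, sg_bar hε, smul_eq_mul]
        have h1 : sg ε ((j, false) : Fin k × Bool) = ε := rfl
        rw [h1]
        linear_combination ε * sg_sq hε (a j)
      · have h1 : ((j, true) : Fin k × Bool) ≠ bar (i, false) := by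
          simp [bar, hij]
        rw [if_neg h1, if_neg, smul_zero]
        intro h2
        exact hij (ha _ _ (congrArg Prod.fst h2))
    · simp only [Bool.false_eq_true, if_false, if_true]
      rw [map_smul, h.form]
      by_cases hij : j = i
      · subst hij
        have h0 : ((j, false) : Fin k × Bool) = bar (j, true) := rfl
        rw [if_pos rfl, ← h0, if_pos rfl, smul_eq_mul]
        exact sg_sq hε (a j)
      · have h1 : ((j, false) : Fin k × Bool) ≠ bar (i, true) := by
          simp [bar, hij]
        rw [if_neg h1, if_neg, smul_zero]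
        exact hne _ _ hij
    · have h1 : ((j, true) : Fin k × Bool) ≠ bar (i, true) := by simp [bar]
      rw [if_neg h1]
      simp only [if_true]
      rw [h.form, if_neg]
      exact fun h2 => hb _ _ h2.symm
  · rintro ⟨i, _ | _⟩
    · exact Submodule.smul_mem _ _ (h.wt _)
    · exact h.wt _
  · rintro ⟨i, _ | _⟩
    · change w (a i) = -w (bar (a i))
      rw [h.wbar, neg_neg]
    · change w (bar (a i)) = -w (a i)
      rw [h.wbar]
  · rintro ⟨i, _ | _⟩
    · exact h.ne _
    · exact h.ne _
  · rintro ⟨i, _ | _⟩ ⟨j, _ | _⟩ hij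
    · have h1 := h.inj _ _ hij
      rw [ha i j (congrArg Prod.fst h1 : (bar (a i)).1 = (bar (a j)).1)]
    · exact absurd (h.inj _ _ hij) fun h2 => hb _ _ h2
    · exact absurd (h.inj _ _ hij) fun h2 => hb _ _ h2.symm
    · have h1 := h.inj _ _ hij
      rw [ha i j (congrArg Prod.fst h1 : (a i).1 = (a j).1)]

theorem pair_reg {a b c d : Fin k × Bool} (hw : w a + w b + w c + w d = 0) (hab : b = bar a)
    (f : Fin k → ℤ) : til f a + til f b + til f c + til f d = 0 := by
  have h1 : d = bar c := by
    apply h.inj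
    rw [h.wbar, eq_neg_iff_add_eq_zero]
    rw [hab, h.wbar, add_neg_cancel, zero_add] at hw
    rw [← hw, add_comm]
  rw [hab, h1, til_bar, til_bar]
  ring

/-- The support of an alternating form. -/
theorem alt_supp {ψ : Q4 U} (hA : Alt4 ψ) (hψ : ∀ x ∈ L, Kill4 N ψ x) {a b c d : Fin k × Bool}
    (hne : Fψ ψ e a b c d ≠ 0) : (∀ f : Fin k → ℤ, til f a + til f b + til f c + til f d = 0) ∨
      (a.1 ≠ b.1 ∧ a.1 ≠ c.1 ∧ a.1 ≠ d.1 ∧ b.1 ≠ c.1 ∧ b.1 ≠ d.1 ∧ c.1 ≠ d.1) := by
  have hw := h.wt_zero' hψ hne
  have z : ∀ x : ℂ, x = -x → x = 0 := fun x hx => by linear_combination (1 / 2) * hx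
  have z1 : ∀ a c d, ψ a a c d = 0 := fun a c d => z _ (hA.s1 a a c d)
  have z2 : ∀ a b d, ψ a b b d = 0 := fun a b d => z _ (hA.s2 a b b d)
  have z3 : ∀ a b c, ψ a b c c = 0 := fun a b c => z _ (hA.s3 a b c c)
  have n1 : a ≠ b := by
    rintro rfl
    exact hne (z1 _ _ _)
  have n2 : b ≠ c := by
    rintro rfl
    exact hne (z2 _ _ _)
  have n3 : c ≠ d := by
    rintro rfl
    exact hne (z3 _ _ _)
  have n4 : a ≠ c := by
    rintro rfl
    apply hne
    unfold Fψ
    rw [← neg_eq_zero, ← hA.s1, z2]
  have n5 : b ≠ d := by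
    rintro rfl
    apply hne
    unfold Fψ
    rw [← neg_eq_zero, ← hA.s2, z3]
  have n6 : a ≠ d := by
    rintro rfl
    apply hne
    unfold Fψ
    rw [← neg_eq_zero, ← hA.s1, ← neg_eq_zero, ← hA.s2, z3]
  by_cases p1 : b = bar a
  · exact Or.inl fun f => h.pair_reg hw p1 f
  by_cases p2 : c = bar a
  · refine Or.inl fun f => ?_
    rw [← h.pair_reg (a := a) (b := c) (c := b) (d := d) (by rw [← hw]; abel) p2 f]
    ring
  by_cases p3 : d = bar a
  · refine Or.inl fun f => ?_
    rw [← h.pair_reg (a := a) (b := d) (c := b) (d := c) (by rw [← hw]; abel) p3 f]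
    ring
  by_cases p4 : c = bar b
  · refine Or.inl fun f => ?_
    rw [← h.pair_reg (a := b) (b := c) (c := a) (d := d) (by rw [← hw]; abel) p4 f]
    ring
  by_cases p5 : d = bar b
  · refine Or.inl fun f => ?_
    rw [← h.pair_reg (a := b) (b := d) (c := a) (d := c) (by rw [← hw]; abel) p5 f]
    ring
  by_cases p6 : d = bar c
  · refine Or.inl fun f => ?_
    rw [← h.pair_reg (a := c) (b := d) (c := a) (d := b) (by rw [← hw]; abel) p6 f]
    ring
  refine Or.inr ⟨(fst_ne n1.symm p1).symm, (fst_ne n4.symm p2).symm, (fst_ne n6.symm p3).symm,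
    (fst_ne n2.symm p4).symm, (fst_ne n5.symm p5).symm, (fst_ne n3.symm p6).symm⟩

end Relabel

section Eight

variable {e : Fin 4 × Bool → U} {w : Fin 4 × Bool → Module.Dual ℂ T} (h : SB S N B (-1) 4 e w)
  {ψ : Q4 U} (hN : IrrSub L N) (F : Frm L N B (-1)) (hA : Alt4 ψ) (hψ : ∀ x ∈ L, Kill4 N ψ x)
include h

/-- Only one relation is possible. -/
theorem rel_unique (hrel : w (0, true) + w (1, true) + w (2, true) + w (3, true) = 0)
    {a b c d : Fin 4 × Bool} (hw : w a + w b + w c + w d = 0)
    (hd : a.1 ≠ b.1 ∧ a.1 ≠ c.1 ∧ a.1 ≠ d.1 ∧ b.1 ≠ c.1 ∧ b.1 ≠ d.1 ∧ c.1 ≠ d.1)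
    {f : Fin 4 → ℤ} (hf : f 0 + f 1 + f 2 + f 3 = 0) :
    til f a + til f b + til f c + til f d = 0 := by
  have one : ∀ i, w (i, true) ≠ 0 := fun i => h.ne _
  have two : ∀ i j, i ≠ j → w (i, true) + w (j, true) ≠ 0 := by
    intro i j hij h1
    have h2 : w (i, true) = w (j, false) := by
      have h3 := h.wbar (j, true)
      have h4 : bar ((j, true) : Fin 4 × Bool) = (j, false) := rfl
      rw [h4] at h3
      rw [h3]
      exact eq_neg_of_add_eq_zero_left h1
    have h3 := h.inj _ _ h2
    simp at h3
  have hwf : ∀ i, w (i, false) = -w (i, true) := fun i => h.wbar (i, true)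
  have perm : ∀ {X : Type} [AddCommGroup X] (g : Fin 4 → X) (i j l m : Fin 4), i ≠ j → i ≠ l →
      i ≠ m → j ≠ l → j ≠ m → l ≠ m → g i + g j + g l + g m = g 0 + g 1 + g 2 + g 3 := by
    intro X _ g i j l m h1 h2 h3 h4 h5 h6
    have h7 : g i + g j + g l + g m = ∑ t ∈ ({i, j, l, m} : Finset (Fin 4)), g t := by
      rw [Finset.sum_insert, Finset.sum_insert, Finset.sum_insert, Finset.sum_singleton]
      · abel
      · simpa using h6
      · simpa using ⟨h4, h5⟩
      · simpa using ⟨h1, h2, h3⟩
    have h8 : ({i, j, l, m} : Finset (Fin 4)) = Finset.univ := by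
      apply Finset.eq_univ_of_card
      rw [Finset.card_insert_of_notMem, Finset.card_insert_of_notMem,
        Finset.card_insert_of_notMem, Finset.card_singleton]
      · simp
      · simpa using h6
      · simpa using ⟨h4, h5⟩
      · simpa using ⟨h1, h2, h3⟩
    rw [h7, h8, Fin.sum_univ_four]
  obtain ⟨a, a'⟩ := a
  obtain ⟨b, b'⟩ := b
  obtain ⟨c, c'⟩ := c
  obtain ⟨d, d'⟩ := d
  obtain ⟨d1, d2, d3, d4, d5, d6⟩ := hd
  simp only at d1 d2 d3 d4 d5 d6
  have hr : w (a, true) + w (b, true) + w (c, true) + w (d, true) = 0 := by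
    rw [perm (fun i => w (i, true)) a b c d d1 d2 d3 d4 d5 d6, hrel]
  have hf' : f a + f b + f c + f d = 0 := by
    rw [perm f a b c d d1 d2 d3 d4 d5 d6, hf]
  have half : ∀ x : Module.Dual ℂ T, x + x = 0 → x = 0 := by
    intro x hx
    rw [← two_smul ℂ] at hx
    exact (smul_eq_zero.1 hx).resolve_left two_ne_zero
  unfold til
  cases a' <;> cases b' <;> cases c' <;> cases d' <;>
    simp only [hwf, if_true, Bool.false_eq_true, if_false] at hw ⊢
  · linarith
  · exact absurd (half _ (by linear_combination (norm := module) hw + hr)) (one d)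
  · exact absurd (half _ (by linear_combination (norm := module) hw + hr)) (one c)
  · exact absurd (half (w (c, true) + w (d, true)) (by linear_combination (norm := module) hw + hr))
      (two c d d6)
  · exact absurd (half _ (by linear_combination (norm := module) hw + hr)) (one b)
  · exact absurd (half (w (b, true) + w (d, true)) (by linear_combination (norm := module) hw + hr))
      (two b d d5)
  · exact absurd (half (w (b, true) + w (c, true)) (by linear_combination (norm := module) hw + hr))
      (two b c d4)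
  · exact absurd (half _ (by linear_combination (norm := module) hr - hw)) (one a)
  · exact absurd (half _ (by linear_combination (norm := module) hw + hr)) (one a)
  · exact absurd (half (w (a, true) + w (d, true)) (by linear_combination (norm := module) hw + hr))
      (two a d d3)
  · exact absurd (half (w (a, true) + w (c, true)) (by linear_combination (norm := module) hw + hr))
      (two a c d2)
  · exact absurd (half _ (by linear_combination (norm := module) hr - hw)) (one b)
  · exact absurd (half (w (a, true) + w (b, true)) (by linear_combination (norm := module) hw + hr))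
      (two a b d1)
  · exact absurd (half _ (by linear_combination (norm := module) hr - hw)) (one c)
  · exact absurd (half _ (by linear_combination (norm := module) hr - hw)) (one d)
  · linarith

end Eight

end SB

end Pool.Agent.R912
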