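import Pool.Agent.H86.CMLib.R912.Q.Cube

set_option autoImplicit false
set_option linter.unusedSectionVars false

/-!
# Alternating forms in four variables on irreducible symplectic spaces of dimension eight, II
-/

open Module Matrix

namespace Pool.Agent.R912

open Pool.Agent.Y102.SP Q

attribute [local instance 100] LieRing.ofAssociativeRing

variable {U : Type} [AddCommGroup U] [Module ℂ U] [FiniteDimensional ℂ U]
  {T : Type} [AddCommGroup T] [Module ℂ T] {L : Submodule ℂ (Module.End ℂ U)}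

namespace SB

variable {S : RS L T} {N : Submodule ℂ U} {B : U →ₗ[ℂ] U →ₗ[ℂ] ℂ}
  {e : Fin 4 × Bool → U} {w : Fin 4 × Bool → Module.Dual ℂ T} (h : SB S N B (-1) 4 e w)
  {ψ : Q4 U} (hN : IrrSub L N) (F : Frm L N B (-1)) (hA : Alt4 ψ) (hψ : ∀ x ∈ L, Kill4 N ψ x)
include h hN F hA hψ

theorem zdir (hrel : w (0, true) + w (1, true) + w (2, true) + w (3, true) = 0) :
    ∃ r : ℂ, r ≠ 0 ∧
      ψ (e (0, false)) (e (1, false)) (e (2, false)) (e (3, false)) =
        r ^ 2 * ψ (e (0, true)) (e (1, true)) (e (2, true)) (e (3, true)) ∧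
      ψ (e (0, true)) (e (0, false)) (e (3, true)) (e (3, false)) -
        ψ (e (0, true)) (e (0, false)) (e (2, true)) (e (2, false)) =
        r * ψ (e (0, true)) (e (1, true)) (e (2, true)) (e (3, true)) := by
  classical
  have hε : (-1 : ℂ) * (-1) = 1 := by norm_num
  have hI := h.irrOn hε hN F hψ
  have hdg : ∀ f : Fin 4 → ℤ, f 0 + f 1 + f 2 + f 3 = 0 →
      dg f ∈ KF (Fψ ψ e) ⊓ Sk (-1) 4 := by
    intro f hf
    refine dg_mem_of fun a b c d hne => ?_
    rcases h.alt_supp hA hψ hne with h1 | h1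
    · exact h1 f
    · exact h.rel_unique hrel (h.wt_zero' hψ hne) h1 hf
  obtain ⟨x1, hx1, hx10, hx1z⟩ := hI.top_two (nrm_of_dg hI.br (hdg f1 (by decide)))
    (i0 := (0, true)) (i1 := (1, false)) (Set.mem_univ _) (Set.mem_univ _) (by decide)
    (fun j _ => by revert j; decide)
  obtain ⟨x2, hx2, hx20, hx2z⟩ := hI.top_two (nrm_of_dg hI.br (hdg f2 (by decide)))
    (i0 := (2, false)) (i1 := (3, true)) (Set.mem_univ _) (Set.mem_univ _) (by decide)
    (fun j _ => by revert j; decide)
  have e1 : til f1 (1, false) - til f1 (0, true) = -2 := by decide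
  have e2 : til f2 (3, true) - til f2 (2, false) = -2 := by decide
  rw [e1] at hx1z
  rw [e2] at hx2z
  have hx2z' : ∀ i j, til f1 i - til f1 j ≠ -2 → x2 i j = 0 := fun i j hij =>
    hx2z i j fun h1 => hij (f12 i j h1)
  obtain ⟨X, ⟨hX, hXs⟩, hs0, ht0, hXz⟩ : ∃ X ∈ KF (Fψ ψ e) ⊓ Sk (-1) 4, X (1, false) (0, true) ≠ 0 ∧
      X (3, true) (2, false) ≠ 0 ∧ ∀ i j, til f1 i - til f1 j ≠ -2 → X i j = 0 := by
    by_cases h1 : x1 (3, true) (2, false) = 0
    · by_cases h2 : x2 (1, false) (0, true) = 0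
      · refine ⟨x1 + x2, Submodule.add_mem _ hx1 hx2, ?_, ?_, fun i j hij => ?_⟩
        · rw [Matrix.add_apply, h2, add_zero]
          exact hx10
        · rw [Matrix.add_apply, h1, zero_add]
          exact hx20
        · rw [Matrix.add_apply, hx1z i j hij, hx2z' i j hij, add_zero]
      · exact ⟨x2, hx2, h2, hx20, hx2z'⟩
    · exact ⟨x1, hx1, hx10, h1, hx1z⟩
  obtain ⟨s, hs⟩ : ∃ s, X (1, false) (0, true) = s := ⟨_, rfl⟩
  obtain ⟨t, ht⟩ : ∃ t, X (3, true) (2, false) = t := ⟨_, rfl⟩
  have hs' : X (0, false) (1, true) = s := by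
    have h1 := Sk_bar hε hXs (0, true) (1, false)
    have h2 : bar ((0, true) : Fin 4 × Bool) = (0, false) := rfl
    have h3 : bar ((1, false) : Fin 4 × Bool) = (1, true) := rfl
    have h4 : sg (-1 : ℂ) ((0, true) : Fin 4 × Bool) = 1 := rfl
    have h5 : sg (-1 : ℂ) ((1, false) : Fin 4 × Bool) = -1 := rfl
    rw [h2, h3, h4, h5, hs] at h1
    rw [h1]
    ring
  have ht' : X (2, true) (3, false) = t := by
    have h1 := Sk_bar hε hXs (2, false) (3, true)
    have h2 : bar ((2, false) : Fin 4 × Bool) = (2, true) := rfl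
    have h3 : bar ((3, true) : Fin 4 × Bool) = (3, false) := rfl
    have h4 : sg (-1 : ℂ) ((3, true) : Fin 4 × Bool) = 1 := rfl
    have h5 : sg (-1 : ℂ) ((2, false) : Fin 4 × Bool) = -1 := rfl
    rw [h2, h3, h4, h5, ht] at h1
    rw [h1]
    ring
  rw [hs] at hs0
  rw [ht] at ht0
  -- the columns
  have col : ∀ (a p : Fin 4 × Bool), (∀ q, q ≠ p → til f1 q - til f1 a ≠ -2) →
      ∀ G : Fin 4 × Bool → ℂ, ∑ q, X q a * G q = X p a * G p := by
    intro a p hp G
    rw [Finset.sum_eq_single p]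
    · intro q _ hq
      rw [hXz q a (hp q hq), zero_mul]
    · intro hq
      exact absurd (Finset.mem_univ _) hq
  have col0 : ∀ (a : Fin 4 × Bool), (∀ q, til f1 q - til f1 a ≠ -2) →
      ∀ G : Fin 4 × Bool → ℂ, ∑ q, X q a * G q = 0 := by
    intro a hp G
    refine Finset.sum_eq_zero fun q _ => ?_
    rw [hXz q a (hp q), zero_mul]
  have cA := col (0, true) (1, false) (by decide)
  have cB := col (1, true) (0, false) (by decide)
  have cC' := col (2, false) (3, true) (by decide)
  have cD' := col (3, false) (2, true) (by decide)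
  have cA' := col0 (0, false) (by decide)
  have cB' := col0 (1, false) (by decide)
  have cC := col0 (2, true) (by decide)
  have cD := col0 (3, true) (by decide)
  rw [hs] at cA
  rw [hs'] at cB
  rw [ht] at cC'
  rw [ht'] at cD'
  have q1 := hX (0, true) (1, true) (2, true) (2, false)
  have q2 := hX (0, true) (1, true) (3, true) (3, false)
  have q3 := hX (0, true) (0, false) (2, false) (3, false)
  have q4 := hX (1, true) (1, false) (2, false) (3, false)
  unfold DD D1 D2 D3 D4 at q1 q2 q3 q4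
  rw [cA, cB, cC, cC'] at q1
  rw [cA, cB, cD, cD'] at q2
  rw [cA, cA', cC', cD'] at q3
  rw [cB, cB', cC', cD'] at q4
  unfold Fψ at q1 q2 q3 q4
  -- signs
  have g1 : ψ (e (1, false)) (e (1, true)) (e (2, true)) (e (2, false)) =
      -ψ (e (1, true)) (e (1, false)) (e (2, true)) (e (2, false)) := hA.s1 _ _ _ _
  have g2 : ψ (e (1, false)) (e (1, true)) (e (3, true)) (e (3, false)) =
      -ψ (e (1, true)) (e (1, false)) (e (3, true)) (e (3, false)) := hA.s1 _ _ _ _
  have g3 : ψ (e (0, true)) (e (1, true)) (e (3, true)) (e (2, true)) =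
      -ψ (e (0, true)) (e (1, true)) (e (2, true)) (e (3, true)) := hA.s3 _ _ _ _
  have g4 : ψ (e (1, false)) (e (0, false)) (e (2, false)) (e (3, false)) =
      -ψ (e (0, false)) (e (1, false)) (e (2, false)) (e (3, false)) := hA.s1 _ _ _ _
  have g5 : ψ (e (0, true)) (e (0, false)) (e (2, false)) (e (2, true)) =
      -ψ (e (0, true)) (e (0, false)) (e (2, true)) (e (2, false)) := hA.s3 _ _ _ _
  have g6 : ψ (e (1, true)) (e (1, false)) (e (2, false)) (e (2, true)) =
      -ψ (e (1, true)) (e (1, false)) (e (2, true)) (e (2, false)) := hA.s3 _ _ _ _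
  rw [g1] at q1
  rw [g2, g3] at q2
  rw [g4, g5] at q3
  rw [g6] at q4
  obtain ⟨P, hP⟩ : ∃ P, ψ (e (0, true)) (e (1, true)) (e (2, true)) (e (3, true)) = P := ⟨_, rfl⟩
  obtain ⟨M, hM⟩ : ∃ M, ψ (e (0, false)) (e (1, false)) (e (2, false)) (e (3, false)) = M :=
    ⟨_, rfl⟩
  rw [hP] at q1 q2 ⊢
  rw [hM] at q3 q4 ⊢
  have k1 : s ^ 2 * M = t ^ 2 * P := by linear_combination (-s / 2) * q3 + (s / 2) * q4 -
    (t / 2) * q1 + (t / 2) * q2
  refine ⟨t / s, div_ne_zero ht0 hs0, ?_, ?_⟩
  · rw [div_pow, div_mul_eq_mul_div, eq_div_iff (pow_ne_zero 2 hs0)]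
    linear_combination k1
  · rw [div_mul_eq_mul_div, eq_div_iff hs0]
    have k2 : t * (ψ (e (0, true)) (e (0, false)) (e (3, true)) (e (3, false)) -
        ψ (e (0, true)) (e (0, false)) (e (2, true)) (e (2, false))) = s * M := by
      linear_combination q3
    apply mul_left_cancel₀ ht0
    linear_combination s * k2 + k1

/-- There is no relation. -/
theorem plus_zero (hrel : w (0, true) + w (1, true) + w (2, true) + w (3, true) = 0) :
    ψ (e (0, true)) (e (1, true)) (e (2, true)) (e (3, true)) = 0 := by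
  have hε : (-1 : ℂ) * (-1) = 1 := by norm_num
  obtain ⟨r, hr, h1, h2⟩ := h.zdir hN F hA hψ hrel
  let a1 : Fin 4 → Fin 4 × Bool := ![(0, true), (2, true), (3, true), (1, true)]
  let a2 : Fin 4 → Fin 4 × Bool := ![(0, true), (3, true), (1, true), (2, true)]
  have hb1 : ∀ i j, (a1 i).1 = (a1 j).1 → i = j := by decide
  have hb2 : ∀ i j, (a2 i).1 = (a2 j).1 → i = j := by decide
  have hr1 : w (0, true) + w (2, true) + w (3, true) + w (1, true) = 0 := by
    rw [← hrel]; abel
  have hr2 : w (0, true) + w (3, true) + w (1, true) + w (2, true) = 0 := by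
    rw [← hrel]; abel
  obtain ⟨r', -, h3, h4⟩ := (h.relabel hε a1 hb1).zdir hN F hA hψ hr1
  obtain ⟨r'', -, h5, h6⟩ := (h.relabel hε a2 hb2).zdir hN F hA hψ hr2
  have hsg : ∀ i : Fin 4, sg (-1 : ℂ) ((i, true) : Fin 4 × Bool) = 1 := fun i => rfl
  have hbt : ∀ i : Fin 4, bar ((i, true) : Fin 4 × Bool) = (i, false) := fun i => rfl
  have b0 : a1 0 = (0, true) := rfl
  have b1 : a1 1 = (2, true) := rfl
  have b2 : a1 2 = (3, true) := rfl
  have b3 : a1 3 = (1, true) := rfl
  have c0 : a2 0 = (0, true) := rfl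
  have c1 : a2 1 = (3, true) := rfl
  have c2 : a2 2 = (1, true) := rfl
  have c3 : a2 3 = (2, true) := rfl
  simp only [b0, b1, b2, b3, hsg, hbt, one_smul, Bool.false_eq_true, if_false, if_true] at h3 h4
  simp only [c0, c1, c2, c3, hsg, hbt, one_smul, Bool.false_eq_true, if_false, if_true] at h5 h6
  have cyc : ∀ a b c d, ψ a c d b = ψ a b c d := by
    intro a b c d
    rw [hA.s3 a c b d, hA.s2 a b c d, neg_neg]
  rw [cyc (e (0, false)) (e (1, false)) (e (2, false)) (e (3, false)),
    cyc (e (0, true)) (e (1, true)) (e (2, true)) (e (3, true))] at h3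
  rw [cyc (e (0, true)) (e (1, true)) (e (2, true)) (e (3, true))] at h4
  rw [cyc (e (0, false)) (e (2, false)) (e (3, false)) (e (1, false)),
    cyc (e (0, false)) (e (1, false)) (e (2, false)) (e (3, false)),
    cyc (e (0, true)) (e (2, true)) (e (3, true)) (e (1, true)),
    cyc (e (0, true)) (e (1, true)) (e (2, true)) (e (3, true))] at h5
  rw [cyc (e (0, true)) (e (2, true)) (e (3, true)) (e (1, true)),
    cyc (e (0, true)) (e (1, true)) (e (2, true)) (e (3, true))] at h6
  exact cube_alg h1 h3 h5 h2 h4 h6 hr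

/-- **Dimension eight**: all forms are regular. -/
theorem reg8 {a b c d : Fin 4 × Bool} (hne : Fψ ψ e a b c d ≠ 0) (f : Fin 4 → ℤ) :
    til f a + til f b + til f c + til f d = 0 := by
  have hε : (-1 : ℂ) * (-1) = 1 := by norm_num
  rcases h.alt_supp hA hψ hne with h1 | ⟨d1, d2, d3, d4, d5, d6⟩
  · exact h1 f
  · exfalso
    let a1 : Fin 4 → Fin 4 × Bool := ![a, b, c, d]
    have hb1 : ∀ i j, (a1 i).1 = (a1 j).1 → i = j := by
      intro i j hij
      fin_cases i <;> fin_cases j <;> first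
        | rfl
        | exact absurd hij d1
        | exact absurd hij d2
        | exact absurd hij d3
        | exact absurd hij d4
        | exact absurd hij d5
        | exact absurd hij d6
        | exact absurd hij d1.symm
        | exact absurd hij d2.symm
        | exact absurd hij d3.symm
        | exact absurd hij d4.symm
        | exact absurd hij d5.symm
        | exact absurd hij d6.symm
    exact hne ((h.relabel hε a1 hb1).plus_zero hN F hA hψ (h.wt_zero' hψ hne))

end SB

end Pool.Agent.R912
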