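import Pool.Agent.H86.CMLib.R912.Q.Kil
import Pool.Agent.H86.CMLib.R912.Q.TM1

set_option autoImplicit false
set_option linter.unusedSectionVars false

/-!
# Block bases of weight vectors
-/

open Module Matrix

namespace Pool.Agent.R912

open Pool.Agent.Y102.SP Q

attribute [local instance 100] LieRing.ofAssociativeRing

variable {U : Type} [AddCommGroup U] [Module ℂ U] [FiniteDimensional ℂ U]
  {T : Type} [AddCommGroup T] [Module ℂ T] {L : Submodule ℂ (Module.End ℂ U)}

/-- A basis adapted to the form. -/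
structure CB (N : Submodule ℂ U) (B : U →ₗ[ℂ] U →ₗ[ℂ] ℂ) (ε : ℂ) (k : ℕ)
    (e : Fin k × Bool → U) : Prop where
  mem : ∀ p, e p ∈ N
  span : N ≤ Submodule.span ℂ (Set.range e)
  form : ∀ p q, B (e p) (e q) = if q = bar p then sg ε p else 0

namespace CB

variable {N : Submodule ℂ U} {B : U →ₗ[ℂ] U →ₗ[ℂ] ℂ} {ε : ℂ} {k : ℕ}
  {e : Fin k × Bool → U} (h : CB N B ε k e)
  (hε : ε * ε = 1)
include h hε

theorem coord {u : U} (hu : u ∈ N) : u = ∑ p, (sg ε p * B u (e (bar p))) • e p := by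
  classical
  have hu' := h.span hu
  induction hu' using Submodule.span_induction with
  | mem u hu' =>
    obtain ⟨q, rfl⟩ := hu'
    rw [Finset.sum_eq_single q]
    · rw [h.form, if_pos rfl, sg_sq hε, one_smul]
    · intro p _ hp
      rw [h.form, if_neg, mul_zero, zero_smul]
      intro e1
      apply hp
      rw [← bar_bar p, e1, bar_bar]
    · intro hq
      exact absurd (Finset.mem_univ _) hq
  | zero => simp
  | add u v hu1 hv1 hu2 hv2 =>
    have hle : Submodule.span ℂ (Set.range e) ≤ N := by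
      rw [Submodule.span_le]
      rintro _ ⟨p, rfl⟩
      exact h.mem p
    conv_lhs => rw [hu2 (hle hu1), hv2 (hle hv1)]
    rw [← Finset.sum_add_distrib]
    refine Finset.sum_congr rfl fun p _ => ?_
    rw [map_add, LinearMap.add_apply, mul_add, add_smul]
  | smul c u hu1 hu2 =>
    have hle : Submodule.span ℂ (Set.range e) ≤ N := by
      rw [Submodule.span_le]
      rintro _ ⟨p, rfl⟩
      exact h.mem p
    conv_lhs => rw [hu2 (hle hu1)]
    rw [Finset.smul_sum]
    refine Finset.sum_congr rfl fun p _ => ?_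
    rw [map_smul, LinearMap.smul_apply, smul_eq_mul, smul_smul]
    congr 1
    ring

theorem coef_eq {c : Fin k × Bool → ℂ} (q : Fin k × Bool) :
    sg ε q * B (∑ p, c p • e p) (e (bar q)) = c q := by
  classical
  rw [map_sum, LinearMap.sum_apply, Finset.sum_eq_single q]
  · rw [map_smul, LinearMap.smul_apply, h.form, if_pos rfl, smul_eq_mul]
    linear_combination c q * sg_sq hε q
  · intro p _ hp
    rw [map_smul, LinearMap.smul_apply, h.form, if_neg, smul_zero]
    intro e1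
    apply hp
    rw [← bar_bar p, ← e1, bar_bar]
  · intro hq
    exact absurd (Finset.mem_univ _) hq

theorem li : LinearIndependent ℂ e := by
  rw [Fintype.linearIndependent_iff]
  intro c hc q
  rw [← h.coef_eq hε (c := c) q, hc, map_zero, LinearMap.zero_apply, mul_zero]

theorem finrank_eq : finrank ℂ N = 2 * k := by
  have h1 : Submodule.span ℂ (Set.range e) = N := by
    refine le_antisymm ?_ h.span
    rw [Submodule.span_le]
    rintro _ ⟨p, rfl⟩
    exact h.mem p
  rw [← h1, finrank_span_eq_card (h.li hε), Fintype.card_prod, Fintype.card_fin,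
    Fintype.card_bool, mul_comm]

theorem ap {x : Module.End ℂ U} (hx : ∀ u ∈ N, x u ∈ N) (j : Fin k × Bool) :
    x (e j) = ∑ i, MX B ε e x i j • e i := h.coord hε (hx _ (h.mem j))

theorem MX_mul (x : Module.End ℂ U) {y : Module.End ℂ U} (hy : ∀ u ∈ N, y u ∈ N) :
    MX B ε e (x * y) = MX B ε e x * MX B ε e y := by
  ext i j
  rw [MX_apply, Matrix.mul_apply, Module.End.mul_apply, h.ap hε hy j, map_sum, map_sum,
    LinearMap.sum_apply, Finset.mul_sum]
  refine Finset.sum_congr rfl fun l _ => ?_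
  rw [map_smul, map_smul, LinearMap.smul_apply, smul_eq_mul, MX_apply (i := i)]
  ring

theorem MX_Sk {x : Module.End ℂ U} (hx : ∀ u ∈ N, x u ∈ N)
    (hs : ∀ u ∈ N, ∀ v ∈ N, B (x u) v + B u (x v) = 0)
    (hsym : ∀ u ∈ N, ∀ v ∈ N, B u v = ε * B v u) : MX B ε e x ∈ Sk ε k := by
  intro p q
  rw [MX_apply, MX_apply, bar_bar, sg_bar hε]
  have h1 := hs _ (h.mem p) _ (h.mem (bar q))
  have h2 := hsym _ (h.mem p) _ (hx _ (h.mem (bar q)))
  have h3 := sg_sq hε p
  have h4 := sg_sq hε q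
  linear_combination (B (x (e p)) (e (bar q))) * h4 +
    (ε * B (x (e (bar q))) (e p)) * h3 + h1 - h2

theorem MX_KF {ψ : Q4 U} {x : Module.End ℂ U} (hx : ∀ u ∈ N, x u ∈ N) (hk : Kill4 N ψ x) :
    MX B ε e x ∈ KF (Fψ ψ e) := by
  intro a b c d
  have h1 := hk _ (h.mem a) _ (h.mem b) _ (h.mem c) _ (h.mem d)
  rw [h.ap hε hx a, h.ap hε hx b, h.ap hε hx c, h.ap hε hx d] at h1
  simp only [map_sum, map_smul, LinearMap.sum_apply, LinearMap.smul_apply, smul_eq_mul] at h1
  exact h1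

theorem kill_of_KF {ψ : Q4 U} {x : Module.End ℂ U} (hx : ∀ u ∈ N, x u ∈ N)
    (hk : MX B ε e x ∈ KF (Fψ ψ e)) : Kill4 N ψ x := by
  have hle : Submodule.span ℂ (Set.range e) = N := by
    refine le_antisymm ?_ h.span
    rw [Submodule.span_le]
    rintro _ ⟨p, rfl⟩
    exact h.mem p
  have key : ∀ a b c d : Fin k × Bool, ψ (x (e a)) (e b) (e c) (e d) +
      ψ (e a) (x (e b)) (e c) (e d) + ψ (e a) (e b) (x (e c)) (e d) +
      ψ (e a) (e b) (e c) (x (e d)) = 0 := by
    intro a b c d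
    rw [h.ap hε hx a, h.ap hε hx b, h.ap hε hx c, h.ap hε hx d]
    simp only [map_sum, map_smul, LinearMap.sum_apply, LinearMap.smul_apply, smul_eq_mul]
    exact hk a b c d
  intro a ha b hb c hc d hd
  rw [← hle] at ha hb hc hd
  induction ha using Submodule.span_induction with
  | mem a ha =>
    obtain ⟨a, rfl⟩ := ha
    induction hb using Submodule.span_induction with
    | mem b hb =>
      obtain ⟨b, rfl⟩ := hb
      induction hc using Submodule.span_induction with
      | mem c hc =>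
        obtain ⟨c, rfl⟩ := hc
        induction hd using Submodule.span_induction with
        | mem d hd =>
          obtain ⟨d, rfl⟩ := hd
          exact key a b c d
        | zero => simp
        | add u v _ _ h1 h2 =>
          simp only [map_add] at h1 h2 ⊢
          linear_combination h1 + h2
        | smul r u _ h1 =>
          simp only [map_smul, smul_eq_mul] at h1 ⊢
          linear_combination r * h1
      | zero => simp
      | add u v _ _ h1 h2 =>
        simp only [map_add, LinearMap.add_apply] at h1 h2 ⊢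
        linear_combination h1 + h2
      | smul r u _ h1 =>
        simp only [map_smul, LinearMap.smul_apply, smul_eq_mul] at h1 ⊢
        linear_combination r * h1
    | zero => simp
    | add u v _ _ h1 h2 =>
      simp only [map_add, LinearMap.add_apply] at h1 h2 ⊢
      linear_combination h1 + h2
    | smul r u _ h1 =>
      simp only [map_smul, LinearMap.smul_apply, smul_eq_mul] at h1 ⊢
      linear_combination r * h1
  | zero => simp
  | add u v _ _ h1 h2 =>
    simp only [map_add, LinearMap.add_apply] at h1 h2 ⊢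
    linear_combination h1 + h2
  | smul r u _ h1 =>
    simp only [map_smul, LinearMap.smul_apply, smul_eq_mul] at h1 ⊢
    linear_combination r * h1


end CB

/-- block diagonal matrices -/
def BK {k : ℕ} (blk : Fin k → ℕ) : Submodule ℂ (Matrix (Fin k × Bool) (Fin k × Bool) ℂ) where
  carrier := {x | ∀ i j : Fin k × Bool, blk i.1 ≠ blk j.1 → x i j = 0}
  zero_mem' := fun _ _ _ => rfl
  add_mem' := fun {x y} hx hy i j hij => by rw [Matrix.add_apply, hx i j hij, hy i j hij, add_zero]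
  smul_mem' := fun c x hx i j hij => by rw [Matrix.smul_apply, hx i j hij, smul_zero]

theorem BK_mul {k : ℕ} {blk : Fin k → ℕ} {x y : Matrix (Fin k × Bool) (Fin k × Bool) ℂ}
    (hx : x ∈ BK blk) (hy : y ∈ BK blk) : x * y ∈ BK blk := by
  intro i j hij
  rw [Matrix.mul_apply]
  refine Finset.sum_eq_zero fun q _ => ?_
  by_cases h1 : blk i.1 = blk q.1
  · rw [hy q j (h1 ▸ hij), mul_zero]
  · rw [hx i q h1, zero_mul]

/-- the span of a block -/
def BSp {k : ℕ} (e : Fin k × Bool → U) (blk : Fin k → ℕ) (i : Fin k) : Submodule ℂ U :=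
  Submodule.span ℂ (e '' {p | blk p.1 = blk i})

/-- A basis of weight vectors adapted to the form and to a decomposition in irreducible
subspaces. -/
structure GB (S : RS L T) (N : Submodule ℂ U) (B : U →ₗ[ℂ] U →ₗ[ℂ] ℂ) (k : ℕ)
    (blk : Fin k → ℕ) (e : Fin k × Bool → U) (w : Fin k × Bool → Module.Dual ℂ T) : Prop where
  cb : CB N B (-1) k e
  wt : ∀ p, e p ∈ usp S.ι (w p)
  wbar : ∀ p, w (bar p) = -w p
  ne : ∀ p, w p ≠ 0
  inj : ∀ p q : Fin k × Bool, blk p.1 = blk q.1 → w p = w q → p = q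
  irr : ∀ i, IrrSub L (BSp e blk i)

theorem neg1 : (-1 : ℂ) * -1 = 1 := by norm_num

theorem SB.toGB {S : RS L T} {N : Submodule ℂ U} {B : U →ₗ[ℂ] U →ₗ[ℂ] ℂ} {k : ℕ}
    {e : Fin k × Bool → U} {w : Fin k × Bool → Module.Dual ℂ T} (h : SB S N B (-1) k e w)
    (hN : IrrSub L N) (c : ℕ) : GB S N B k (fun _ => c) e w where
  cb := ⟨h.mem, h.span, h.form⟩
  wt := h.wt
  wbar := h.wbar
  ne := h.ne
  inj := fun p q _ hpq => h.inj p q hpq
  irr := fun i => by
    have h1 : BSp e (fun _ => c) i = N := by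
      unfold BSp
      have h2 : {p : Fin k × Bool | (fun _ : Fin k => c) p.1 = (fun _ : Fin k => c) i} =
          Set.univ := by
        ext p
        simp
      rw [h2, Set.image_univ]
      refine le_antisymm ?_ h.span
      rw [Submodule.span_le]
      rintro _ ⟨p, rfl⟩
      exact h.mem p
    rw [h1]
    exact hN

namespace GB

variable {S : RS L T} {N : Submodule ℂ U} {B : U →ₗ[ℂ] U →ₗ[ℂ] ℂ} {k : ℕ}
  {blk : Fin k → ℕ} {e : Fin k × Bool → U} {w : Fin k × Bool → Module.Dual ℂ T}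
  (h : GB S N B k blk e w)
include h

theorem mem (p : Fin k × Bool) : e p ∈ N := h.cb.mem p

theorem memBSp (p : Fin k × Bool) : e p ∈ BSp e blk p.1 :=
  Submodule.subset_span ⟨p, rfl, rfl⟩

theorem orth {i : Fin k} {u : U} (hu : u ∈ BSp e blk i) {q : Fin k × Bool}
    (hq : blk q.1 ≠ blk i) : B u (e q) = 0 := by
  unfold BSp at hu
  induction hu using Submodule.span_induction with
  | mem u hu =>
    obtain ⟨p, hp, rfl⟩ := hu
    rw [h.cb.form, if_neg]
    rintro rfl
    exact hq hp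
  | zero => rw [map_zero, LinearMap.zero_apply]
  | add u v _ _ hu hv => rw [map_add, LinearMap.add_apply, hu, hv, add_zero]
  | smul c u _ hu => rw [map_smul, LinearMap.smul_apply, hu, smul_zero]

theorem wt_zero' {ψ : Q4 U} (hψ : ∀ x ∈ L, Kill4 N ψ x) {a b c d : Fin k × Bool}
    (hne : Fψ ψ e a b c d ≠ 0) : w a + w b + w c + w d = 0 := by
  ext t
  have h1 := hψ _ (S.ιmem t) _ (h.mem a) _ (h.mem b) _ (h.mem c) _ (h.mem d)
  rw [h.wt a t, h.wt b t, h.wt c t, h.wt d t] at h1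
  simp only [map_smul, LinearMap.smul_apply, smul_eq_mul] at h1
  have h2 : (w a t + w b t + w c t + w d t) * Fψ ψ e a b c d = 0 := by
    unfold Fψ
    linear_combination h1
  exact (mul_eq_zero.1 h2).resolve_right hne

/-- the matrices of `L` are block diagonal -/
theorem MX_BK {x : Module.End ℂ U} (hx : ∀ i, ∀ u ∈ BSp e blk i, x u ∈ BSp e blk i) :
    MX B (-1) e x ∈ BK blk := by
  intro i j hij
  rw [MX_apply, h.orth (hx j.1 _ (h.memBSp j)) (q := bar i) hij, mul_zero]

/-- The algebra of block matrices which annihilate the form. -/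
def _root_.Pool.Agent.R912.MM (ψ : Q4 U) (e : Fin k × Bool → U) (blk : Fin k → ℕ) :
    Submodule ℂ (Matrix (Fin k × Bool) (Fin k × Bool) ℂ) :=
  KF (Fψ ψ e) ⊓ Sk (-1) k ⊓ BK blk

theorem MX_mem {ψ : Q4 U} {x : Module.End ℂ U} (hx : ∀ i, ∀ u ∈ BSp e blk i, x u ∈ BSp e blk i)
    (hxN : ∀ u ∈ N, x u ∈ N) (hs : ∀ u ∈ N, ∀ v ∈ N, B (x u) v + B u (x v) = 0)
    (hsym : ∀ u ∈ N, ∀ v ∈ N, B u v = -1 * B v u) (hψ : Kill4 N ψ x) :
    MX B (-1) e x ∈ MM ψ e blk :=
  ⟨⟨h.cb.MX_KF neg1 hxN hψ, h.cb.MX_Sk neg1 hxN hs hsym⟩, h.MX_BK hx⟩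

theorem irrOn {ψ : Q4 U} (hNL : ∀ x ∈ L, ∀ u ∈ N, x u ∈ N) (F : Frm L N B (-1))
    (hψ : ∀ x ∈ L, Kill4 N ψ x) (i0 : Fin k) :
    IrrOn (MM ψ e blk) {p | blk p.1 = blk i0} := by
  have hε := neg1
  refine ⟨?_, fun x hx i hi j hj => hx.2 i j (fun h1 => hi (h1.trans hj)), ?_⟩
  · rintro x ⟨⟨hx1, hx2⟩, hx3⟩ y ⟨⟨hy1, hy2⟩, hy3⟩
    exact ⟨⟨KF_br hx1 hy1, Sk_br hε hx2 hy2⟩, Submodule.sub_mem _ (BK_mul hx3 hy3) (BK_mul hy3 hx3)⟩
  · intro P hPW hP hP0 v hv
    have hM : ∀ x ∈ L, MX B (-1) e x ∈ MM ψ e blk := fun x hx =>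
      h.MX_mem (fun i => (h.irr i).stab x hx) (hNL x hx) (F.skew x hx) F.sym (hψ x hx)
    let Θ : (Fin k × Bool → ℂ) →ₗ[ℂ] U := Fintype.linearCombination ℂ e
    have hΘ : ∀ v, Θ v = ∑ i, v i • e i := fun v => Fintype.linearCombination_apply ℂ e v
    have hli := h.cb.li hε
    have hinj : ∀ v, Θ v = 0 → v = 0 := by
      intro v hv
      rw [hΘ] at hv
      funext i
      exact Fintype.linearIndependent_iff.1 hli v hv i
    have hWS : ∀ v ∈ WS {p : Fin k × Bool | blk p.1 = blk i0}, Θ v ∈ BSp e blk i0 := by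
      intro v hv
      rw [hΘ]
      refine Submodule.sum_mem _ fun i _ => ?_
      by_cases hi : blk i.1 = blk i0
      · exact Submodule.smul_mem _ _ (Submodule.subset_span ⟨i, hi, rfl⟩)
      · rw [hv i hi, zero_smul]
        exact Submodule.zero_mem _
    have hPN : P.map Θ ≤ BSp e blk i0 := by
      rintro _ ⟨v, hv, rfl⟩
      exact hWS v (hPW hv)
    have hst : ∀ x ∈ L, ∀ u ∈ P.map Θ, x u ∈ P.map Θ := by
      rintro x hx _ ⟨v, hv, rfl⟩
      refine ⟨MX B (-1) e x *ᵥ v, hP _ (hM x hx) v hv, ?_⟩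
      rw [hΘ, hΘ, map_sum]
      have h1 : ∀ i, (MX B (-1) e x *ᵥ v) i • e i = ∑ j, (MX B (-1) e x i j * v j) • e i := by
        intro i
        rw [Matrix.mulVec, dotProduct, Finset.sum_smul]
      rw [Finset.sum_congr rfl fun i _ => h1 i, Finset.sum_comm]
      refine Finset.sum_congr rfl fun j _ => ?_
      rw [map_smul, h.cb.ap hε (hNL x hx) j, Finset.smul_sum]
      refine Finset.sum_congr rfl fun i _ => ?_
      rw [smul_smul, mul_comm]
    have hne : P.map Θ ≠ ⊥ := by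
      obtain ⟨u, hu, hu0⟩ := (Submodule.ne_bot_iff P).1 hP0
      intro hb
      have h1 : Θ u ∈ P.map Θ := ⟨u, hu, rfl⟩
      rw [hb, Submodule.mem_bot] at h1
      exact hu0 (hinj u h1)
    have heq := (h.irr i0).irr _ hPN hst hne
    have h2 : Θ v ∈ P.map Θ := by
      rw [heq]
      exact hWS v hv
    obtain ⟨v', hv', h3⟩ := h2
    have h4 : v - v' = 0 := hinj _ (by rw [map_sub, h3, sub_self])
    rw [sub_eq_zero.1 h4]
    exact hv'

omit h in
theorem dg_BK (f : Fin k → ℤ) : dg f ∈ BK blk := by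
  intro i j hij
  unfold dg
  exact Matrix.diagonal_apply_ne _ fun h1 => hij (by rw [h1])

omit h in
theorem dg_mem {ψ : Q4 U} {f : Fin k → ℤ} (hf : ∀ a b c d, Fψ ψ e a b c d ≠ 0 →
    til f a + til f b + til f c + til f d = 0) : dg f ∈ MM ψ e blk :=
  ⟨SB.dg_mem_of hf, dg_BK f⟩

end GB

theorem Alt4.altT {k : ℕ} {ψ : Q4 U} (hA : Alt4 ψ) (e : Fin k × Bool → U) : AltT (Fψ ψ e) :=
  ⟨fun a b c d => hA.s1 _ _ _ _, fun a b c d => hA.s2 _ _ _ _, fun a b c d => hA.s3 _ _ _ _⟩

theorem GB.bd {S : RS L T} {N : Submodule ℂ U} {B : U →ₗ[ℂ] U →ₗ[ℂ] ℂ}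
    {blk : Fin 4 → ℕ} {e : Fin 4 × Bool → U} {w : Fin 4 × Bool → Module.Dual ℂ T}
    (h : GB S N B 4 blk e w) {ψ : Q4 U} (hNL : ∀ x ∈ L, ∀ u ∈ N, x u ∈ N) (F : Frm L N B (-1))
    (hψ : ∀ x ∈ L, Kill4 N ψ x) (hA : Alt4 ψ) : BD blk (Fψ ψ e) (MM ψ e blk) where
  sk := fun x hx => hx.1.2
  kf := fun x hx => hx.1.1
  bk := fun x hx => hx.2
  irr := h.irrOn hNL F hψ
  dgm := fun f hf => GB.dg_mem hf
  alt := hA.altT e

end Pool.Agent.R912
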