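import Pool.Agent.H86.CMLib.R912.Q.GB

set_option autoImplicit false
set_option linter.unusedSectionVars false
set_option linter.unusedSimpArgs false
set_option linter.unusedVariables false

/-!
# Block bases: relabelling and gluing
-/

open Module Matrix

namespace Pool.Agent.R912

open Pool.Agent.Y102.SP Q

attribute [local instance 100] LieRing.ofAssociativeRing

variable {U : Type} [AddCommGroup U] [Module ℂ U] [FiniteDimensional ℂ U]
  {T : Type} [AddCommGroup T] [Module ℂ T] {L : Submodule ℂ (Module.End ℂ U)}

namespace GB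

variable {S : RS L T} {N : Submodule ℂ U} {B : U →ₗ[ℂ] U →ₗ[ℂ] ℂ} {k : ℕ}
  {blk : Fin k → ℕ} {e : Fin k × Bool → U} {w : Fin k × Bool → Module.Dual ℂ T}
  (h : GB S N B k blk e w)
include h

/-- the new basis -/
def _root_.Pool.Agent.R912.re (a : Fin k → Fin k × Bool) (e : Fin k × Bool → U) :
    Fin k × Bool → U :=
  fun p => if p.2 then e (a p.1) else sg (-1) (a p.1) • e (bar (a p.1))

/-- the new weights -/
def _root_.Pool.Agent.R912.rw' (a : Fin k → Fin k × Bool)
    (w : Fin k × Bool → Module.Dual ℂ T) : Fin k × Bool → Module.Dual ℂ T :=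
  fun p => if p.2 then w (a p.1) else w (bar (a p.1))

theorem relabel (a : Fin k → Fin k × Bool)
    (ha : ∀ i j, (a i).1 = (a j).1 → i = j) :
    GB S N B k (fun i => blk (a i).1) (re a e) (rw' a w) := by
  classical
  have hε := neg1
  have hb : ∀ i j, bar (a i) = a j → False := by
    intro i j hij
    have h1 : i = j := ha _ _ (show (bar (a i)).1 = (a j).1 by rw [hij])
    subst h1
    have h2 := congrArg Prod.snd hij
    simp [bar] at h2
  have hbij : Function.Bijective fun i => (a i).1 :=
    Finite.injective_iff_bijective.1 fun i j hij => ha i j hij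
  have hre1 : ∀ i, re a e (i, true) = e (a i) := fun i => rfl
  have hre2 : ∀ i, re a e (i, false) = sg (-1) (a i) • e (bar (a i)) := fun i => rfl
  have hle : ∀ p i, (a i).1 = p.1 → e p ∈ Submodule.span ℂ {re a e (i, true), re a e (i, false)} := by
    intro p i hi
    by_cases hp : p = a i
    · rw [hp]
      exact Submodule.subset_span (Or.inl rfl)
    · have hp' : p = bar (a i) := by
        by_contra hcon
        exact fst_ne hp hcon hi.symm
      have h1 : e p = sg (-1) (a i) • re a e (i, false) := by
        rw [hre2, smul_smul, sg_sq hε, one_smul, hp']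
      rw [h1]
      exact Submodule.smul_mem _ _ (Submodule.subset_span (Or.inr rfl))
  refine ⟨⟨?_, ?_, ?_⟩, ?_, ?_, ?_, ?_, ?_⟩
  · rintro ⟨i, _ | _⟩
    · exact N.smul_mem _ (h.mem _)
    · exact h.mem _
  · refine h.cb.span.trans ?_
    rw [Submodule.span_le]
    rintro _ ⟨p, rfl⟩
    obtain ⟨i, hi⟩ := hbij.2 p.1
    refine Submodule.span_mono ?_ (hle p i hi)
    rintro _ (rfl | rfl)
    · exact ⟨_, rfl⟩
    · exact ⟨_, rfl⟩
  · have hne : ∀ i j, i ≠ j → bar (a i) ≠ bar (a j) := by
      intro i j hij e1
      exact hij (ha _ _ (congrArg Prod.fst e1 : (bar (a i)).1 = (bar (a j)).1))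
    rintro ⟨i, _ | _⟩ ⟨j, _ | _⟩
    · have h1 : ((j, false) : Fin k × Bool) ≠ bar (i, false) := by simp [bar]
      rw [if_neg h1, hre2, hre2]
      rw [map_smul, map_smul, LinearMap.smul_apply, h.cb.form, if_neg, smul_zero, smul_zero]
      rw [bar_bar]
      exact fun h2 => hb _ _ h2
    · rw [hre1, hre2]
      rw [map_smul, LinearMap.smul_apply, h.cb.form, bar_bar]
      by_cases hij : j = i
      · subst hij
        have h0 : ((j, true) : Fin k × Bool) = bar (j, false) := rfl
        rw [if_pos rfl, ← h0, if_pos rfl, sg_bar hε, smul_eq_mul]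
        have h1 : sg (-1) ((j, false) : Fin k × Bool) = -1 := rfl
        rw [h1]
        linear_combination (-1 : ℂ) * sg_sq hε (a j)
      · have h1 : ((j, true) : Fin k × Bool) ≠ bar (i, false) := by
          simp [bar, hij]
        rw [if_neg h1, if_neg, smul_zero]
        intro h2
        exact hij (ha _ _ (congrArg Prod.fst h2))
    · rw [hre1, hre2]
      rw [map_smul, h.cb.form]
      by_cases hij : j = i
      · subst hij
        have h0 : ((j, false) : Fin k × Bool) = bar (j, true) := rfl
        rw [if_pos rfl, ← h0, if_pos rfl, smul_eq_mul]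
        exact sg_sq hε (a j)
      · have h1 : ((j, false) : Fin k × Bool) ≠ bar (i, true) := by
          simp [bar, hij]
        rw [if_neg h1, if_neg, smul_zero]
        exact hne _ _ hij
    · have h1 : ((j, true) : Fin k × Bool) ≠ bar (i, true) := by simp [bar]
      rw [if_neg h1, hre1, hre1]
      rw [h.cb.form, if_neg]
      exact fun h2 => hb _ _ h2.symm
  · rintro ⟨i, _ | _⟩
    · exact Submodule.smul_mem _ _ (h.wt _)
    · exact h.wt _
  · rintro ⟨i, _ | _⟩
    · change w (a i) = -w (bar (a i))
      rw [h.wbar, neg_neg]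
    · change w (bar (a i)) = -w (a i)
      rw [h.wbar]
  · rintro ⟨i, _ | _⟩
    · exact h.ne _
    · exact h.ne _
  · rintro ⟨i, _ | _⟩ ⟨j, _ | _⟩ hbl hij
    · have h1 := h.inj (bar (a i)) (bar (a j)) hbl hij
      rw [ha i j (congrArg Prod.fst h1 : (bar (a i)).1 = (bar (a j)).1)]
    · exact absurd (h.inj (bar (a i)) (a j) hbl hij) fun h2 => hb _ _ h2
    · exact absurd (h.inj (a i) (bar (a j)) hbl hij) fun h2 => hb _ _ h2.symm
    · have h1 := h.inj (a i) (a j) hbl hij
      rw [ha i j (congrArg Prod.fst h1 : (a i).1 = (a j).1)]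
  · intro i
    have h1 : BSp (re a e) (fun i => blk (a i).1) i = BSp e blk (a i).1 := by
      unfold BSp
      apply le_antisymm
      · rw [Submodule.span_le]
        rintro _ ⟨⟨j, _ | _⟩, hj, rfl⟩
        · exact Submodule.smul_mem _ _ (Submodule.subset_span ⟨bar (a j), hj, rfl⟩)
        · exact Submodule.subset_span ⟨a j, hj, rfl⟩
      · rw [Submodule.span_le]
        rintro _ ⟨p, hp, rfl⟩
        obtain ⟨j, hj⟩ := hbij.2 p.1
        have hj' : (a j).1 = p.1 := hj
        have hbl : blk (a j).1 = blk (a i).1 := by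
          rw [hj']
          exact hp
        refine Submodule.span_mono ?_ (hle p j hj)
        rintro _ (rfl | rfl)
        · exact ⟨(j, true), hbl, rfl⟩
        · exact ⟨(j, false), hbl, rfl⟩
    rw [h1]
    exact h.irr _

end GB

section Glue

variable {S : RS L T} {N N' : Submodule ℂ U} {B : U →ₗ[ℂ] U →ₗ[ℂ] ℂ} {k k' : ℕ}
  {blk : Fin k → ℕ} {e : Fin k × Bool → U} {w : Fin k × Bool → Module.Dual ℂ T}
  {blk' : Fin k' → ℕ} {e' : Fin k' × Bool → U} {w' : Fin k' × Bool → Module.Dual ℂ T}

/-- concatenation -/
def ap {X : Type} (e : Fin k × Bool → X) (e' : Fin k' × Bool → X) : Fin (k + k') × Bool → X :=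
  fun p => Fin.append (fun i => e (i, p.2)) (fun i => e' (i, p.2)) p.1

theorem ap_left {X : Type} (e : Fin k × Bool → X) (e' : Fin k' × Bool → X) (i : Fin k)
    (b : Bool) : ap e e' (Fin.castAdd k' i, b) = e (i, b) := by
  unfold ap
  rw [Fin.append_left]

theorem ap_right {X : Type} (e : Fin k × Bool → X) (e' : Fin k' × Bool → X) (i : Fin k')
    (b : Bool) : ap e e' (Fin.natAdd k i, b) = e' (i, b) := by
  unfold ap
  rw [Fin.append_right]

theorem ap_cases {p : Fin (k + k') × Bool → Prop} (h1 : ∀ i b, p (Fin.castAdd k' i, b))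
    (h2 : ∀ i b, p (Fin.natAdd k i, b)) : ∀ q, p q := by
  rintro ⟨i, b⟩
  refine Fin.addCases (fun i => ?_) (fun i => ?_) i
  · exact h1 i b
  · exact h2 i b

theorem GB.glue (h : GB S N B k blk e w) (h' : GB S N' B k' blk' e' w')
    (ho : ∀ u ∈ N, ∀ v ∈ N', B u v = 0) (ho' : ∀ u ∈ N, ∀ v ∈ N', B v u = 0)
    (hbl : ∀ i j, blk i ≠ blk' j) :
    GB S (N ⊔ N') B (k + k') (Fin.append blk blk') (ap e e') (ap w w') := by
  have hcn : ∀ (i : Fin k) (j : Fin k'), Fin.castAdd k' i ≠ Fin.natAdd k j := by
    intro i j hij
    have := congrArg Fin.val hij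
    simp at this
    omega
  refine ⟨⟨?_, ?_, ?_⟩, ?_, ?_, ?_, ?_, ?_⟩
  · refine ap_cases (fun i b => ?_) (fun i b => ?_)
    · rw [ap_left]; exact Submodule.mem_sup_left (h.mem _)
    · rw [ap_right]; exact Submodule.mem_sup_right (h'.mem _)
  · refine sup_le (h.cb.span.trans ?_) (h'.cb.span.trans ?_)
    · rw [Submodule.span_le]
      rintro _ ⟨⟨i, b⟩, rfl⟩
      exact Submodule.subset_span ⟨(Fin.castAdd k' i, b), ap_left _ _ _ _⟩
    · rw [Submodule.span_le]
      rintro _ ⟨⟨i, b⟩, rfl⟩
      exact Submodule.subset_span ⟨(Fin.natAdd k i, b), ap_right _ _ _ _⟩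
  · refine ap_cases (fun i b => ?_) (fun i b => ?_)
    · refine ap_cases (fun j c => ?_) (fun j c => ?_)
      · rw [ap_left, ap_left, h.cb.form]
        unfold bar sg
        simp only [Prod.mk.injEq, (Fin.castAdd_injective k k').eq_iff]
      · rw [ap_left, ap_right, ho _ (h.mem _) _ (h'.mem _), if_neg]
        intro h1
        exact hcn i j (congrArg Prod.fst h1).symm
    · refine ap_cases (fun j c => ?_) (fun j c => ?_)
      · rw [ap_left, ap_right, ho' _ (h.mem _) _ (h'.mem _), if_neg]
        intro h1
        exact hcn j i (congrArg Prod.fst h1)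
      · rw [ap_right, ap_right, h'.cb.form]
        unfold bar sg
        simp only [Prod.mk.injEq, (Fin.natAdd_injective k' k).eq_iff]
  · refine ap_cases (fun i b => ?_) (fun i b => ?_)
    · rw [ap_left, ap_left]; exact h.wt _
    · rw [ap_right, ap_right]; exact h'.wt _
  · refine ap_cases (fun i b => ?_) (fun i b => ?_)
    · unfold bar
      rw [ap_left, ap_left]; exact h.wbar (i, b)
    · unfold bar
      rw [ap_right, ap_right]; exact h'.wbar (i, b)
  · refine ap_cases (fun i b => ?_) (fun i b => ?_)
    · rw [ap_left]; exact h.ne _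
    · rw [ap_right]; exact h'.ne _
  · refine ap_cases (fun i b => ?_) (fun i b => ?_)
    · refine ap_cases (fun j c => ?_) (fun j c => ?_)
      · rw [ap_left, ap_left]
        simp only [Fin.append_left]
        intro h1 h2
        have h3 := h.inj (i, b) (j, c) h1 h2
        rw [Prod.mk.injEq] at h3
        rw [h3.1, h3.2]
      · simp only [Fin.append_left, Fin.append_right]
        intro h1
        exact absurd h1 (hbl i j)
    · refine ap_cases (fun j c => ?_) (fun j c => ?_)
      · simp only [Fin.append_left, Fin.append_right]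
        intro h1
        exact absurd h1.symm (hbl j i)
      · rw [ap_right, ap_right]
        simp only [Fin.append_right]
        intro h1 h2
        have h3 := h'.inj (i, b) (j, c) h1 h2
        rw [Prod.mk.injEq] at h3
        rw [h3.1, h3.2]
  · intro i
    refine Fin.addCases (fun i => ?_) (fun i => ?_) i
    · have h1 : BSp (ap e e') (Fin.append blk blk') (Fin.castAdd k' i) = BSp e blk i := by
        unfold BSp
        congr 1
        ext u
        constructor
        · rintro ⟨q, hq, rfl⟩
          revert hq
          refine ap_cases (p := fun q => q ∈ {p : Fin (k + k') × Bool | Fin.append blk blk' p.1 =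
            Fin.append blk blk' (Fin.castAdd k' i)} → ap e e' q ∈ e '' {p | blk p.1 = blk i})
            (fun j c => ?_) (fun j c => ?_) q
          · simp only [Set.mem_ofPred_eq, Fin.append_left]
            intro h1
            rw [ap_left]
            exact ⟨(j, c), h1, rfl⟩
          · simp only [Set.mem_ofPred_eq, Fin.append_left, Fin.append_right]
            intro h1
            exact absurd h1.symm (hbl i j)
        · rintro ⟨⟨j, c⟩, hj, rfl⟩
          refine ⟨(Fin.castAdd k' j, c), ?_, ap_left _ _ _ _⟩
          simp only [Set.mem_ofPred_eq, Fin.append_left]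
          exact hj
      rw [h1]
      exact h.irr i
    · have h1 : BSp (ap e e') (Fin.append blk blk') (Fin.natAdd k i) = BSp e' blk' i := by
        unfold BSp
        congr 1
        ext u
        constructor
        · rintro ⟨q, hq, rfl⟩
          revert hq
          refine ap_cases (p := fun q => q ∈ {p : Fin (k + k') × Bool | Fin.append blk blk' p.1 =
            Fin.append blk blk' (Fin.natAdd k i)} → ap e e' q ∈ e' '' {p | blk' p.1 = blk' i})
            (fun j c => ?_) (fun j c => ?_) q
          · simp only [Set.mem_ofPred_eq, Fin.append_left, Fin.append_right]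
            intro h1
            exact absurd h1 (hbl j i)
          · simp only [Set.mem_ofPred_eq, Fin.append_right]
            intro h1
            rw [ap_right]
            exact ⟨(j, c), h1, rfl⟩
        · rintro ⟨⟨j, c⟩, hj, rfl⟩
          refine ⟨(Fin.natAdd k j, c), ?_, ap_right _ _ _ _⟩
          simp only [Set.mem_ofPred_eq, Fin.append_right]
          exact hj
      rw [h1]
      exact h'.irr i

end Glue

end Pool.Agent.R912
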