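import Pool.Agent.H86.CMLib.R912.Q.Reg22

set_option autoImplicit false
set_option linter.unusedSectionVars false
set_option linter.unusedSimpArgs false
set_option linter.unusedVariables false
set_option linter.unreachableTactic false

/-!
# The support of an invariant form: an irreducible subspace of dimension four (end)
-/

open Module Matrix

namespace Pool.Agent.R912

open Pool.Agent.Y102.SP Q

attribute [local instance 100] LieRing.ofAssociativeRing

variable {U : Type} [AddCommGroup U] [Module ℂ U] [FiniteDimensional ℂ U]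
  {T : Type} [AddCommGroup T] [Module ℂ T] {L : Submodule ℂ (Module.End ℂ U)}

/-- distinct labels -/
def DistF (a b c d : Fin 4 × Bool) : Prop :=
  a.1 ≠ b.1 ∧ a.1 ≠ c.1 ∧ a.1 ≠ d.1 ∧ b.1 ≠ c.1 ∧ b.1 ≠ d.1 ∧ c.1 ≠ d.1

instance (a b c d : Fin 4 × Bool) : Decidable (DistF a b c d) := by
  unfold DistF; infer_instance

namespace GH

variable {S : RS L T} {B : U →ₗ[ℂ] U →ₗ[ℂ] ℂ} {blk : Fin 4 → ℕ} {e : Fin 4 × Bool → U}
  {w : Fin 4 × Bool → Module.Dual ℂ T} {φ : Module.Dual ℂ T →ₗ[ℚ] ℚ} {ψ : Q4 U}
  (H : GH S B blk e w φ ψ)
include H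

theorem dgmem2 {f : Fin 4 → ℤ}
    (K : ∀ n0 n1 n2 n3 : ℤ, (n0 = -1 ∨ n0 = 0 ∨ n0 = 1) → (n1 = -1 ∨ n1 = 0 ∨ n1 = 1) →
      (n2 = -1 ∨ n2 = 0 ∨ n2 = 1) → (n3 = -1 ∨ n3 = 0 ∨ n3 = 1) →
      (n0 = 0 ↔ n1 = 0) → (n2 = 0 ↔ n3 = 0) →
      (n0 : ℚ) * φ (w (0, true)) + (n1 : ℚ) * φ (w (1, true)) + (n2 : ℚ) * φ (w (2, true)) +
        (n3 : ℚ) * φ (w (3, true)) = 0 →
      n0 * f 0 + n1 * f 1 + n2 * f 2 + n3 * f 3 = 0) : dg f ∈ MM ψ e blk := by
  refine GB.dg_mem fun a b c d hne => ?_
  rw [til_NN, Fin.sum_univ_four]
  obtain ⟨h0, h1, h2, h3, h4⟩ := NN_cases a b c d ((H.alt.altT e).dist hne)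
  obtain ⟨k1, k2⟩ := H.par hne
  exact K _ _ _ _ h0 h1 h2 h3 k1 k2 (H.gb.rel H.kill hne)

theorem bd : BD blk (Fψ ψ e) (MM ψ e blk) :=
  H.gb.bd (fun _ _ _ _ => trivial) H.frm H.kill H.alt

theorem facts : φ (w (0, true)) ≠ 0 ∧ φ (w (1, true)) ≠ 0 ∧ φ (w (2, true)) ≠ 0 ∧
    φ (w (3, true)) ≠ 0 ∧ φ (w (0, true)) - φ (w (1, true)) ≠ 0 ∧
    φ (w (0, true)) + φ (w (1, true)) ≠ 0 :=
  ⟨H.gen.zero _, H.gen.zero _, H.gen.zero _, H.gen.zero _,
    H.gb.ne1 H.gen (i := 0) (j := 1) (by decide) H.b1.symm,
    H.gb.ne2 H.gen (i := 0) (j := 1) (by decide) H.b1.symm⟩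

theorem rel0 (hne : Fψ ψ e (0, false) (1, false) (2, false) (3, false) ≠ 0) :
    φ (w (0, true)) + φ (w (1, true)) + φ (w (2, true)) + φ (w (3, true)) = 0 := by
  have h1 := H.gb.rel (φ := φ) H.kill hne
  have n0 : NN 0 ((0 : Fin 4), false) (1, false) (2, false) (3, false) = -1 := by decide
  have n1 : NN 1 ((0 : Fin 4), false) (1, false) (2, false) (3, false) = -1 := by decide
  have n2 : NN 2 ((0 : Fin 4), false) (1, false) (2, false) (3, false) = -1 := by decide
  have n3 : NN 3 ((0 : Fin 4), false) (1, false) (2, false) (3, false) = -1 := by decide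
  rw [n0, n1, n2, n3] at h1
  push_cast at h1
  linarith

end GH

/-- two irreducible subspaces of dimension four -/
theorem GH.a22 {S : RS L T} {B : U →ₗ[ℂ] U →ₗ[ℂ] ℂ} {e : Fin 4 × Bool → U}
    {w : Fin 4 × Bool → Module.Dual ℂ T} {φ : Module.Dual ℂ T →ₗ[ℚ] ℚ} {ψ : Q4 U}
    (H : GH S B b22 e w φ ψ)
    (NE1 : ¬ (φ (w (0, true)) ^ 2 = φ (w (2, true)) ^ 2 ∧
      φ (w (1, true)) ^ 2 = φ (w (3, true)) ^ 2))
    (NE2 : ¬ (φ (w (0, true)) ^ 2 = φ (w (3, true)) ^ 2 ∧
      φ (w (1, true)) ^ 2 = φ (w (2, true)) ^ 2)) :
    Fψ ψ e (0, false) (1, false) (2, false) (3, false) = 0 := by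
  by_contra hne
  have hR := H.rel0 hne
  obtain ⟨q0, q1, q2, q3, q01, r01⟩ := H.facts
  have q23 := H.gb.ne1 H.gen (i := 2) (j := 3) (by decide) (by decide)
  have r23 := H.gb.ne2 H.gen (i := 2) (j := 3) (by decide) (by decide)
  have NE1' : φ (w (0, true)) + φ (w (2, true)) ≠ 0 := by
    intro h1
    apply NE1
    constructor
    · rw [eq_neg_of_add_eq_zero_left h1]; ring
    · have h2 : φ (w (1, true)) = -φ (w (3, true)) := by linarith
      rw [h2]; ring
  have NE2' : φ (w (0, true)) + φ (w (3, true)) ≠ 0 := by
    intro h1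
    apply NE2
    constructor
    · rw [eq_neg_of_add_eq_zero_left h1]; ring
    · have h2 : φ (w (1, true)) = -φ (w (2, true)) := by linarith
      rw [h2]; ring
  clear NE1 NE2
  have m1 : dg ![100, 10, 1, -111] ∈ MM ψ e b22 := by
    refine H.dgmem2 ?_
    clear hne
    generalize φ (w (0, true)) = x0 at *
    generalize φ (w (1, true)) = x1 at *
    generalize φ (w (2, true)) = x2 at *
    generalize φ (w (3, true)) = x3 at *
    intro n0 n1 n2 n3 c0 c1 c2 c3 p1 p2 hrel
    change n0 * 100 + n1 * 10 + n2 * 1 + n3 * -111 = 0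
    rcases c0 with rfl | rfl | rfl <;> rcases c1 with rfl | rfl | rfl <;>
      rcases c2 with rfl | rfl | rfl <;> rcases c3 with rfl | rfl | rfl <;>
      first
      | (norm_num; done)
      | (exfalso; revert p1; decide)
      | (exfalso; revert p2; decide)
      | (exfalso; push_cast at hrel; first
          | exact q0 (by linarith)
          | exact q1 (by linarith)
          | exact q2 (by linarith)
          | exact q3 (by linarith)
          | exact q01 (by linarith)
          | exact r01 (by linarith)
          | exact q23 (by linarith)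
          | exact r23 (by linarith)
          | exact NE1' (by linarith)
          | exact NE2' (by linarith))
  have m2 : dg ![100, -10, 1, -91] ∈ MM ψ e b22 := by
    refine H.dgmem2 ?_
    clear hne m1
    generalize φ (w (0, true)) = x0 at *
    generalize φ (w (1, true)) = x1 at *
    generalize φ (w (2, true)) = x2 at *
    generalize φ (w (3, true)) = x3 at *
    intro n0 n1 n2 n3 c0 c1 c2 c3 p1 p2 hrel
    change n0 * 100 + n1 * -10 + n2 * 1 + n3 * -91 = 0
    rcases c0 with rfl | rfl | rfl <;> rcases c1 with rfl | rfl | rfl <;>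
      rcases c2 with rfl | rfl | rfl <;> rcases c3 with rfl | rfl | rfl <;>
      first
      | (norm_num; done)
      | (exfalso; revert p1; decide)
      | (exfalso; revert p2; decide)
      | (exfalso; push_cast at hrel; first
          | exact q0 (by linarith)
          | exact q1 (by linarith)
          | exact q2 (by linarith)
          | exact q3 (by linarith)
          | exact q01 (by linarith)
          | exact r01 (by linarith)
          | exact q23 (by linarith)
          | exact r23 (by linarith)
          | exact NE1' (by linarith)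
          | exact NE2' (by linarith))
  have hlow := H.bd.low m1 m2 H.b1 (by decide) (by decide) (by decide) (by decide) (by decide)
    (by decide)
  exact hne (H.bd.kill_single hlow (by decide) (by decide) (by decide))

/-- an irreducible subspace of dimension four and two of dimension two -/
theorem GH.a211 {S : RS L T} {B : U →ₗ[ℂ] U →ₗ[ℂ] ℂ} {e : Fin 4 × Bool → U}
    {w : Fin 4 × Bool → Module.Dual ℂ T} {φ : Module.Dual ℂ T →ₗ[ℚ] ℚ} {ψ : Q4 U}
    (H : GH S B b211 e w φ ψ) :
    Fψ ψ e (0, false) (1, false) (2, false) (3, false) = 0 := by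
  by_contra hne
  have hR := H.rel0 hne
  obtain ⟨q0, q1, q2, q3, q01, r01⟩ := H.facts
  have D1 : φ (w (2, true)) + φ (w (3, true)) ≠ 0 := by
    intro h1
    exact r01 (by linarith)
  have fin : ∀ h1 h2 : Fin 4 → ℤ, dg h1 ∈ MM ψ e b211 → dg h2 ∈ MM ψ e b211 →
      (til h1 (1, true) < til h1 (0, true) ∧
      (∀ j : Fin 4 × Bool, b211 j.1 = b211 0 → j ≠ (0, true) → j ≠ (1, true) →
        til h1 j < til h1 (1, true)) ∧
      (∀ i j : Fin 4 × Bool, b211 i.1 = b211 j.1 →
        til h1 i - til h1 j = til h1 (1, true) - til h1 (0, true) →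
        (i = (1, true) ∧ j = (0, true)) ∨ (i = (0, false) ∧ j = (1, false))) ∧
      til h2 (1, false) < til h2 (0, true) ∧
      (∀ j : Fin 4 × Bool, b211 j.1 = b211 0 → j ≠ (0, true) → j ≠ (1, false) →
        til h2 j < til h2 (1, false)) ∧
      (∀ i j : Fin 4 × Bool, b211 i.1 = b211 0 → b211 j.1 = b211 0 →
        til h2 i - til h2 j = til h2 (1, false) - til h2 (0, true) →
        (i = (1, false) ∧ j = (0, true)) ∨ (i = (0, false) ∧ j = (1, true)))) → False := by
    rintro h1 h2 m1 m2 ⟨k1, k2, k3, k4, k5, k6⟩
    have hlow := H.bd.low m1 m2 H.b1 k1 k2 k3 k4 k5 k6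
    exact hne (H.bd.kill_single hlow (by decide) (by decide) (by decide))
  by_cases D2 : φ (w (2, true)) = φ (w (3, true))
  · have m1 : dg ![100, 10, -55, -55] ∈ MM ψ e b211 := by
      refine H.dgmem2 ?_
      clear hne fin
      generalize φ (w (0, true)) = x0 at *
      generalize φ (w (1, true)) = x1 at *
      generalize φ (w (2, true)) = x2 at *
      generalize φ (w (3, true)) = x3 at *
      intro n0 n1 n2 n3 c0 c1 c2 c3 p1 p2 hrel
      change n0 * 100 + n1 * 10 + n2 * -55 + n3 * -55 = 0
      rcases c0 with rfl | rfl | rfl <;> rcases c1 with rfl | rfl | rfl <;>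
        rcases c2 with rfl | rfl | rfl <;> rcases c3 with rfl | rfl | rfl <;>
        first
        | (norm_num; done)
        | (exfalso; revert p1; decide)
        | (exfalso; revert p2; decide)
        | (exfalso; push_cast at hrel; first
            | exact q0 (by linarith)
            | exact q1 (by linarith)
            | exact q2 (by linarith)
            | exact q3 (by linarith)
            | exact q01 (by linarith)
            | exact r01 (by linarith)
            | exact D1 (by linarith))
    have m2 : dg ![100, -10, -45, -45] ∈ MM ψ e b211 := by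
      refine H.dgmem2 ?_
      clear hne fin m1
      generalize φ (w (0, true)) = x0 at *
      generalize φ (w (1, true)) = x1 at *
      generalize φ (w (2, true)) = x2 at *
      generalize φ (w (3, true)) = x3 at *
      intro n0 n1 n2 n3 c0 c1 c2 c3 p1 p2 hrel
      change n0 * 100 + n1 * -10 + n2 * -45 + n3 * -45 = 0
      rcases c0 with rfl | rfl | rfl <;> rcases c1 with rfl | rfl | rfl <;>
        rcases c2 with rfl | rfl | rfl <;> rcases c3 with rfl | rfl | rfl <;>
        first
        | (norm_num; done)
        | (exfalso; revert p1; decide)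
        | (exfalso; revert p2; decide)
        | (exfalso; push_cast at hrel; first
            | exact q0 (by linarith)
            | exact q1 (by linarith)
            | exact q2 (by linarith)
            | exact q3 (by linarith)
            | exact q01 (by linarith)
            | exact r01 (by linarith)
            | exact D1 (by linarith))
    exact fin _ _ m1 m2 ⟨by decide, by decide, by decide, by decide, by decide, by decide⟩
  by_cases D3 : φ (w (0, true)) + φ (w (2, true)) = 0
  · have D4 : φ (w (0, true)) + φ (w (3, true)) ≠ 0 := by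
      intro h1
      exact D2 (by linarith)
    have m1 : dg ![100, 10, -100, -10] ∈ MM ψ e b211 := by
      refine H.dgmem2 ?_
      clear hne fin
      generalize φ (w (0, true)) = x0 at *
      generalize φ (w (1, true)) = x1 at *
      generalize φ (w (2, true)) = x2 at *
      generalize φ (w (3, true)) = x3 at *
      intro n0 n1 n2 n3 c0 c1 c2 c3 p1 p2 hrel
      change n0 * 100 + n1 * 10 + n2 * -100 + n3 * -10 = 0
      rcases c0 with rfl | rfl | rfl <;> rcases c1 with rfl | rfl | rfl <;>
        rcases c2 with rfl | rfl | rfl <;> rcases c3 with rfl | rfl | rfl <;>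
        first
        | (norm_num; done)
        | (exfalso; revert p1; decide)
        | (exfalso; revert p2; decide)
        | (exfalso; push_cast at hrel; first
            | exact q0 (by linarith)
            | exact q1 (by linarith)
            | exact q2 (by linarith)
            | exact q3 (by linarith)
            | exact q01 (by linarith)
            | exact r01 (by linarith)
            | exact D1 (by linarith)
            | exact D2 (by linarith)
            | exact D4 (by linarith))
    have m2 : dg ![100, -10, -100, 10] ∈ MM ψ e b211 := by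
      refine H.dgmem2 ?_
      clear hne fin m1
      generalize φ (w (0, true)) = x0 at *
      generalize φ (w (1, true)) = x1 at *
      generalize φ (w (2, true)) = x2 at *
      generalize φ (w (3, true)) = x3 at *
      intro n0 n1 n2 n3 c0 c1 c2 c3 p1 p2 hrel
      change n0 * 100 + n1 * -10 + n2 * -100 + n3 * 10 = 0
      rcases c0 with rfl | rfl | rfl <;> rcases c1 with rfl | rfl | rfl <;>
        rcases c2 with rfl | rfl | rfl <;> rcases c3 with rfl | rfl | rfl <;>
        first
        | (norm_num; done)
        | (exfalso; revert p1; decide)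
        | (exfalso; revert p2; decide)
        | (exfalso; push_cast at hrel; first
            | exact q0 (by linarith)
            | exact q1 (by linarith)
            | exact q2 (by linarith)
            | exact q3 (by linarith)
            | exact q01 (by linarith)
            | exact r01 (by linarith)
            | exact D1 (by linarith)
            | exact D2 (by linarith)
            | exact D4 (by linarith))
    exact fin _ _ m1 m2 ⟨by decide, by decide, by decide, by decide, by decide, by decide⟩
  · have m1 : dg ![100, 10, -10, -100] ∈ MM ψ e b211 := by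
      refine H.dgmem2 ?_
      clear hne fin
      generalize φ (w (0, true)) = x0 at *
      generalize φ (w (1, true)) = x1 at *
      generalize φ (w (2, true)) = x2 at *
      generalize φ (w (3, true)) = x3 at *
      intro n0 n1 n2 n3 c0 c1 c2 c3 p1 p2 hrel
      change n0 * 100 + n1 * 10 + n2 * -10 + n3 * -100 = 0
      rcases c0 with rfl | rfl | rfl <;> rcases c1 with rfl | rfl | rfl <;>
        rcases c2 with rfl | rfl | rfl <;> rcases c3 with rfl | rfl | rfl <;>
        first
        | (norm_num; done)
        | (exfalso; revert p1; decide)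
        | (exfalso; revert p2; decide)
        | (exfalso; push_cast at hrel; first
            | exact q0 (by linarith)
            | exact q1 (by linarith)
            | exact q2 (by linarith)
            | exact q3 (by linarith)
            | exact q01 (by linarith)
            | exact r01 (by linarith)
            | exact D1 (by linarith)
            | exact D2 (by linarith)
            | exact D3 (by linarith))
    have m2 : dg ![100, -10, 10, -100] ∈ MM ψ e b211 := by
      refine H.dgmem2 ?_
      clear hne fin m1
      generalize φ (w (0, true)) = x0 at *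
      generalize φ (w (1, true)) = x1 at *
      generalize φ (w (2, true)) = x2 at *
      generalize φ (w (3, true)) = x3 at *
      intro n0 n1 n2 n3 c0 c1 c2 c3 p1 p2 hrel
      change n0 * 100 + n1 * -10 + n2 * 10 + n3 * -100 = 0
      rcases c0 with rfl | rfl | rfl <;> rcases c1 with rfl | rfl | rfl <;>
        rcases c2 with rfl | rfl | rfl <;> rcases c3 with rfl | rfl | rfl <;>
        first
        | (norm_num; done)
        | (exfalso; revert p1; decide)
        | (exfalso; revert p2; decide)
        | (exfalso; push_cast at hrel; first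
            | exact q0 (by linarith)
            | exact q1 (by linarith)
            | exact q2 (by linarith)
            | exact q3 (by linarith)
            | exact q01 (by linarith)
            | exact r01 (by linarith)
            | exact D1 (by linarith)
            | exact D2 (by linarith)
            | exact D3 (by linarith))
    exact fin _ _ m1 m2 ⟨by decide, by decide, by decide, by decide, by decide, by decide⟩

namespace GH

variable {S : RS L T} {B : U →ₗ[ℂ] U →ₗ[ℂ] ℂ} {blk : Fin 4 → ℕ} {e : Fin 4 × Bool → U}
  {w : Fin 4 × Bool → Module.Dual ℂ T} {φ : Module.Dual ℂ T →ₗ[ℚ] ℚ} {ψ : Q4 U}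
  (H : GH S B blk e w φ ψ)
include H

/-- from the normal form to all signs -/
theorem signs (K : ∀ s : Fin 4 → Bool, Fψ ψ (re (fun i => (i, s i)) e) (0, false) (1, false)
    (2, false) (3, false) = 0) (s0 s1 s2 s3 : Bool) :
    Fψ ψ e (0, s0) (1, s1) (2, s2) (3, s3) = 0 := by
  have h1 := re_zero _ (K ![!s0, !s1, !s2, !s3])
  have h2 : Fψ ψ e (0, !!s0) (1, !!s1) (2, !!s2) (3, !!s3) = 0 := h1
  simpa using h2

omit H in
theorem four_key : ∀ a b c d : Fin 4 × Bool, Dist a b c d →
    NN 0 a b c d * NN 1 a b c d * NN 2 a b c d * NN 3 a b c d ≠ 0 → DistF a b c d := by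
  decide +kernel

/-- The support of the form. -/
theorem reg (K : ∀ s : Fin 4 → Bool, Fψ ψ (re (fun i => (i, s i)) e) (0, false) (1, false)
    (2, false) (3, false) = 0) {a b c d : Fin 4 × Bool} (hne : Fψ ψ e a b c d ≠ 0) :
    NN 0 a b c d = 0 ∧ NN 1 a b c d = 0 := by
  have A := H.alt.altT e
  have hd := A.dist hne
  obtain ⟨k1, k2⟩ := H.par hne
  suffices h0 : NN 0 a b c d = 0 from ⟨h0, k1.1 h0⟩
  by_contra h0
  have h1 : NN 1 a b c d ≠ 0 := fun h => h0 (k1.2 h)
  by_cases h2 : NN 2 a b c d = 0
  · have h3 := k2.1 h2
    have hrel := H.gb.rel (φ := φ) H.kill hne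
    obtain ⟨c0, c1, -, -, -⟩ := NN_cases a b c d hd
    obtain ⟨q0, q1, q2, q3, q01, r01⟩ := H.facts
    rw [h2, h3] at hrel
    rcases c0 with c0 | c0 | c0 <;> rcases c1 with c1 | c1 | c1 <;>
      rw [c0, c1] at hrel <;>
      first
      | exact h0 c0
      | exact h1 c1
      | (push_cast at hrel; first
          | exact q01 (by linarith)
          | exact r01 (by linarith))
  · have h3 : NN 3 a b c d ≠ 0 := fun h => h2 (k2.2 h)
    obtain ⟨d1, d2, d3, d4, d5, d6⟩ := four_key a b c d hd
      (mul_ne_zero (mul_ne_zero (mul_ne_zero h0 h1) h2) h3)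
    exact hne (perm4 A (H.signs K) d1 d2 d3 d4 d5 d6)

end GH

end Pool.Agent.R912
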