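import Pool.Agent.H86.CMLib.R912.Q.Reg31

set_option autoImplicit false
set_option linter.unusedSectionVars false
set_option linter.unusedSimpArgs false
set_option linter.unusedVariables false

/-!
# The support of an invariant form: an irreducible subspace of dimension six (end)
-/

open Module Matrix

namespace Pool.Agent.R912

open Pool.Agent.Y102.SP Q

attribute [local instance 100] LieRing.ofAssociativeRing

variable {U : Type} [AddCommGroup U] [Module ℂ U] [FiniteDimensional ℂ U]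
  {T : Type} [AddCommGroup T] [Module ℂ T] {L : Submodule ℂ (Module.End ℂ U)}

theorem vec_fst (p0 p1 p2 p3 : Fin 4 × Bool) (i : Fin 4) :
    (![p0, p1, p2, p3] i).1 = ![p0.1, p1.1, p2.1, p3.1] i := by
  fin_cases i <;> rfl

theorem inj31 : ∀ a b c d : Fin 4, a ≠ 3 → b ≠ 3 → c ≠ 3 → d = 3 → a ≠ b → a ≠ c → b ≠ c →
    (∀ i j, ![a, b, c, d] i = ![a, b, c, d] j → i = j) ∧ ∀ i, b31 (![a, b, c, d] i) = b31 i := by
  decide +kernel

namespace GB

variable {S : RS L T} {N : Submodule ℂ U} {B : U →ₗ[ℂ] U →ₗ[ℂ] ℂ}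
  {e : Fin 4 × Bool → U} {w : Fin 4 × Bool → Module.Dual ℂ T}
  {φ : Module.Dual ℂ T →ₗ[ℚ] ℚ} {ψ : Q4 U}
  (h : GB S N B 4 b31 e w) (g : Gen S φ w) (hNL : ∀ x ∈ L, ∀ u ∈ N, x u ∈ N)
    (F : Frm L N B (-1)) (hψ : ∀ x ∈ L, Kill4 N ψ x) (hA : Alt4 ψ)
include h g hNL F hψ hA

theorem c2' {a b c d : Fin 4 × Bool} (ha : a.1 ≠ 3) (hb : b.1 ≠ 3) (hc : c.1 ≠ 3) (hd : d.1 = 3)
    (h1 : a.1 ≠ b.1) (h2 : a.1 ≠ c.1) (h3 : b.1 ≠ c.1) : Fψ ψ e a b c d = 0 := by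
  obtain ⟨k1, k2⟩ := inj31 a.1 b.1 c.1 d.1 ha hb hc hd h1 h2 h3
  obtain ⟨f, hf⟩ : ∃ f : Fin 4 → Fin 4 × Bool, f = ![a, b, c, bar d] := ⟨_, rfl⟩
  have hf1 : ∀ i, (f i).1 = ![a.1, b.1, c.1, d.1] i := by
    intro i
    rw [hf, vec_fst]
    rfl
  have h' := h.relabel f (by intro i j hij; rw [hf1, hf1] at hij; exact k1 i j hij)
  rw [b31_re (by intro i; rw [hf1]; exact k2 i)] at h'
  have h4 := re_zero f (h'.c2 (g.relabel f) hNL F hψ hA)
  subst hf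
  have h5 : Fψ ψ e a b c (bar (bar d)) = 0 := h4
  rwa [bar_bar] at h5

theorem c1' {j : Fin 4} {c d : Fin 4 × Bool} (hj : j ≠ 3) (hc : c.1 ≠ 3) (hd : d.1 = 3)
    (h1 : c.1 ≠ j) : Fψ ψ e (j, true) (j, false) c d = 0 := by
  obtain ⟨l, l1, l2, l3⟩ : ∃ l : Fin 4, l ≠ 3 ∧ l ≠ c.1 ∧ l ≠ j := by
    have : ∀ i j : Fin 4, i ≠ 3 → j ≠ 3 → i ≠ j → ∃ l : Fin 4, l ≠ 3 ∧ l ≠ i ∧ l ≠ j := by decide
    exact this c.1 j hc hj h1
  obtain ⟨k1, k2⟩ := inj31 c.1 j l d.1 hc hj l1 hd h1 (Ne.symm l2) (Ne.symm l3)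
  obtain ⟨f, hf⟩ : ∃ f : Fin 4 → Fin 4 × Bool, f = ![bar c, (j, true), (l, true), d] := ⟨_, rfl⟩
  have hf1 : ∀ i, (f i).1 = ![c.1, j, l, d.1] i := by
    intro i
    rw [hf, vec_fst]
    rfl
  have h' := h.relabel f (by intro i j hij; rw [hf1, hf1] at hij; exact k1 i j hij)
  rw [b31_re (by intro i; rw [hf1]; exact k2 i)] at h'
  have h4 := re_zero f (h'.c1 (g.relabel f) hNL F hψ hA)
  subst hf
  have h5 : Fψ ψ e (j, true) (j, false) (bar (bar c)) d = 0 := h4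
  rwa [bar_bar] at h5

theorem d1 {a b c d : Fin 4 × Bool} (hab : a ≠ b) (h1 : a.1 = b.1) (h2 : c.1 ≠ a.1)
    (ha : a.1 ≠ 3) (hc : c.1 ≠ 3) (hd : d.1 = 3) : Fψ ψ e a b c d = 0 := by
  have A := hA.altT e
  obtain ⟨j, s⟩ := a
  obtain ⟨j', s'⟩ := b
  have h1' : j = j' := h1
  subst h1'
  cases s <;> cases s'
  · exact absurd rfl hab
  · rw [A.s1, h.c1' g hNL F hψ hA ha hc hd h2, neg_zero]
  · exact h.c1' g hNL F hψ hA ha hc hd h2
  · exact absurd rfl hab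

/-- degree three -/
theorem d3 {a b c d : Fin 4 × Bool} (hab : a ≠ b) (hac : a ≠ c) (hbc : b ≠ c)
    (ha : a.1 ≠ 3) (hb : b.1 ≠ 3) (hc : c.1 ≠ 3) (hd : d.1 = 3) : Fψ ψ e a b c d = 0 := by
  have A := hA.altT e
  have three : ∀ x y z : Fin 4 × Bool, x ≠ y → x ≠ z → y ≠ z → x.1 = y.1 → z.1 ≠ x.1 := by
    decide +kernel
  by_cases h1 : a.1 = b.1
  · exact h.d1 g hNL F hψ hA hab h1 (three a b c hab hac hbc h1) ha hc hd
  by_cases h2 : a.1 = c.1
  · have h3 := h.d1 g hNL F hψ hA hac h2 (three a c b hac hab hbc.symm h2) ha hb hd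
    rw [A.s2] at h3
    exact neg_eq_zero.1 h3
  by_cases h3 : b.1 = c.1
  · have h4 := h.d1 g hNL F hψ hA hbc h3 (three b c a hbc hab.symm hac.symm h3) hb ha hd
    rw [A.s2, A.s1, neg_neg] at h4
    exact h4
  exact h.c2' g hNL F hψ hA ha hb hc hd h1 h2 h3

/-- The support of the form. -/
theorem reg31 {a b c d : Fin 4 × Bool} (hne : Fψ ψ e a b c d ≠ 0) :
    NN 0 a b c d = 0 ∧ NN 1 a b c d = 0 ∧ NN 2 a b c d = 0 ∧ NN 3 a b c d = 0 := by
  have A := hA.altT e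
  obtain ⟨d1, d2, d3, d4, d5, d6⟩ := A.dist hne
  have key : ∀ a b c d : Fin 4 × Bool, Dist a b c d →
      (a.1 = 3 ∧ b.1 ≠ 3 ∧ c.1 ≠ 3 ∧ d.1 ≠ 3) ∨ (a.1 ≠ 3 ∧ b.1 = 3 ∧ c.1 ≠ 3 ∧ d.1 ≠ 3) ∨
      (a.1 ≠ 3 ∧ b.1 ≠ 3 ∧ c.1 = 3 ∧ d.1 ≠ 3) ∨ (a.1 ≠ 3 ∧ b.1 ≠ 3 ∧ c.1 ≠ 3 ∧ d.1 = 3) ∨
      NN 3 a b c d = 0 := by
    decide +kernel
  rcases key a b c d ⟨d1, d2, d3, d4, d5, d6⟩ with k | k | k | k | k
  · exfalso
    have h1 := h.d3 g hNL F hψ hA (a := b) (b := c) (c := d) (d := a) d4 d5 d6 k.2.1 k.2.2.1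
      k.2.2.2 k.1
    rw [A.s3, A.s2, A.s1, neg_neg, neg_eq_zero] at h1
    exact hne h1
  · exfalso
    have h1 := h.d3 g hNL F hψ hA (a := a) (b := c) (c := d) (d := b) d2 d3 d6 k.1 k.2.2.1
      k.2.2.2 k.2.1
    rw [A.s3, A.s2, neg_neg] at h1
    exact hne h1
  · exfalso
    have h1 := h.d3 g hNL F hψ hA (a := a) (b := b) (c := d) (d := c) d1 d3 d5 k.1 k.2.1
      k.2.2.2 k.2.2.1
    rw [A.s3, neg_eq_zero] at h1
    exact hne h1
  · exfalso
    exact hne (h.d3 g hNL F hψ hA d1 d2 d4 k.1 k.2.1 k.2.2.1 k.2.2.2)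
  · obtain ⟨c0, c1, c2, c3, hpar⟩ := NN_cases a b c d ⟨d1, d2, d3, d4, d5, d6⟩
    have hrel := h.rel (φ := φ) hψ hne
    have q0 := g.zero (0, true)
    have q1 := g.zero (1, true)
    have q2 := g.zero (2, true)
    have q01 := h.ne1 g (i := 0) (j := 1) (by decide) (by decide)
    have q02 := h.ne1 g (i := 0) (j := 2) (by decide) (by decide)
    have q12 := h.ne1 g (i := 1) (j := 2) (by decide) (by decide)
    have r01 := h.ne2 g (i := 0) (j := 1) (by decide) (by decide)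
    have r02 := h.ne2 g (i := 0) (j := 2) (by decide) (by decide)
    have r12 := h.ne2 g (i := 1) (j := 2) (by decide) (by decide)
    rw [k] at hpar hrel
    refine ⟨?_, ?_, ?_, k⟩
    all_goals
      rcases c0 with c0 | c0 | c0 <;> rcases c1 with c1 | c1 | c1 <;>
        rcases c2 with c2 | c2 | c2 <;> rw [c0, c1, c2] at hpar hrel <;>
        first
        | exact c0
        | exact c1
        | exact c2
        | (exfalso; revert hpar; decide)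
        | (exfalso; push_cast at hrel; first
            | exact q0 (by linarith)
            | exact q1 (by linarith)
            | exact q2 (by linarith)
            | exact q01 (by linarith)
            | exact q02 (by linarith)
            | exact q12 (by linarith)
            | exact r01 (by linarith)
            | exact r02 (by linarith)
            | exact r12 (by linarith))

end GB

end Pool.Agent.R912
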