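import Pool.Agent.H86.CMLib.R912.Q.Sp
import Pool.Agent.H86.CMLib.R912.Q.Wts3

set_option autoImplicit false
set_option linter.unusedSectionVars false

/-!
# Bases of weight vectors adapted to the form, and matrices
-/

open Module Matrix

namespace Pool.Agent.R912

open Pool.Agent.Y102.SP Q

attribute [local instance 100] LieRing.ofAssociativeRing

variable {U : Type} [AddCommGroup U] [Module ℂ U] [FiniteDimensional ℂ U]
  {T : Type} [AddCommGroup T] [Module ℂ T] {L : Submodule ℂ (Module.End ℂ U)}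

/-- forms in four variables -/
abbrev Q4 (U : Type) [AddCommGroup U] [Module ℂ U] : Type :=
  U →ₗ[ℂ] U →ₗ[ℂ] U →ₗ[ℂ] U →ₗ[ℂ] ℂ

/-- `x` annihilates the form on `N`. -/
def Kill4 (N : Submodule ℂ U) (ψ : Q4 U) (x : Module.End ℂ U) : Prop :=
  ∀ a ∈ N, ∀ b ∈ N, ∀ c ∈ N, ∀ d ∈ N,
    ψ (x a) b c d + ψ a (x b) c d + ψ a b (x c) d + ψ a b c (x d) = 0

/-- A basis of weight vectors adapted to the form. -/
structure SB (S : RS L T) (N : Submodule ℂ U) (B : U →ₗ[ℂ] U →ₗ[ℂ] ℂ) (ε : ℂ) (k : ℕ)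
    (e : Fin k × Bool → U) (w : Fin k × Bool → Module.Dual ℂ T) : Prop where
  mem : ∀ p, e p ∈ N
  span : N ≤ Submodule.span ℂ (Set.range e)
  form : ∀ p q, B (e p) (e q) = if q = bar p then sg ε p else 0
  wt : ∀ p, e p ∈ usp S.ι (w p)
  wbar : ∀ p, w (bar p) = -w p
  ne : ∀ p, w p ≠ 0
  inj : ∀ p q, w p = w q → p = q

theorem exists_sb {S : RS L T} {N : Submodule ℂ U} {d : ℕ} {b : Fin d → U}
    {χ : Fin d → Module.Dual ℂ T} (W : S.WB N d b χ) {B : U →ₗ[ℂ] U →ₗ[ℂ] ℂ} {ε : ℂ}
    (F : Frm L N B ε) {φ : Module.Dual ℂ T →ₗ[ℚ] ℚ} {i0 : Fin d}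
    (hT : RS.Top S χ φ i0) (hinj : ∀ i j, χ i = χ j → i = j) (h0 : ∀ i, χ i ≠ 0) :
    ∃ k e w, SB S N B ε k e w := by
  classical
  choose σ hσ using fun i => W.partner F i
  have hχσ : ∀ i, χ (σ i) = -χ i := fun i => W.partner_wt F (hσ i)
  let P : Type := {i : Fin d // 0 < φ (χ i)}
  let q : Fin (Fintype.card P) ≃ P := (Fintype.equivFin P).symm
  let e : Fin (Fintype.card P) × Bool → U := fun p =>
    if p.2 then b (q p.1).1 else (B (b (q p.1).1) (b (σ (q p.1).1)))⁻¹ • b (σ (q p.1).1)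
  let w : Fin (Fintype.card P) × Bool → Module.Dual ℂ T := fun p =>
    if p.2 then χ (q p.1).1 else -χ (q p.1).1
  have het : ∀ i, e (i, true) = b (q i).1 := fun i => rfl
  have hef : ∀ i, e (i, false) = (B (b (q i).1) (b (σ (q i).1)))⁻¹ • b (σ (q i).1) := fun i => rfl
  have hwt' : ∀ i, w (i, true) = χ (q i).1 := fun i => rfl
  have hwf : ∀ i, w (i, false) = -χ (q i).1 := fun i => rfl
  have hmem : ∀ p, e p ∈ N := by
    rintro ⟨i, _ | _⟩
    · rw [hef]; exact N.smul_mem _ (W.mem _)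
    · rw [het]; exact W.mem _
  have hwt : ∀ p, e p ∈ usp S.ι (w p) := by
    rintro ⟨i, _ | _⟩
    · rw [hef, hwf, ← hχσ]; exact Submodule.smul_mem _ _ (W.wt _)
    · rw [het, hwt']; exact W.wt _
  have hwb : ∀ p, w (bar p) = -w p := by
    rintro ⟨i, _ | _⟩
    · change w (i, true) = -w (i, false)
      rw [hwt', hwf, neg_neg]
    · change w (i, false) = -w (i, true)
      rw [hwt', hwf]
  have hne : ∀ p, w p ≠ 0 := by
    rintro ⟨i, _ | _⟩
    · rw [hwf, neg_ne_zero]; exact h0 _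
    · rw [hwt']; exact h0 _
  have hpos : ∀ i, 0 < φ (χ (q i).1) := fun i => (q i).2
  have hwinj : ∀ p r, w p = w r → p = r := by
    rintro ⟨i, _ | _⟩ ⟨j, _ | _⟩ h
    · rw [hwf, hwf, neg_inj] at h
      rw [q.injective (Subtype.ext (hinj _ _ h))]
    · exfalso
      rw [hwf, hwt'] at h
      have h1 := congrArg φ h
      rw [map_neg] at h1
      linarith [hpos i, hpos j]
    · exfalso
      rw [hwf, hwt'] at h
      have h1 := congrArg φ h
      rw [map_neg] at h1
      linarith [hpos i, hpos j]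
    · rw [hwt', hwt'] at h
      rw [q.injective (Subtype.ext (hinj _ _ h))]
  have hz : ∀ p r, r ≠ bar p → B (e p) (e r) = 0 := by
    intro p r hr
    by_contra hcon
    have h1 := W.pair F (hmem p) (hmem r) (hwt p) (hwt r) hcon
    rw [← hwb] at h1
    exact hr (hwinj _ _ h1)
  refine ⟨_, e, w, hmem, ?_, ?_, hwt, hwb, hne, hwinj⟩
  · rw [← W.span, Submodule.span_le]
    rintro _ ⟨i, rfl⟩
    rcases lt_trichotomy 0 (φ (χ i)) with h1 | h1 | h1
    · have h2 : e (q.symm ⟨i, h1⟩, true) = b i := by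
        rw [het, Equiv.apply_symm_apply]
      rw [← h2]
      exact Submodule.subset_span ⟨_, rfl⟩
    · exact absurd (hT.zero i h1.symm) (h0 i)
    · have h3 : 0 < φ (χ (σ i)) := by
        rw [hχσ, map_neg]
        linarith
      have h4 : σ (σ i) = i := hinj _ _ (by rw [hχσ, hχσ, neg_neg])
      have h2 : e (q.symm ⟨σ i, h3⟩, false) = (B (b (σ i)) (b i))⁻¹ • b i := by
        rw [hef, Equiv.apply_symm_apply, h4]
      have h5 : B (b (σ i)) (b i) ≠ 0 := by
        have h6 := hσ (σ i)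
        rwa [h4] at h6
      have h6 : b i = B (b (σ i)) (b i) • e (q.symm ⟨σ i, h3⟩, false) := by
        rw [h2, smul_smul, mul_inv_cancel₀ h5, one_smul]
      rw [SetLike.mem_coe, h6]
      exact Submodule.smul_mem _ _ (Submodule.subset_span ⟨_, rfl⟩)
  · intro p r
    split_ifs with h1
    · subst h1
      have h2 : ∀ i, B (e (i, true)) (e (i, false)) = 1 := by
        intro i
        rw [het, hef, map_smul, smul_eq_mul, inv_mul_cancel₀ (hσ _)]
      rcases p with ⟨i, _ | _⟩
      · change B (e (i, false)) (e (i, true)) = ε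
        rw [F.sym _ (hmem _) _ (hmem _), h2, mul_one]
      · exact h2 i
    · exact hz p r h1

/-- the matrix of an endomorphism -/
noncomputable def MX {k : ℕ} (B : U →ₗ[ℂ] U →ₗ[ℂ] ℂ) (ε : ℂ) (e : Fin k × Bool → U) :
    Module.End ℂ U →ₗ[ℂ] Matrix (Fin k × Bool) (Fin k × Bool) ℂ where
  toFun x := Matrix.of fun i j => sg ε i * B (x (e j)) (e (bar i))
  map_add' x y := by
    ext i j
    simp only [Matrix.of_apply, Matrix.add_apply, LinearMap.add_apply, map_add, mul_add]
  map_smul' c x := by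
    ext i j
    simp only [Matrix.of_apply, Matrix.smul_apply, LinearMap.smul_apply, map_smul, smul_eq_mul,
      RingHom.id_apply]
    ring

theorem MX_apply {k : ℕ} (B : U →ₗ[ℂ] U →ₗ[ℂ] ℂ) (ε : ℂ) (e : Fin k × Bool → U)
    (x : Module.End ℂ U) (i j : Fin k × Bool) :
    MX B ε e x i j = sg ε i * B (x (e j)) (e (bar i)) := rfl

/-- the coordinates of a form -/
def Fψ {k : ℕ} (ψ : Q4 U) (e : Fin k × Bool → U) : Ten (Fin k × Bool) :=
  fun a b c d => ψ (e a) (e b) (e c) (e d)

namespace SB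

variable {S : RS L T} {N : Submodule ℂ U} {B : U →ₗ[ℂ] U →ₗ[ℂ] ℂ} {ε : ℂ} {k : ℕ}
  {e : Fin k × Bool → U} {w : Fin k × Bool → Module.Dual ℂ T} (h : SB S N B ε k e w)
  (hε : ε * ε = 1)
include h hε

theorem coord {u : U} (hu : u ∈ N) : u = ∑ p, (sg ε p * B u (e (bar p))) • e p := by
  classical
  have hu' := h.span hu
  induction hu' using Submodule.span_induction with
  | mem u hu' =>
    obtain ⟨q, rfl⟩ := hu'
    rw [Finset.sum_eq_single q]
    · rw [h.form, if_pos rfl, sg_sq hε, one_smul]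
    · intro p _ hp
      rw [h.form, if_neg, mul_zero, zero_smul]
      intro e1
      apply hp
      rw [← bar_bar p, e1, bar_bar]
    · intro hq
      exact absurd (Finset.mem_univ _) hq
  | zero => simp
  | add u v hu1 hv1 hu2 hv2 =>
    have hle : Submodule.span ℂ (Set.range e) ≤ N := by
      rw [Submodule.span_le]
      rintro _ ⟨p, rfl⟩
      exact h.mem p
    conv_lhs => rw [hu2 (hle hu1), hv2 (hle hv1)]
    rw [← Finset.sum_add_distrib]
    refine Finset.sum_congr rfl fun p _ => ?_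
    rw [map_add, LinearMap.add_apply, mul_add, add_smul]
  | smul c u hu1 hu2 =>
    have hle : Submodule.span ℂ (Set.range e) ≤ N := by
      rw [Submodule.span_le]
      rintro _ ⟨p, rfl⟩
      exact h.mem p
    conv_lhs => rw [hu2 (hle hu1)]
    rw [Finset.smul_sum]
    refine Finset.sum_congr rfl fun p _ => ?_
    rw [map_smul, LinearMap.smul_apply, smul_eq_mul, smul_smul]
    congr 1
    ring

theorem coef_eq {c : Fin k × Bool → ℂ} (q : Fin k × Bool) :
    sg ε q * B (∑ p, c p • e p) (e (bar q)) = c q := by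
  classical
  rw [map_sum, LinearMap.sum_apply, Finset.sum_eq_single q]
  · rw [map_smul, LinearMap.smul_apply, h.form, if_pos rfl, smul_eq_mul]
    linear_combination c q * sg_sq hε q
  · intro p _ hp
    rw [map_smul, LinearMap.smul_apply, h.form, if_neg, smul_zero]
    intro e1
    apply hp
    rw [← bar_bar p, ← e1, bar_bar]
  · intro hq
    exact absurd (Finset.mem_univ _) hq

theorem li : LinearIndependent ℂ e := by
  rw [Fintype.linearIndependent_iff]
  intro c hc q
  rw [← h.coef_eq hε (c := c) q, hc, map_zero, LinearMap.zero_apply, mul_zero]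

theorem finrank_eq : finrank ℂ N = 2 * k := by
  have h1 : Submodule.span ℂ (Set.range e) = N := by
    refine le_antisymm ?_ h.span
    rw [Submodule.span_le]
    rintro _ ⟨p, rfl⟩
    exact h.mem p
  rw [← h1, finrank_span_eq_card (h.li hε), Fintype.card_prod, Fintype.card_fin,
    Fintype.card_bool, mul_comm]

theorem ap {x : Module.End ℂ U} (hx : ∀ u ∈ N, x u ∈ N) (j : Fin k × Bool) :
    x (e j) = ∑ i, MX B ε e x i j • e i := h.coord hε (hx _ (h.mem j))

theorem MX_mul (x : Module.End ℂ U) {y : Module.End ℂ U} (hy : ∀ u ∈ N, y u ∈ N) :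
    MX B ε e (x * y) = MX B ε e x * MX B ε e y := by
  ext i j
  rw [MX_apply, Matrix.mul_apply, Module.End.mul_apply, h.ap hε hy j, map_sum, map_sum,
    LinearMap.sum_apply, Finset.mul_sum]
  refine Finset.sum_congr rfl fun l _ => ?_
  rw [map_smul, map_smul, LinearMap.smul_apply, smul_eq_mul, MX_apply (i := i)]
  ring

theorem MX_Sk {x : Module.End ℂ U} (hx : ∀ u ∈ N, x u ∈ N)
    (hs : ∀ u ∈ N, ∀ v ∈ N, B (x u) v + B u (x v) = 0)
    (hsym : ∀ u ∈ N, ∀ v ∈ N, B u v = ε * B v u) : MX B ε e x ∈ Sk ε k := by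
  intro p q
  rw [MX_apply, MX_apply, bar_bar, sg_bar hε]
  have h1 := hs _ (h.mem p) _ (h.mem (bar q))
  have h2 := hsym _ (h.mem p) _ (hx _ (h.mem (bar q)))
  have h3 := sg_sq hε p
  have h4 := sg_sq hε q
  linear_combination (B (x (e p)) (e (bar q))) * h4 +
    (ε * B (x (e (bar q))) (e p)) * h3 + h1 - h2

theorem MX_KF {ψ : Q4 U} {x : Module.End ℂ U} (hx : ∀ u ∈ N, x u ∈ N) (hk : Kill4 N ψ x) :
    MX B ε e x ∈ KF (Fψ ψ e) := by
  intro a b c d
  have h1 := hk _ (h.mem a) _ (h.mem b) _ (h.mem c) _ (h.mem d)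
  rw [h.ap hε hx a, h.ap hε hx b, h.ap hε hx c, h.ap hε hx d] at h1
  simp only [map_sum, map_smul, LinearMap.sum_apply, LinearMap.smul_apply, smul_eq_mul] at h1
  exact h1

theorem kill_of_KF {ψ : Q4 U} {x : Module.End ℂ U} (hx : ∀ u ∈ N, x u ∈ N)
    (hk : MX B ε e x ∈ KF (Fψ ψ e)) : Kill4 N ψ x := by
  have hle : Submodule.span ℂ (Set.range e) = N := by
    refine le_antisymm ?_ h.span
    rw [Submodule.span_le]
    rintro _ ⟨p, rfl⟩
    exact h.mem p
  have key : ∀ a b c d : Fin k × Bool, ψ (x (e a)) (e b) (e c) (e d) +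
      ψ (e a) (x (e b)) (e c) (e d) + ψ (e a) (e b) (x (e c)) (e d) +
      ψ (e a) (e b) (e c) (x (e d)) = 0 := by
    intro a b c d
    rw [h.ap hε hx a, h.ap hε hx b, h.ap hε hx c, h.ap hε hx d]
    simp only [map_sum, map_smul, LinearMap.sum_apply, LinearMap.smul_apply, smul_eq_mul]
    exact hk a b c d
  intro a ha b hb c hc d hd
  rw [← hle] at ha hb hc hd
  induction ha using Submodule.span_induction with
  | mem a ha =>
    obtain ⟨a, rfl⟩ := ha
    induction hb using Submodule.span_induction with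
    | mem b hb =>
      obtain ⟨b, rfl⟩ := hb
      induction hc using Submodule.span_induction with
      | mem c hc =>
        obtain ⟨c, rfl⟩ := hc
        induction hd using Submodule.span_induction with
        | mem d hd =>
          obtain ⟨d, rfl⟩ := hd
          exact key a b c d
        | zero => simp
        | add u v _ _ h1 h2 =>
          simp only [map_add] at h1 h2 ⊢
          linear_combination h1 + h2
        | smul r u _ h1 =>
          simp only [map_smul, smul_eq_mul] at h1 ⊢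
          linear_combination r * h1
      | zero => simp
      | add u v _ _ h1 h2 =>
        simp only [map_add, LinearMap.add_apply] at h1 h2 ⊢
        linear_combination h1 + h2
      | smul r u _ h1 =>
        simp only [map_smul, LinearMap.smul_apply, smul_eq_mul] at h1 ⊢
        linear_combination r * h1
    | zero => simp
    | add u v _ _ h1 h2 =>
      simp only [map_add, LinearMap.add_apply] at h1 h2 ⊢
      linear_combination h1 + h2
    | smul r u _ h1 =>
      simp only [map_smul, LinearMap.smul_apply, smul_eq_mul] at h1 ⊢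
      linear_combination r * h1
  | zero => simp
  | add u v _ _ h1 h2 =>
    simp only [map_add, LinearMap.add_apply] at h1 h2 ⊢
    linear_combination h1 + h2
  | smul r u _ h1 =>
    simp only [map_smul, LinearMap.smul_apply, smul_eq_mul] at h1 ⊢
    linear_combination r * h1

theorem irrOn {ψ : Q4 U} (hN : IrrSub L N) (F : Frm L N B ε) (hψ : ∀ x ∈ L, Kill4 N ψ x) :
    IrrOn (KF (Fψ ψ e) ⊓ Sk ε k) Set.univ := by
  refine ⟨?_, fun x _ i hi => absurd (Set.mem_univ i) hi, ?_⟩
  · rintro x ⟨hx1, hx2⟩ y ⟨hy1, hy2⟩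
    exact ⟨KF_br hx1 hy1, Sk_br hε hx2 hy2⟩
  · intro P _ hP hP0 v _
    have hM : ∀ x ∈ L, MX B ε e x ∈ KF (Fψ ψ e) ⊓ Sk ε k := fun x hx =>
      ⟨h.MX_KF hε (hN.stab x hx) (hψ x hx), h.MX_Sk hε (hN.stab x hx) (F.skew x hx) F.sym⟩
    let Θ : (Fin k × Bool → ℂ) →ₗ[ℂ] U := Fintype.linearCombination ℂ e
    have hΘ : ∀ v, Θ v = ∑ i, v i • e i := fun v => Fintype.linearCombination_apply ℂ e v
    have hli := h.li hε
    have hinj : ∀ v, Θ v = 0 → v = 0 := by
      intro v hv
      rw [hΘ] at hv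
      funext i
      exact Fintype.linearIndependent_iff.1 hli v hv i
    have hPN : P.map Θ ≤ N := by
      rintro _ ⟨v, -, rfl⟩
      rw [hΘ]
      exact N.sum_mem fun i _ => N.smul_mem _ (h.mem i)
    have hst : ∀ x ∈ L, ∀ u ∈ P.map Θ, x u ∈ P.map Θ := by
      rintro x hx _ ⟨v, hv, rfl⟩
      refine ⟨MX B ε e x *ᵥ v, hP _ (hM x hx) v hv, ?_⟩
      rw [hΘ, hΘ, map_sum]
      have h1 : ∀ i, (MX B ε e x *ᵥ v) i • e i = ∑ j, (MX B ε e x i j * v j) • e i := by
        intro i
        rw [Matrix.mulVec, dotProduct, Finset.sum_smul]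
      rw [Finset.sum_congr rfl fun i _ => h1 i, Finset.sum_comm]
      refine Finset.sum_congr rfl fun j _ => ?_
      rw [map_smul, h.ap hε (hN.stab x hx) j, Finset.smul_sum]
      refine Finset.sum_congr rfl fun i _ => ?_
      rw [smul_smul, mul_comm]
    have hne : P.map Θ ≠ ⊥ := by
      obtain ⟨u, hu, hu0⟩ := (Submodule.ne_bot_iff P).1 hP0
      intro hb
      have h1 : Θ u ∈ P.map Θ := ⟨u, hu, rfl⟩
      rw [hb, Submodule.mem_bot] at h1
      exact hu0 (hinj u h1)
    have heq := hN.irr _ hPN hst hne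
    have h2 : Θ v ∈ P.map Θ := by
      rw [heq, hΘ]
      exact N.sum_mem fun i _ => N.smul_mem _ (h.mem i)
    obtain ⟨v', hv', h3⟩ := h2
    have h4 : v - v' = 0 := hinj _ (by rw [map_sub, h3, sub_self])
    rw [sub_eq_zero.1 h4]
    exact hv'


omit hε in
theorem wt_zero' {ψ : Q4 U} (hψ : ∀ x ∈ L, Kill4 N ψ x) {a b c d : Fin k × Bool}
    (hne : Fψ ψ e a b c d ≠ 0) : w a + w b + w c + w d = 0 := by
  ext t
  have h1 := hψ _ (S.ιmem t) _ (h.mem a) _ (h.mem b) _ (h.mem c) _ (h.mem d)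
  rw [h.wt a t, h.wt b t, h.wt c t, h.wt d t] at h1
  simp only [map_smul, LinearMap.smul_apply, smul_eq_mul] at h1
  have h2 : (w a t + w b t + w c t + w d t) * Fψ ψ e a b c d = 0 := by
    unfold Fψ
    linear_combination h1
  exact (mul_eq_zero.1 h2).resolve_right hne

omit h hε in
theorem dg_mem_of {ψ : Q4 U} {f : Fin k → ℤ} (hf : ∀ a b c d, Fψ ψ e a b c d ≠ 0 →
    til f a + til f b + til f c + til f d = 0) : dg f ∈ KF (Fψ ψ e) ⊓ Sk ε k := by
  refine ⟨fun a b c d => ?_, fun p q => ?_⟩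
  · have h1 : DD (dg f) (Fψ ψ e) a b c d =
        ((til f a + til f b + til f c + til f d : ℤ) : ℂ) * Fψ ψ e a b c d := by
      unfold DD D1 D2 D3 D4 dg
      rw [Finset.sum_eq_single a, Finset.sum_eq_single b, Finset.sum_eq_single c,
        Finset.sum_eq_single d]
      · rw [Matrix.diagonal_apply_eq, Matrix.diagonal_apply_eq, Matrix.diagonal_apply_eq,
          Matrix.diagonal_apply_eq]
        push_cast
        ring
      all_goals first
        | (intro q _ hq; rw [Matrix.diagonal_apply_ne _ hq, zero_mul])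
        | (intro hq; exact absurd (Finset.mem_univ _) hq)
    rw [h1]
    by_cases h2 : Fψ ψ e a b c d = 0
    · rw [h2, mul_zero]
    · rw [hf a b c d h2, Int.cast_zero, zero_mul]
  · unfold dg
    by_cases hpq : p = q
    · subst hpq
      rw [Matrix.diagonal_apply_eq, Matrix.diagonal_apply_eq, til_bar]
      push_cast
      ring
    · have h1 : bar p ≠ bar q := fun e1 => hpq (by rw [← bar_bar p, e1, bar_bar])
      rw [Matrix.diagonal_apply_ne _ (Ne.symm hpq), Matrix.diagonal_apply_ne _ h1]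
      ring

/-- **The regular case**: skew endomorphisms annihilate the form. -/
theorem kill_of_reg (hε' : ε = 1 ∨ ε = -1) {ψ : Q4 U} (hN : IrrSub L N) (F : Frm L N B ε)
    (hψ : ∀ x ∈ L, Kill4 N ψ x)
    (hreg : ∀ a b c d, Fψ ψ e a b c d ≠ 0 → ∀ f : Fin k → ℤ, til f a + til f b + til f c +
      til f d = 0) {x : Module.End ℂ U} (hx : ∀ u ∈ N, x u ∈ N)
    (hs : ∀ u ∈ N, ∀ v ∈ N, B (x u) v + B u (x v) = 0) : Kill4 N ψ x := by
  refine h.kill_of_KF hε hx ?_
  exact (Sk_le hε (M := KF (Fψ ψ e) ⊓ Sk ε k) inf_le_right (h.irrOn hε hN F hψ)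
    (fun f => dg_mem_of fun a b c d hne => hreg a b c d hne f) hε'
    (h.MX_Sk hε hx hs F.sym)).1

end SB

end Pool.Agent.R912
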