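import Pool.Agent.H86.CMLib.R912.Q.HW

set_option autoImplicit false
set_option linter.unusedSectionVars false
set_option linter.unusedSimpArgs false
set_option linter.unusedVariables false

/-!
# Representations without orthogonality defects
-/

open Module Matrix

namespace Pool.Agent.R912

open Pool.Agent.Y102.SP Q

attribute [local instance 100] LieRing.ofAssociativeRing

variable {U : Type} [AddCommGroup U] [Module ℂ U] [FiniteDimensional ℂ U]
  {L : Submodule ℂ (Module.End ℂ U)} {ω : U →ₗ[ℂ] U →ₗ[ℂ] ℂ}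

/-- the commutant -/
def comL (L : Submodule ℂ (Module.End ℂ U)) : Submodule ℂ (Module.End ℂ U) where
  carrier := {T | ∀ x ∈ L, x * T = T * x}
  zero_mem' := fun x _ => by rw [mul_zero, zero_mul]
  add_mem' := fun {S T} hS hT x hx => by rw [mul_add, add_mul, hS x hx, hT x hx]
  smul_mem' := fun c T hT x hx => by rw [mul_smul_comm, smul_mul_assoc, hT x hx]

/-- The hypotheses, without the parity of the dimensions. -/
structure THyp0 (L : Submodule ℂ (Module.End ℂ U)) (ω : U →ₗ[ℂ] U →ₗ[ℂ] ℂ) : Prop where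
  br : ∀ x ∈ L, ∀ y ∈ L, x * y - y * x ∈ L
  skew : ∀ x ∈ L, ∀ u v, ω (x u) v + ω u (x v) = 0
  alt : ∀ u v, ω u v = -ω v u
  nd : ∀ u, (∀ v, ω v u = 0) → u = 0
  abs : ∀ P : Submodule ℂ U, (∀ x ∈ L, ∀ u ∈ P, x u ∈ P) → (∀ x ∈ comL L, ∀ u ∈ P, x u ∈ P) →
    ∀ u ∈ P, (∀ v ∈ P, ω v u = 0) → u = 0

/-- the orthogonal space -/
def oP (ω : U →ₗ[ℂ] U →ₗ[ℂ] ℂ) (P : Submodule ℂ U) : Submodule ℂ U where
  carrier := {v | ∀ u ∈ P, ω u v = 0}
  zero_mem' := fun u _ => map_zero _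
  add_mem' := fun {v w} hv hw u hu => by rw [map_add, hv u hu, hw u hu, add_zero]
  smul_mem' := fun c v hv u hu => by rw [map_smul, hv u hu, smul_zero]

theorem mem_oP {P : Submodule ℂ U} {v : U} : v ∈ oP ω P ↔ ∀ u ∈ P, ω u v = 0 := Iff.rfl

/-- the span of the translates -/
def PK (L : Submodule ℂ (Module.End ℂ U)) (N : Submodule ℂ U) : Submodule ℂ U :=
  Submodule.span ℂ {w | ∃ k ∈ comL L, ∃ u ∈ N, w = k u}

theorem one_comL : (1 : Module.End ℂ U) ∈ comL L := fun x _ => by rw [mul_one, one_mul]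

theorem mul_comL {k l : Module.End ℂ U} (hk : k ∈ comL L) (hl : l ∈ comL L) : k * l ∈ comL L :=
  fun x hx => by rw [← mul_assoc, hk x hx, mul_assoc, hl x hx, mul_assoc]

theorem le_PK {N : Submodule ℂ U} : N ≤ PK L N := fun u hu =>
  Submodule.subset_span ⟨1, one_comL, u, hu, rfl⟩

theorem PK_L {N : Submodule ℂ U} (hN : ∀ x ∈ L, ∀ u ∈ N, x u ∈ N) :
    ∀ x ∈ L, ∀ u ∈ PK L N, x u ∈ PK L N := by
  intro x hx u hu
  unfold PK at hu ⊢
  induction hu using Submodule.span_induction with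
  | mem u hu =>
    obtain ⟨k, hk, n, hn, rfl⟩ := hu
    refine Submodule.subset_span ⟨k, hk, x n, hN x hx n hn, ?_⟩
    exact LinearMap.congr_fun (hk x hx) n
  | zero => rw [map_zero]; exact Submodule.zero_mem _
  | add u v _ _ hu hv => rw [map_add]; exact Submodule.add_mem _ hu hv
  | smul c u _ hu => rw [map_smul]; exact Submodule.smul_mem _ c hu

theorem PK_K {N : Submodule ℂ U} : ∀ x ∈ comL L, ∀ u ∈ PK L N, x u ∈ PK L N := by
  intro x hx u hu
  unfold PK at hu ⊢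
  induction hu using Submodule.span_induction with
  | mem u hu =>
    obtain ⟨k, hk, n, hn, rfl⟩ := hu
    exact Submodule.subset_span ⟨x * k, mul_comL hx hk, n, hn, rfl⟩
  | zero => rw [map_zero]; exact Submodule.zero_mem _
  | add u v _ _ hu hv => rw [map_add]; exact Submodule.add_mem _ hu hv
  | smul c u _ hu => rw [map_smul]; exact Submodule.smul_mem _ c hu

/-- the form on an irreducible subspace -/
theorem frm_of {N : Submodule ℂ U} (hN : IrrSub L N) (skew : ∀ x ∈ L, ∀ u v, ω (x u) v + ω u (x v) = 0)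
    {k : Module.End ℂ U} (hk : k ∈ comL L) {n0 v0 : U} (hn0 : n0 ∈ N) (hv0 : v0 ∈ N)
    (hB0 : ω n0 (k v0) ≠ 0) : ∃ ε : ℂ, (ε = 1 ∨ ε = -1) ∧ Frm L N (ω.compl₂ k) ε := by
  obtain ⟨B, hBdef⟩ : ∃ B, B = ω.compl₂ k := ⟨_, rfl⟩
  have hB : ∀ u v, B u v = ω u (k v) := fun u v => by rw [hBdef, LinearMap.compl₂_apply]
  rw [← hB] at hB0
  have hinv : ∀ x ∈ L, ∀ u v, B (x u) v + B u (x v) = 0 := by
    intro x hx u v
    rw [hB, hB]
    have h1 : k (x v) = x (k v) := (LinearMap.congr_fun (hk x hx) v).symm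
    rw [h1]
    exact skew x hx u (k v)
  -- the radicals
  have rad1 : ∀ u ∈ N, (∀ v ∈ N, B v u = 0) → u = 0 := by
    let R : Submodule ℂ U :=
      { carrier := {u | u ∈ N ∧ ∀ v ∈ N, B v u = 0}
        zero_mem' := ⟨N.zero_mem, fun v _ => map_zero _⟩
        add_mem' := fun {a b} ha hb => ⟨N.add_mem ha.1 hb.1, fun v hv => by
          rw [map_add, ha.2 v hv, hb.2 v hv, add_zero]⟩
        smul_mem' := fun c a ha => ⟨N.smul_mem c ha.1, fun v hv => by
          rw [map_smul, ha.2 v hv, smul_zero]⟩ }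
    by_cases hR : R = ⊥
    · intro u hu h1
      have : u ∈ R := ⟨hu, h1⟩
      rw [hR] at this
      exact this
    · exfalso
      have h1 := hN.irr R (fun u hu => hu.1) (fun x hx u hu => ⟨hN.stab x hx u hu.1,
        fun v hv => by
          have h2 := hinv x hx v u
          rw [hu.2 _ (hN.stab x hx v hv), zero_add] at h2
          exact h2⟩) hR
      have h2 : v0 ∈ R := by rw [h1]; exact hv0
      exact hB0 (h2.2 n0 hn0)
  have rad2 : ∀ u ∈ N, (∀ v ∈ N, B u v = 0) → u = 0 := by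
    let R : Submodule ℂ U :=
      { carrier := {u | u ∈ N ∧ ∀ v ∈ N, B u v = 0}
        zero_mem' := ⟨N.zero_mem, fun v _ => by rw [map_zero, LinearMap.zero_apply]⟩
        add_mem' := fun {a b} ha hb => ⟨N.add_mem ha.1 hb.1, fun v hv => by
          rw [map_add, LinearMap.add_apply, ha.2 v hv, hb.2 v hv, add_zero]⟩
        smul_mem' := fun c a ha => ⟨N.smul_mem c ha.1, fun v hv => by
          rw [map_smul, LinearMap.smul_apply, ha.2 v hv, smul_zero]⟩ }
    by_cases hR : R = ⊥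
    · intro u hu h1
      have : u ∈ R := ⟨hu, h1⟩
      rw [hR] at this
      exact this
    · exfalso
      have h1 := hN.irr R (fun u hu => hu.1) (fun x hx u hu => ⟨hN.stab x hx u hu.1,
        fun v hv => by
          have h2 := hinv x hx u v
          rw [hu.2 _ (hN.stab x hx v hv), add_zero] at h2
          exact h2⟩) hR
      have h2 : n0 ∈ R := by rw [h1]; exact hn0
      exact hB0 (h2.2 v0 hv0)
  -- the eigenvalue
  let BN : N →ₗ[ℂ] Module.Dual ℂ N := (LinearMap.lcomp ℂ ℂ N.subtype) ∘ₗ B ∘ₗ N.subtype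
  have hBN : ∀ u v : N, BN u v = B u.1 v.1 := fun u v => rfl
  let f : N →ₗ[ℂ] Module.Dual ℂ N := BN.flip
  have hf : ∀ u v : N, f v u = B u.1 v.1 := fun u v => rfl
  have hinjB : Function.Injective BN := by
    rw [injective_iff_map_eq_zero]
    intro u hu
    refine Subtype.ext (rad2 u.1 u.2 fun v hv => ?_)
    exact LinearMap.congr_fun hu (⟨v, hv⟩ : N)
  have : Nontrivial N := Submodule.nontrivial_iff_ne_bot.2 hN.ne
  let E : N ≃ₗ[ℂ] Module.Dual ℂ N := LinearMap.linearEquivOfInjective BN hinjB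
    (Subspace.dual_finrank_eq).symm
  have hE : ∀ u, E u = BN u := fun u => rfl
  obtain ⟨lam, hlam⟩ := Module.End.exists_eigenvalue (E.symm.toLinearMap ∘ₗ f : Module.End ℂ N)
  obtain ⟨v, hv⟩ := hlam.exists_hasEigenvector
  have h1 : f v = lam • BN v := by
    have h2 := hv.apply_eq_smul
    rw [LinearMap.comp_apply, LinearEquiv.coe_coe, LinearEquiv.symm_apply_eq, map_smul, hE] at h2
    exact h2
  let Q : Submodule ℂ U :=
    { carrier := {v | v ∈ N ∧ ∀ u ∈ N, B u v = lam * B v u}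
      zero_mem' := ⟨N.zero_mem, fun u _ => by rw [map_zero, map_zero, LinearMap.zero_apply,
        mul_zero]⟩
      add_mem' := fun {a b} ha hb => ⟨N.add_mem ha.1 hb.1, fun u hu => by
        rw [map_add, map_add, LinearMap.add_apply, ha.2 u hu, hb.2 u hu, mul_add]⟩
      smul_mem' := fun c a ha => ⟨N.smul_mem c ha.1, fun u hu => by
        rw [map_smul, map_smul, LinearMap.smul_apply, ha.2 u hu, smul_eq_mul, smul_eq_mul]
        ring⟩ }
  have hQ : Q = N := by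
    refine hN.irr Q (fun u hu => hu.1) (fun x hx u hu => ⟨hN.stab x hx u hu.1,
      fun y hy => ?_⟩) ?_
    · have h3 := hinv x hx y u
      have h4 := hinv x hx u y
      have h5 := hu.2 _ (hN.stab x hx y hy)
      linear_combination h3 - h5 - lam * h4
    · intro hb
      have h3 : v.1 ∈ Q := ⟨v.2, fun u hu => by
        have h4 := LinearMap.congr_fun h1 (⟨u, hu⟩ : N)
        exact h4⟩
      rw [hb, Submodule.mem_bot] at h3
      exact hv.2 (Subtype.ext h3)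
  have hsym : ∀ u ∈ N, ∀ v ∈ N, B u v = lam * B v u := by
    intro u hu v hv
    rw [← hQ] at hv
    exact hv.2 u hu
  refine ⟨lam, ?_, hBdef ▸ ⟨fun x hx u _ v _ => hinv x hx u v, rad1, hsym⟩⟩
  have h3 := hsym _ hn0 _ hv0
  rw [hsym _ hv0 _ hn0, ← mul_assoc] at h3
  have h4 : (lam * lam - 1) * B n0 v0 = 0 := by linear_combination -h3
  have h5 := (mul_eq_zero.1 h4).resolve_right hB0
  have h6 : (lam - 1) * (lam + 1) = 0 := by linear_combination h5
  rcases mul_eq_zero.1 h6 with h7 | h7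
  · exact Or.inl (sub_eq_zero.1 h7)
  · exact Or.inr (eq_neg_of_add_eq_zero_left h7)

/-- projections -/
theorem projG {M : Submodule ℂ U} (hM : ∀ x ∈ L, ∀ u ∈ M, x u ∈ M)
    (skew : ∀ x ∈ L, ∀ u v, ω (x u) v + ω u (x v) = 0) {B : U →ₗ[ℂ] U →ₗ[ℂ] ℂ}
    (hB : ∀ x ∈ L, ∀ u ∈ M, ∀ v ∈ M, B (x u) v + B u (x v) = 0)
    (hnd : ∀ u ∈ M, (∀ v ∈ M, B v u = 0) → u = 0) :
    ∃ p ∈ comL L, (∀ u, p u ∈ M) ∧ ∀ n ∈ M, ∀ u, B n (p u) = ω n u := by
  let Θ : M →ₗ[ℂ] Module.Dual ℂ M := ((LinearMap.lcomp ℂ ℂ M.subtype) ∘ₗ B ∘ₗ M.subtype).flip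
  have hΘ : ∀ m n : M, Θ m n = B n.1 m.1 := fun m n => rfl
  have hinj : Function.Injective Θ := by
    rw [injective_iff_map_eq_zero]
    intro u hu
    refine Subtype.ext (hnd u.1 u.2 fun v hv => ?_)
    exact LinearMap.congr_fun hu (⟨v, hv⟩ : M)
  let E : M ≃ₗ[ℂ] Module.Dual ℂ M := LinearMap.linearEquivOfInjective Θ hinj
    (Subspace.dual_finrank_eq).symm
  have hE : ∀ u, E u = Θ u := fun u => rfl
  let G : U →ₗ[ℂ] Module.Dual ℂ M := (LinearMap.lcomp ℂ ℂ M.subtype) ∘ₗ ω.flip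
  have hG : ∀ (u : U) (n : M), G u n = ω n.1 u := fun u n => rfl
  let p : Module.End ℂ U := M.subtype ∘ₗ E.symm.toLinearMap ∘ₗ G
  have hp : ∀ u, p u = (E.symm (G u)).1 := fun u => rfl
  have hpM : ∀ u, p u ∈ M := fun u => (E.symm (G u)).2
  have hpB : ∀ n ∈ M, ∀ u, B n (p u) = ω n u := by
    intro n hn u
    have h1 : E (E.symm (G u)) = G u := E.apply_symm_apply _
    have h2 := LinearMap.congr_fun h1 (⟨n, hn⟩ : M)
    exact h2
  refine ⟨p, ?_, hpM, hpB⟩
  intro x hx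
  refine LinearMap.ext fun u => ?_
  rw [Module.End.mul_apply, Module.End.mul_apply, ← sub_eq_zero]
  refine hnd _ (M.sub_mem (hM x hx _ (hpM u)) (hpM _)) fun n hn => ?_
  rw [map_sub, hpB n hn]
  have h1 := hB x hx n hn (p u) (hpM u)
  rw [hpB _ (hM x hx n hn)] at h1
  have h2 := skew x hx n u
  linear_combination h1 - h2

namespace THyp0

variable (H : THyp0 L ω)
include H

/-- representation of forms -/
theorem rep (β : U →ₗ[ℂ] U →ₗ[ℂ] ℂ) : ∃ T : Module.End ℂ U, ∀ u v, β u v = ω u (T v) := by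
  have hinj : Function.Injective (ω.flip : U →ₗ[ℂ] Module.Dual ℂ U) := by
    rw [injective_iff_map_eq_zero]
    intro u hu
    exact H.nd u fun v => LinearMap.congr_fun hu v
  let E : U ≃ₗ[ℂ] Module.Dual ℂ U := LinearMap.linearEquivOfInjective ω.flip hinj
    (Subspace.dual_finrank_eq).symm
  refine ⟨E.symm.toLinearMap ∘ₗ β.flip, fun u v => ?_⟩
  have h1 : E (E.symm (β.flip v)) = β.flip v := E.apply_symm_apply _
  exact (LinearMap.congr_fun h1 u).symm

theorem rep_comL {β : U →ₗ[ℂ] U →ₗ[ℂ] ℂ} (hβ : ∀ x ∈ L, ∀ u v, β (x u) v + β u (x v) = 0)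
    {T : Module.End ℂ U} (hT : ∀ u v, β u v = ω u (T v)) : T ∈ comL L := by
  intro x hx
  refine LinearMap.ext fun v => ?_
  rw [Module.End.mul_apply, Module.End.mul_apply, ← sub_eq_zero]
  refine H.nd _ fun u => ?_
  rw [map_sub, ← hT]
  have h1 := hβ x hx u v
  rw [hT] at h1
  have h2 := H.skew x hx u (T v)
  linear_combination h2 - h1

theorem adj {k : Module.End ℂ U} (hk : k ∈ comL L) : ∃ k' ∈ comL L, ∀ u v, ω (k u) v = ω u (k' v) := by
  obtain ⟨T, hT⟩ := H.rep (ω.comp k)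
  refine ⟨T, H.rep_comL (β := ω.comp k) ?_ hT, fun u v => hT u v⟩
  intro x hx u v
  rw [LinearMap.comp_apply, LinearMap.comp_apply]
  have h1 : k (x u) = x (k u) := (LinearMap.congr_fun (hk x hx) u).symm
  rw [h1]
  exact H.skew x hx _ _

theorem oP_L {P : Submodule ℂ U} (hP : ∀ x ∈ L, ∀ u ∈ P, x u ∈ P) :
    ∀ x ∈ L, ∀ u ∈ oP ω P, x u ∈ oP ω P := by
  intro x hx v hv u hu
  have h1 := H.skew x hx u v
  rw [hv _ (hP x hx u hu), zero_add] at h1
  exact h1

theorem oP_K {P : Submodule ℂ U} (hP : ∀ x ∈ comL L, ∀ u ∈ P, x u ∈ P) :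
    ∀ x ∈ comL L, ∀ u ∈ oP ω P, x u ∈ oP ω P := by
  intro k hk v hv u hu
  obtain ⟨k', hk', hadj⟩ := H.adj hk
  have h1 := hadj v u
  have h2 := hv _ (hP k' hk' u hu)
  rw [H.alt, h1, H.alt, h2]
  simp

/-- the decomposition -/
theorem sup_oP {P : Submodule ℂ U} (hP : ∀ u ∈ P, (∀ v ∈ P, ω v u = 0) → u = 0) :
    P ⊔ oP ω P = ⊤ ∧ P ⊓ oP ω P = ⊥ := by
  have h0 : P ⊓ oP ω P = ⊥ := by
    rw [eq_bot_iff]
    rintro u ⟨hu, hu'⟩
    exact hP u hu hu'
  have hrefl : (ω : LinearMap.BilinForm ℂ U).IsRefl := by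
    intro u v huv
    rw [H.alt, huv, neg_zero]
  have hU' : oP ω P = LinearMap.BilinForm.orthogonal (ω : LinearMap.BilinForm ℂ U) P := by
    ext v
    rw [LinearMap.BilinForm.mem_orthogonal_iff]
    rfl
  have h1 : IsCompl P (oP ω P) := by
    rw [hU', LinearMap.BilinForm.isCompl_orthogonal_iff_disjoint hrefl, disjoint_iff, ← hU']
    exact h0
  exact ⟨h1.sup_eq_top, h0⟩

/-- the form on an irreducible subspace -/
theorem exists_frm {N : Submodule ℂ U} (hN : IrrSub L N) :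
    ∃ k ∈ comL L, ∃ ε : ℂ, (ε = 1 ∨ ε = -1) ∧ Frm L N (ω.compl₂ k) ε := by
  obtain ⟨n0, hn0, hn00⟩ := (Submodule.ne_bot_iff N).1 hN.ne
  obtain ⟨k, hk, v0, hv0, hB0⟩ : ∃ k ∈ comL L, ∃ v ∈ N, ω n0 (k v) ≠ 0 := by
    by_contra hcon
    push Not at hcon
    refine hn00 (H.abs (PK L N) (PK_L hN.stab) PK_K n0 (le_PK hn0) fun v hv => ?_)
    rw [H.alt, neg_eq_zero]
    unfold PK at hv
    induction hv using Submodule.span_induction with
    | mem v hv =>
      obtain ⟨k, hk, u, hu, rfl⟩ := hv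
      exact hcon k hk u hu
    | zero => exact map_zero _
    | add u v _ _ hu hv => rw [map_add, hu, hv, add_zero]
    | smul c u _ hu => rw [map_smul, hu, smul_zero]
  obtain ⟨ε, hε, F⟩ := frm_of hN H.skew hk hn0 hv0 hB0
  exact ⟨k, hk, ε, hε, F⟩

/-- an irreducible subspace is contained in a stable subspace or in its orthogonal -/
theorem dich {N P : Submodule ℂ U} (hN : IrrSub L N) (hP1 : ∀ x ∈ L, ∀ u ∈ P, x u ∈ P)
    (hP2 : ∀ x ∈ comL L, ∀ u ∈ P, x u ∈ P) : N ≤ P ∨ N ≤ oP ω P := by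
  by_contra hcon
  push Not at hcon
  obtain ⟨k, hk, ε, hε, F⟩ := H.exists_frm hN
  obtain ⟨p, hp, hpN, hpB⟩ := projG hN.stab H.skew F.skew F.nd
  have h1 : ∀ Q : Submodule ℂ U, (∀ x ∈ L, ∀ u ∈ Q, x u ∈ Q) → ¬ N ≤ Q → N ⊓ Q = ⊥ := by
    intro Q hQ hle
    by_contra hne
    have h2 := hN.irr (N ⊓ Q) inf_le_left (fun x hx u hu => ⟨hN.stab x hx u hu.1,
      hQ x hx u hu.2⟩) hne
    exact hle (inf_eq_left.1 h2)
  have h2 := h1 P hP1 hcon.1
  have h3 := h1 _ (H.oP_L hP1) hcon.2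
  obtain ⟨h4, -⟩ := H.sup_oP (P := P) (H.abs P hP1 hP2)
  have h5 : ∀ u, p u = 0 := by
    intro u
    have hu : u ∈ P ⊔ oP ω P := by rw [h4]; trivial
    obtain ⟨a, ha, b, hb, rfl⟩ := Submodule.mem_sup.1 hu
    have e1 : p a ∈ N ⊓ P := ⟨hpN a, hP2 p hp a ha⟩
    have e2 : p b ∈ N ⊓ oP ω P := ⟨hpN b, H.oP_K hP2 p hp b hb⟩
    rw [h2, Submodule.mem_bot] at e1
    rw [h3, Submodule.mem_bot] at e2
    rw [map_add, e1, e2, add_zero]
  obtain ⟨n0, hn0, hn00⟩ := (Submodule.ne_bot_iff N).1 hN.ne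
  apply hn00
  refine F.nd n0 hn0 fun v hv => ?_
  have h6 := hpB v hv (k n0)
  rw [h5, map_zero] at h6
  rw [LinearMap.compl₂_apply, ← h6]

omit H in
/-- images of irreducible subspaces -/
theorem _root_.Pool.Agent.R912.IrrSub.map {N : Submodule ℂ U} (hN : IrrSub L N)
    {k : Module.End ℂ U} (hk : k ∈ comL L) (h0 : N.map k ≠ ⊥) :
    IrrSub L (N.map k) ∧ finrank ℂ (N.map k) = finrank ℂ N := by
  have hst : ∀ x ∈ L, ∀ u ∈ N.map k, x u ∈ N.map k := by
    rintro x hx _ ⟨n, hn, rfl⟩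
    exact ⟨x n, hN.stab x hx n hn, (LinearMap.congr_fun (hk x hx) n).symm⟩
  have key : ∀ Q : Submodule ℂ U, (∀ x ∈ L, ∀ u ∈ Q, x u ∈ Q) → (∃ n ∈ N, n ≠ 0 ∧ k n ∈ Q) →
      N.map k ≤ Q := by
    intro Q hQ ⟨n, hn, hn0, hnQ⟩
    have h1 := hN.irr (N ⊓ Q.comap k) inf_le_left (fun x hx u hu => ⟨hN.stab x hx u hu.1, by
      have h5 := hQ x hx _ hu.2
      have h6 : x (k u) = k (x u) := LinearMap.congr_fun (hk x hx) u
      rw [h6] at h5
      exact h5⟩) (by
        intro hb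
        have : n ∈ N ⊓ Q.comap k := ⟨hn, hnQ⟩
        rw [hb, Submodule.mem_bot] at this
        exact hn0 this)
    rintro _ ⟨m, hm, rfl⟩
    rw [← h1] at hm
    exact hm.2
  refine ⟨⟨h0, hst, fun Q hQ hQs hQ0 => ?_⟩, ?_⟩
  · refine le_antisymm hQ (key Q hQs ?_)
    obtain ⟨q, hq, hq0⟩ := (Submodule.ne_bot_iff Q).1 hQ0
    obtain ⟨n, hn, rfl⟩ := hQ hq
    refine ⟨n, hn, ?_, hq⟩
    rintro rfl
    exact hq0 (map_zero _)
  · have h5 : LinearMap.ker (k.domRestrict N) = ⊥ := by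
      rw [LinearMap.ker_eq_bot']
      intro u hu
      by_contra hne
      apply h0
      rw [eq_bot_iff]
      refine key ⊥ (fun x _ u hu => ?_) ⟨u.1, u.2, fun h => hne (Subtype.ext h), hu⟩
      rw [Submodule.mem_bot] at hu ⊢
      rw [hu, map_zero]
    have h6 := LinearMap.finrank_range_of_inj (LinearMap.ker_eq_bot.1 h5)
    rw [← h6, LinearMap.range_domRestrict]

/-- the irreducible subspaces span -/
theorem soc : sSup {N | IrrSub L N} = (⊤ : Submodule ℂ U) := by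
  obtain ⟨P, hP⟩ : ∃ P, P = sSup {N : Submodule ℂ U | IrrSub L N} := ⟨_, rfl⟩
  have hle : ∀ N, IrrSub L N → N ≤ P := fun N hN => by rw [hP]; exact le_sSup hN
  have hst : ∀ x : Module.End ℂ U, (∀ N, IrrSub L N → ∀ u ∈ N, x u ∈ P) → ∀ u ∈ P, x u ∈ P := by
    intro x hx u hu
    have h1 : P ≤ P.comap x := by
      conv_lhs => rw [hP]
      refine sSup_le fun N hN u hu => hx N hN u hu
    exact h1 hu
  have hL : ∀ x ∈ L, ∀ u ∈ P, x u ∈ P := fun x hx => hst x fun N hN u hu =>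
    hle N hN (hN.stab x hx u hu)
  have hK : ∀ x ∈ comL L, ∀ u ∈ P, x u ∈ P := fun x hx => hst x fun N hN u hu => by
    by_cases h0 : N.map x = ⊥
    · have h1 : x u ∈ N.map x := ⟨u, hu, rfl⟩
      rw [h0, Submodule.mem_bot] at h1
      rw [h1]
      exact P.zero_mem
    · exact hle _ (hN.map hx h0).1 ⟨u, hu, rfl⟩
  obtain ⟨h1, h2⟩ := H.sup_oP (H.abs P hL hK)
  rw [← hP]
  by_cases h3 : oP ω P = ⊥
  · rw [h3, sup_bot_eq] at h1
    exact h1
  · exfalso
    obtain ⟨N, hN, hNle⟩ := exists_irrSub_le (H.oP_L hL) h3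
    apply hN.ne
    rw [eq_bot_iff, ← h2]
    exact le_inf (hle N hN) hNle

end THyp0

end Pool.Agent.R912
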