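import Pool.Agent.H86.CMLib.R912.Q.TH

set_option autoImplicit false
set_option linter.unusedSectionVars false
set_option linter.unusedSimpArgs false
set_option linter.unusedVariables false

/-!
# Representations without orthogonality defects: semisimplicity and dimensions
-/

open Module Matrix

namespace Pool.Agent.R912

open Pool.Agent.Y102.SP Q

attribute [local instance 100] LieRing.ofAssociativeRing

variable {U : Type} [AddCommGroup U] [Module ℂ U] [FiniteDimensional ℂ U]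
  {L : Submodule ℂ (Module.End ℂ U)} {ω : U →ₗ[ℂ] U →ₗ[ℂ] ℂ}

open LieAlgebra LieModule in
/-- The Lie algebra is semisimple. -/
theorem THyp0.isKilling (H : THyp0 L ω) (𝔩 : LieSubalgebra ℂ (Module.End ℂ U))
    (hL : ∀ y, y ∈ 𝔩 ↔ y ∈ L) : LieAlgebra.IsKilling ℂ 𝔩 := by
  have key : ∀ N, IrrSub L N → ∀ y ∈ radical ℂ 𝔩, ∀ w ∈ N, y.1 w = 0 := by
    intro N hN y hy
    obtain ⟨k, hk, ε, hε, F⟩ := H.exists_frm hN
    let M : LieSubmodule ℂ 𝔩 U := { N with
      lie_mem := fun {y u} hu => hN.stab y.1 ((hL _).1 y.2) u hu }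
    have : Nontrivial M := by
      obtain ⟨u, hu, hu0⟩ := (Submodule.ne_bot_iff _).1 hN.ne
      exact nontrivial_of_ne (⟨u, hu⟩ : M) 0 (fun h => hu0 (congrArg Subtype.val h))
    obtain ⟨χ, hχ⟩ := exists_nontrivial_weightSpace_of_isSolvable ℂ (radical ℂ 𝔩) M
    let P' : LieSubmodule ℂ 𝔩 M := weightSpaceOfIsLieTower ℂ M χ
    have hP' : ∀ v : M, v ∈ P' ↔ ∀ y : radical ℂ 𝔩, ⁅y, v⁆ = χ y • v := fun v =>
      mem_weightSpace _ v
    let P : Submodule ℂ U := P'.toSubmodule.map (M.incl : M →ₗ[ℂ] U)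
    have hPN : P ≤ N := by
      rintro _ ⟨v, _, rfl⟩
      exact v.2
    have hPL : ∀ z ∈ L, ∀ u ∈ P, z u ∈ P := by
      rintro z hz _ ⟨v, hv, rfl⟩
      exact ⟨⁅(⟨z, (hL z).2 hz⟩ : 𝔩), v⁆, P'.lie_mem hv, rfl⟩
    have hP0 : P ≠ ⊥ := by
      obtain ⟨v, hv⟩ := exists_ne (0 : weightSpace M χ)
      intro hb
      have h1 : v.1.1 ∈ P := ⟨v.1, v.2, rfl⟩
      rw [hb, Submodule.mem_bot] at h1
      exact hv (Subtype.ext (Subtype.ext h1))
    have hPeq := hN.irr P hPN hPL hP0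
    have hact : ∀ w ∈ N, y.1 w = χ ⟨y, hy⟩ • w := by
      intro w hw
      rw [← hPeq] at hw
      obtain ⟨v, hv, rfl⟩ := hw
      exact congrArg Subtype.val ((hP' v).1 hv ⟨y, hy⟩)
    have hyL : y.1 ∈ L := (hL _).1 y.2
    by_contra hcon
    push Not at hcon
    obtain ⟨w, hw, hw0⟩ := hcon
    have hχ0 : χ ⟨y, hy⟩ ≠ 0 := by
      intro h0
      rw [hact w hw, h0, zero_smul] at hw0
      exact hw0 rfl
    have hw1 : w ≠ 0 := by
      rintro rfl
      exact hw0 (map_zero _)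
    apply hw1
    refine F.nd w hw fun v hv => ?_
    have h1 := F.skew y.1 hyL v hv w hw
    rw [hact v hv, hact w hw, map_smul, map_smul, LinearMap.smul_apply, smul_eq_mul] at h1
    have h2 : χ ⟨y, hy⟩ * (ω.compl₂ k) v w = 0 := by linear_combination (1 / 2) * h1
    exact (mul_eq_zero.1 h2).resolve_left hχ0
  have : HasTrivialRadical ℂ 𝔩 := by
    constructor
    rw [eq_bot_iff]
    intro y hy
    have hyL : y.1 ∈ L := (hL _).1 y.2
    have h1 : y.1 = 0 := by
      refine LinearMap.ext fun u => ?_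
      have h2 : (⊤ : Submodule ℂ U) ≤ LinearMap.ker y.1 := by
        rw [← H.soc]
        refine sSup_le fun N hN u hu => ?_
        exact key N hN y hy u hu
      exact h2 (x := u) trivial
    rw [LieSubmodule.mem_bot]
    exact Subtype.ext h1
  infer_instance

namespace THyp0

variable (H : THyp0 L ω)
include H

omit H in
/-- a nondegenerate alternating form on a space of odd dimension does not exist -/
theorem _root_.Pool.Agent.R912.even_of_alt {N : Type} [AddCommGroup N] [Module ℂ N]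
    [FiniteDimensional ℂ N] (β : N →ₗ[ℂ] N →ₗ[ℂ] ℂ) (ha : ∀ u v, β u v = -β v u)
    (hn : ∀ u, (∀ v, β v u = 0) → u = 0) : Even (finrank ℂ N) := by
  obtain ⟨b, -⟩ : ∃ b : Basis (Fin (finrank ℂ N)) ℂ N, b = Module.finBasis ℂ N := ⟨_, rfl⟩
  obtain ⟨A, hAdef⟩ : ∃ A, A = LinearMap.toMatrix₂ b b β := ⟨_, rfl⟩
  have hA : A.transpose = -A := by
    ext i j
    rw [Matrix.transpose_apply, Matrix.neg_apply, hAdef, LinearMap.toMatrix₂_apply,
      LinearMap.toMatrix₂_apply, ha]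
  have hnd : β.Nondegenerate := by
    refine ⟨fun u hu => hn u fun v => ?_, fun u hu => hn u hu⟩
    rw [ha, hu, neg_zero]
  have hdet : A.det ≠ 0 := by
    rw [hAdef]
    exact (LinearMap.nondegenerate_iff_det_ne_zero b).1 hnd
  have h1 : A.det = (-1) ^ (finrank ℂ N) * A.det := by
    conv_lhs => rw [← Matrix.det_transpose, hA, Matrix.det_neg, Fintype.card_fin]
  by_contra hodd
  rw [Nat.not_even_iff_odd] at hodd
  rw [hodd.neg_one_pow] at h1
  apply hdet
  linear_combination (1 / 2) * h1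

/-- **The dimensions are even** if there is a complex structure. -/
theorem even_of_J (HJ : ∃ J : Module.End ℂ U, J * J = -1 ∧ (∀ u v, ω (J u) v + ω u (J v) = 0) ∧
    (∀ P : Submodule ℂ U, (∀ x ∈ L, ∀ u ∈ P, x u ∈ P) → ∀ u ∈ P, J u ∈ P) ∧
    ∀ k ∈ comL L, J * k = k * J) {N : Submodule ℂ U} (hN : IrrSub L N) : Even (finrank ℂ N) := by
  obtain ⟨k, hk, ε, hε, F⟩ := H.exists_frm hN
  obtain ⟨J, hJ2, hJs, hJP, hJk⟩ := HJ
  have hJN := hJP N hN.stab
  have hJinj : ∀ u, J u = 0 → u = 0 := by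
    intro u hu
    have h1 : (J * J) u = 0 := by rw [Module.End.mul_apply, hu, map_zero]
    rw [hJ2, LinearMap.neg_apply, Module.End.one_apply, neg_eq_zero] at h1
    exact h1
  rcases hε with hε | hε
  · -- orthogonal
    let β : N →ₗ[ℂ] N →ₗ[ℂ] ℂ := (LinearMap.lcomp ℂ ℂ N.subtype) ∘ₗ ((ω.compl₂ k) ∘ₗ J) ∘ₗ N.subtype
    have hβ : ∀ u v : N, β u v = (ω.compl₂ k) (J u.1) v.1 := fun u v => rfl
    have hBJ : ∀ u v, (ω.compl₂ k) (J u) v = -(ω.compl₂ k) u (J v) := by
      intro u v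
      rw [LinearMap.compl₂_apply, LinearMap.compl₂_apply]
      have h1 : k (J v) = J (k v) := (LinearMap.congr_fun (hJk k hk) v).symm
      rw [h1]
      linear_combination hJs u (k v)
    refine even_of_alt β (fun u v => ?_) fun u hu => ?_
    · rw [hβ, hβ, hBJ u.1 v.1, F.sym _ u.2 _ (hJN _ v.2), hε, one_mul]
    · refine Subtype.ext (F.nd _ u.2 fun v hv => ?_)
      have h1 := hu ⟨J v, hJN v hv⟩
      rw [hβ] at h1
      have h2 : J (J v) = -v := by
        rw [← Module.End.mul_apply, hJ2, LinearMap.neg_apply, Module.End.one_apply]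
      rw [h2, map_neg, LinearMap.neg_apply, neg_eq_zero] at h1
      exact h1
  · let β : N →ₗ[ℂ] N →ₗ[ℂ] ℂ := (LinearMap.lcomp ℂ ℂ N.subtype) ∘ₗ (ω.compl₂ k) ∘ₗ N.subtype
    have hβ : ∀ u v : N, β u v = (ω.compl₂ k) u.1 v.1 := fun u v => rfl
    refine even_of_alt β (fun u v => ?_) fun u hu => ?_
    · rw [hβ, hβ, F.sym _ u.2 _ v.2, hε]
      ring
    · refine Subtype.ext (F.nd _ u.2 fun v hv => ?_)
      exact hu ⟨v, hv⟩

end THyp0

/-- The hypotheses. -/
structure THyp (L : Submodule ℂ (Module.End ℂ U)) (ω : U →ₗ[ℂ] U →ₗ[ℂ] ℂ) : Prop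
    extends THyp0 L ω where
  even' : ∀ N : Submodule ℂ U, IrrSub L N → Even (finrank ℂ N)

namespace THyp

variable (H : THyp L ω)
include H

theorem even {N : Submodule ℂ U} (hN : IrrSub L N) : Even (finrank ℂ N) := H.even' N hN

theorem two_le {N : Submodule ℂ U} (hN : IrrSub L N) : 2 ≤ finrank ℂ N := by
  have h1 := H.even hN
  have : Nontrivial N := Submodule.nontrivial_iff_ne_bot.2 hN.ne
  have h2 : 0 < finrank ℂ N := finrank_pos
  obtain ⟨m, hm⟩ := h1
  omega

end THyp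

end Pool.Agent.R912
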