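import Pool.Agent.H86.CMLib.R912.Q.TH3

set_option autoImplicit false
set_option linter.unusedSectionVars false
set_option linter.unusedSimpArgs false
set_option linter.unusedVariables false

/-!
# Forms of degree four on spaces of dimension eight
-/

open Module Matrix

namespace Pool.Agent.R912

open Pool.Agent.Y102.SP Q

attribute [local instance 100] LieRing.ofAssociativeRing

variable {U : Type} [AddCommGroup U] [Module ℂ U] [FiniteDimensional ℂ U]
  {L : Submodule ℂ (Module.End ℂ U)} {ω : U →ₗ[ℂ] U →ₗ[ℂ] ℂ}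
  {T : Type} [AddCommGroup T] [Module ℂ T]

namespace GB

variable {S : RS L T} {blk : Fin 4 → ℕ} {e : Fin 4 × Bool → U}
  {w : Fin 4 × Bool → Module.Dual ℂ T} (h : GB S ⊤ ω 4 blk e w) (F : Frm L ⊤ ω (-1)) {ψ : Q4 U}
  (hψ : ∀ x ∈ L, Kill4 ⊤ ψ x) (hA : Alt4 ψ)
include h F hψ hA

theorem kill_blk {s : Set (Fin 4)} {i0 : Fin 4} (hs : ∀ i, i ∈ s ↔ blk i = blk i0)
    (h2 : ∀ i ∈ s, ∃ j ∈ s, j ≠ i)
    (hreg : ∀ a b c d, Fψ ψ e a b c d ≠ 0 → ∀ i ∈ s, NN i a b c d = 0)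
    {m : Matrix (Fin 4 × Bool) (Fin 4 × Bool) ℂ} (hm : m ∈ Sk (-1) 4)
    (hms : ∀ p q : Fin 4 × Bool, ¬ (p.1 ∈ s ∧ q.1 ∈ s) → m p q = 0) : m ∈ MM ψ e blk := by
  refine bSk_le (M := MM ψ e blk) (s := s) (fun x hx => hx.1.2) ?_ ?_ h2 hm hms
  · have h1 : blkS s = {p : Fin 4 × Bool | blk p.1 = blk i0} := by
      ext p
      exact hs p.1
    rw [h1]
    exact h.irrOn (fun _ _ _ _ => trivial) F hψ i0
  · intro f hf
    refine GB.dg_mem fun a b c d hne => ?_
    rw [til_NN]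
    refine Finset.sum_eq_zero fun i _ => ?_
    by_cases hi : i ∈ s
    · rw [hreg a b c d hne i hi, zero_mul]
    · rw [hf i hi, mul_zero]

/-- endomorphisms supported on a block -/
theorem kill_supp {s : Set (Fin 4)} {i0 : Fin 4} (hs : ∀ i, i ∈ s ↔ blk i = blk i0)
    (h2 : ∀ i ∈ s, ∃ j ∈ s, j ≠ i)
    (hreg : ∀ a b c d, Fψ ψ e a b c d ≠ 0 → ∀ i ∈ s, NN i a b c d = 0)
    {Y : Module.End ℂ U} (hY : ∀ u v, ω (Y u) v + ω u (Y v) = 0)
    (hY0 : ∀ p : Fin 4 × Bool, p.1 ∉ s → Y (e p) = 0) : Kill4 ⊤ ψ Y := by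
  refine h.cb.kill_of_KF neg1 (fun _ _ => trivial) ?_
  refine (h.kill_blk F hψ hA hs h2 hreg
    (h.cb.MX_Sk neg1 (fun _ _ => trivial) (fun u _ v _ => hY u v) F.sym) ?_).1.1
  intro p q hpq
  rw [MX_apply]
  by_cases hq : q.1 ∈ s
  · have hp : p.1 ∉ s := fun hp => hpq ⟨hp, hq⟩
    have h1 := hY (e q) (e (bar p))
    rw [hY0 (bar p) hp, map_zero, add_zero] at h1
    rw [h1, mul_zero]
  · rw [hY0 q hq, map_zero, LinearMap.zero_apply, mul_zero]

end GB

namespace THyp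

variable (H : THyp L ω)
include H

theorem frmTop : Frm L ⊤ ω (-1) :=
  ⟨fun x hx u _ v _ => H.skew x hx u v, fun u _ hu => H.nd u fun v => hu v trivial,
    fun u _ v _ => by rw [H.alt]; ring⟩

theorem qhyp {N : Submodule ℂ U} (hN : IrrSub L N) (hP : PK L N = ⊤) : QHyp L (comL L) ω where
  br := H.br
  skew := H.skew
  alt := H.alt
  nd := H.nd
  comm := fun x hx k hk => hk x hx
  Kmul := fun k hk l hl => mul_comL hk hl
  Kone := one_comL
  full := by
    intro P h1 h2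
    have key : ∀ Q : Submodule ℂ U, (∀ x ∈ comL L, ∀ u ∈ Q, x u ∈ Q) → N ≤ Q → Q = ⊤ := by
      intro Q hQ hle
      rw [eq_top_iff, ← hP]
      unfold PK
      rw [Submodule.span_le]
      rintro _ ⟨k, hk, n, hn, rfl⟩
      exact hQ k hk n (hle hn)
    rcases H.dich hN h1 h2 with h3 | h3
    · exact Or.inr (key P h2 h3)
    · have h4 := key _ (H.oP_K h2) h3
      left
      obtain ⟨-, h5⟩ := H.sup_oP (H.abs P h1 h2)
      rw [h4, inf_top_eq] at h5
      exact h5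

/-- all irreducible subspaces have dimension two -/
theorem main2 (S : RS L T) (hU : finrank ℂ U = 8) {ψ : Q4 U}
    (hψ : ∀ x ∈ L, Kill4 ⊤ ψ x) {X : Module.End ℂ U}
    (hX1 : ∀ P : Submodule ℂ U, (∀ x ∈ L, ∀ u ∈ P, x u ∈ P) → ∀ u ∈ P, X u ∈ P)
    (hX2 : ∀ K : Module.End ℂ U, (∀ x ∈ L, x * K = K * x) → X * K = K * X)
    (hX3 : ∀ u v, ω (X u) v + ω u (X v) = 0)
    (h2 : ∀ N, IrrSub L N → finrank ℂ N = 2) : Kill4 ⊤ ψ X := by
  obtain ⟨e, w, h⟩ := H.decomp S 0 4 ⊤ (fun _ _ _ _ => trivial)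
    (fun u _ hu => H.nd u fun v => hu v trivial) (fun N hN _ => h2 N hN)
    (by rw [finrank_top, hU])
  obtain ⟨x, hx, hxX⟩ := h.two (fun i j hij => by
    have : i.val = j.val := by omega
    exact Fin.ext this) H.alt H.skew H.br hX1 hX2 hX3
  have h1 : X = x := LinearMap.ext fun u => hxX u trivial
  rw [h1]
  exact hψ x hx

/-- an irreducible subspace of dimension six -/
theorem main6 (S : RS L T) (hU : finrank ℂ U = 8) {ψ : Q4 U} (hA : Alt4 ψ)
    (hψ : ∀ x ∈ L, Kill4 ⊤ ψ x) {X : Module.End ℂ U}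
    (hX1 : ∀ P : Submodule ℂ U, (∀ x ∈ L, ∀ u ∈ P, x u ∈ P) → ∀ u ∈ P, X u ∈ P)
    (hX2 : ∀ K : Module.End ℂ U, (∀ x ∈ L, x * K = K * x) → X * K = K * X)
    (hX3 : ∀ u v, ω (X u) v + ω u (X v) = 0)
    {N : Submodule ℂ U} (hN : IrrSub L N) (hd : finrank ℂ N = 6)
    (hnd : ∀ u ∈ N, (∀ v ∈ N, ω v u = 0) → u = 0) : Kill4 ⊤ ψ X := by
  have F := H.frm_nd hN hnd
  obtain ⟨k1, k2⟩ := H.sup_oP hnd
  obtain ⟨s1, s2, s3⟩ := H.split (R := ⊤) (fun u _ hu => H.nd u fun v => hu v trivial) le_top hnd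
  rw [top_inf_eq] at s1 s2 s3
  rw [finrank_top, hU, hd] at s2
  have hR := H.oP_L hN.stab
  obtain ⟨eN, wN, hGN⟩ := exists_gb (ω := ω) S hN F (m := 3) (by omega) (by omega) 0
  obtain ⟨eR, wR, hGR⟩ := H.decomp S 1 1 (oP ω N) hR s3 (fun V hV hVR => by
    have h1 := Submodule.finrank_mono hVR
    have h2 := H.two_le hV
    omega) (by omega)
  have hG := hGN.glue hGR (fun u hu v hv => hv u hu)
    (fun u hu v hv => by rw [H.alt, hv u hu, neg_zero]) (fun i j => by omega)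
  rw [k1] at hG
  have hb : Fin.append (fun _ : Fin 3 => 0) (fun i : Fin 1 => 1 + i.val) = b31 := by
    funext i; fin_cases i <;> rfl
  obtain ⟨e, he⟩ : ∃ e : Fin 4 × Bool → U, e = ap eN eR := ⟨_, rfl⟩
  obtain ⟨w, hw⟩ : ∃ w : Fin 4 × Bool → Module.Dual ℂ T, w = ap wN wR := ⟨_, rfl⟩
  have hG' : GB S ⊤ ω 4 b31 e w := by
    rw [he, hw, ← hb]
    exact hG
  obtain ⟨φ, g⟩ := exists_gen (S := S) hG'.ne
  obtain ⟨x, hx, hxX⟩ := hGR.two (fun i j hij => Subsingleton.elim _ _) H.alt H.skew H.br hX1 hX2 hX3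
  have hY : Kill4 ⊤ ψ (X - x) := by
    refine hG'.kill_supp H.frmTop hψ hA (s := {i | i ≠ 3}) (i0 := 0) ?_ ?_ ?_ ?_ ?_
    · have : ∀ i : Fin 4, i ≠ 3 ↔ b31 i = b31 0 := by decide
      exact this
    · have : ∀ i : Fin 4, i ≠ 3 → ∃ j : Fin 4, j ≠ 3 ∧ j ≠ i := by decide
      exact this
    · intro a b c d hne i hi
      obtain ⟨r0, r1, r2, r3⟩ := hG'.reg31 g (fun _ _ _ _ => trivial) H.frmTop hψ hA hne
      fin_cases i
      · exact r0
      · exact r1
      · exact r2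
      · exact r3
    · intro u v
      have h1 := hX3 u v
      have h2 := H.skew x hx u v
      rw [LinearMap.sub_apply, LinearMap.sub_apply, map_sub, map_sub, LinearMap.sub_apply]
      linear_combination h1 - h2
    · rintro ⟨i, b⟩ hi
      have hi3 : i = 3 := by
        by_contra hne
        exact hi hne
      subst hi3
      have h1 : e (3, b) = eR (0, b) := by
        rw [he]
        exact ap_right eN eR 0 b
      rw [h1, LinearMap.sub_apply, hxX _ (hGR.mem _), sub_self]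
  have hX : X = (X - x) + x := by abel
  rw [hX]
  intro a ha b hb c hc d hd
  have h1 := hY a ha b hb c hc d hd
  have h2 := hψ x hx a ha b hb c hc d hd
  rw [LinearMap.add_apply, LinearMap.add_apply, LinearMap.add_apply, LinearMap.add_apply,
    map_add, map_add, map_add, map_add, LinearMap.add_apply, LinearMap.add_apply,
    LinearMap.add_apply, LinearMap.add_apply, LinearMap.add_apply, LinearMap.add_apply]
  linear_combination h1 + h2

end THyp

end Pool.Agent.R912
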