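import Pool.Agent.H86.CMLib.R912.Q.BSp

set_option autoImplicit false
set_option linter.unusedSectionVars false
set_option linter.unusedSimpArgs false

/-!
# Forms which are annihilated by Lie algebras of block matrices
-/

open Matrix

namespace Pool.Agent.R912.Q

/-- alternating forms, in coordinates -/
structure AltT {I : Type} (F : Ten I) : Prop where
  s1 : ∀ a b c d, F b a c d = -F a b c d
  s2 : ∀ a b c d, F a c b d = -F a b c d
  s3 : ∀ a b c d, F a b d c = -F a b c d

namespace AltT

variable {I : Type} {F : Ten I} (h : AltT F)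
include h

theorem z1 (a c d : I) : F a a c d = 0 := by
  linear_combination (1 / 2) * h.s1 a a c d

theorem z2 (a b d : I) : F a b b d = 0 := by
  linear_combination (1 / 2) * h.s2 a b b d

theorem z3 (a b c : I) : F a b c c = 0 := by
  linear_combination (1 / 2) * h.s3 a b c c

theorem z4 (a b d : I) : F a b a d = 0 := by
  linear_combination h.s1 a b a d - h.z2 b a d

theorem z5 (a b c : I) : F a b c b = 0 := by
  linear_combination h.s2 a b c b - h.z3 a c b

theorem z6 (a b c : I) : F a b c a = 0 := by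
  linear_combination h.s1 a b c a - h.z5 b a c

end AltT

section Nu

variable {I : Type} [Fintype I] [DecidableEq I] {x : Matrix I I ℂ} {ν : I → I}

/-- matrices with at most one entry in each column -/
theorem DD_nu (hν : ∀ i j, i ≠ ν j → x i j = 0) (F : Ten I) (a b c d : I) :
    DD x F a b c d = x (ν a) a * F (ν a) b c d + x (ν b) b * F a (ν b) c d +
      x (ν c) c * F a b (ν c) d + x (ν d) d * F a b c (ν d) := by
  unfold DD D1 D2 D3 D4
  rw [Finset.sum_eq_single (ν a), Finset.sum_eq_single (ν b), Finset.sum_eq_single (ν c),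
    Finset.sum_eq_single (ν d)]
  all_goals first
    | (intro q _ hq; rw [hν _ _ hq, zero_mul])
    | (intro hq; exact absurd (Finset.mem_univ _) hq)

end Nu

/-- a table -/
def tab (t0 f0 t1 f1 t2 f2 t3 f3 : Fin 4 × Bool) : Fin 4 × Bool → Fin 4 × Bool := fun p =>
  if p.2 then ![t0, t1, t2, t3] p.1 else ![f0, f1, f2, f3] p.1

/-- A Lie algebra of block matrices which annihilates an alternating form. -/
structure BD (blk : Fin 4 → ℕ) (F : Ten (Fin 4 × Bool))
    (M : Submodule ℂ (Matrix (Fin 4 × Bool) (Fin 4 × Bool) ℂ)) : Prop where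
  sk : M ≤ Sk (-1) 4
  kf : M ≤ KF F
  bk : ∀ x ∈ M, ∀ i j : Fin 4 × Bool, blk i.1 ≠ blk j.1 → x i j = 0
  irr : ∀ i, IrrOn M {p | blk p.1 = blk i}
  dgm : ∀ h : Fin 4 → ℤ, (∀ a b c d, F a b c d ≠ 0 →
    til h a + til h b + til h c + til h d = 0) → dg h ∈ M
  alt : AltT F

namespace BD

variable {blk : Fin 4 → ℕ} {F : Ten (Fin 4 × Bool)}
  {M : Submodule ℂ (Matrix (Fin 4 × Bool) (Fin 4 × Bool) ℂ)} (H : BD blk F M)
include H

theorem top {h : Fin 4 → ℤ} (hh : dg h ∈ M) {i0 i1 : Fin 4 × Bool} (hb : blk i1.1 = blk i0.1)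
    (h10 : til h i1 < til h i0) (hmax : ∀ j : Fin 4 × Bool, blk j.1 = blk i0.1 → j ≠ i0 →
      j ≠ i1 → til h j < til h i1) :
    ∃ x ∈ M, x i1 i0 ≠ 0 ∧ ∀ i j, til h i - til h j ≠ til h i1 - til h i0 → x i j = 0 :=
  (H.irr i0.1).top_two (nrm_of_dg (H.irr 0).br hh) rfl hb h10 hmax

/-- the shape of a matrix in `M` of a given degree -/
theorem shape {h : Fin 4 → ℤ} {c : ℤ} {x : Matrix (Fin 4 × Bool) (Fin 4 × Bool) ℂ} (hx : x ∈ M)
    (hz : ∀ i j, til h i - til h j ≠ c → x i j = 0) {ν : Fin 4 × Bool → Fin 4 × Bool}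
    (hν : ∀ i j : Fin 4 × Bool, blk i.1 = blk j.1 → til h i - til h j = c → i = ν j) :
    ∀ i j, i ≠ ν j → x i j = 0 := by
  intro i j hij
  by_cases h1 : blk i.1 = blk j.1
  · exact hz i j fun h2 => hij (hν i j h1 h2)
  · exact H.bk x hx i j h1

/-- **The lowest root vector.** -/
theorem low {h1 h2 : Fin 4 → ℤ} (m1 : dg h1 ∈ M) (m2 : dg h2 ∈ M) (b1 : blk 1 = blk 0)
    (t1 : til h1 (1, true) < til h1 (0, true))
    (t1' : ∀ j : Fin 4 × Bool, blk j.1 = blk 0 → j ≠ (0, true) → j ≠ (1, true) →
      til h1 j < til h1 (1, true))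
    (s1 : ∀ i j : Fin 4 × Bool, blk i.1 = blk j.1 →
      til h1 i - til h1 j = til h1 (1, true) - til h1 (0, true) →
      (i = (1, true) ∧ j = (0, true)) ∨ (i = (0, false) ∧ j = (1, false)))
    (t2 : til h2 (1, false) < til h2 (0, true))
    (t2' : ∀ j : Fin 4 × Bool, blk j.1 = blk 0 → j ≠ (0, true) → j ≠ (1, false) →
      til h2 j < til h2 (1, false))
    (s2 : ∀ i j : Fin 4 × Bool, blk i.1 = blk 0 → blk j.1 = blk 0 →
      til h2 i - til h2 j = til h2 (1, false) - til h2 (0, true) →
      (i = (1, false) ∧ j = (0, true)) ∨ (i = (0, false) ∧ j = (1, true))) :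
    Matrix.single ((0 : Fin 4), false) ((0 : Fin 4), true) (1 : ℂ) ∈ M := by
  classical
  have hε : (-1 : ℂ) * -1 = 1 := by norm_num
  obtain ⟨x, hx, hx0, hxz⟩ := H.top m1 (i0 := (0, true)) (i1 := (1, true)) b1 t1 t1'
  obtain ⟨y, hy, hy0, hyz⟩ := H.top m2 (i0 := (0, true)) (i1 := (1, false)) b1 t2 t2'
  have hxs : ∀ i j : Fin 4 × Bool, ¬ ((i = (1, true) ∧ j = (0, true)) ∨
      (i = (0, false) ∧ j = (1, false))) → x i j = 0 := by
    intro i j hij
    by_cases hb : blk i.1 = blk j.1
    · exact hxz i j fun h3 => hij (s1 i j hb h3)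
    · exact H.bk x hx i j hb
  have hys : ∀ i j : Fin 4 × Bool, blk i.1 = blk 0 ∨ blk j.1 = blk 0 → ¬ ((i = (1, false) ∧
      j = (0, true)) ∨ (i = (0, false) ∧ j = (1, true))) → y i j = 0 := by
    intro i j h0 hij
    by_cases hb : blk i.1 = blk j.1
    · have hi : blk i.1 = blk 0 := by
        rcases h0 with h | h
        · exact h
        · rw [hb, h]
      have hj : blk j.1 = blk 0 := by rw [← hb, hi]
      exact hyz i j fun h3 => hij (s2 i j hi hj h3)
    · exact H.bk y hy i j hb
  have hxb : x (0, false) (1, false) = -x (1, true) (0, true) := by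
    have h3 := Sk_bar hε (H.sk hx) ((0 : Fin 4), true) ((1 : Fin 4), true)
    simp only [bar, sg, Bool.not_true, if_true, mul_one, one_mul] at h3
    exact h3
  have hyb : y (0, false) (1, true) = y (1, false) (0, true) := by
    have h3 := Sk_bar hε (H.sk hy) ((0 : Fin 4), true) ((1 : Fin 4), false)
    simp only [bar, sg, Bool.not_true, Bool.not_false, if_true, Bool.false_eq_true, if_false,
      mul_one, one_mul] at h3
    rw [h3]
    ring
  have hbr := (H.irr 0).br x hx y hy
  have he : x * y - y * x = (-2 * (x (1, true) (0, true) * y (1, false) (0, true))) •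
      Matrix.single ((0 : Fin 4), false) ((0 : Fin 4), true) (1 : ℂ) := by
    have e1 : x * y = (x (0, false) (1, false) * y (1, false) (0, true)) •
        Matrix.single ((0 : Fin 4), false) ((0 : Fin 4), true) (1 : ℂ) := by
      ext i j
      rw [Matrix.mul_apply, Matrix.smul_apply, smul_eq_mul]
      by_cases hij : ((0 : Fin 4), false) = i ∧ ((0 : Fin 4), true) = j
      · obtain ⟨rfl, rfl⟩ := hij
        rw [Matrix.single_apply_same, mul_one, Finset.sum_eq_single ((1 : Fin 4), false)]
        · intro q _ hq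
          rw [hxs _ _ (by
            rintro (⟨h3, -⟩ | ⟨-, h3⟩)
            · simp at h3
            · exact hq h3), zero_mul]
        · intro hq
          exact absurd (Finset.mem_univ _) hq
      · rw [Matrix.single_apply_of_ne _ _ _ _ _ hij, mul_zero]
        refine Finset.sum_eq_zero fun q _ => ?_
        by_cases hq1 : i = (1, true) ∧ q = (0, true)
        · obtain ⟨rfl, rfl⟩ := hq1
          rw [hys _ _ (Or.inl rfl) (by simp), mul_zero]
        · by_cases hq2 : i = (0, false) ∧ q = (1, false)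
          · obtain ⟨rfl, rfl⟩ := hq2
            rw [hys _ _ (Or.inl b1) (by
              rintro (⟨-, h3⟩ | ⟨h3, -⟩)
              · exact hij ⟨rfl, h3.symm⟩
              · simp at h3), mul_zero]
          · rw [hxs _ _ (fun h3 => h3.elim hq1 hq2), zero_mul]
    have e2 : y * x = (y (0, false) (1, true) * x (1, true) (0, true)) •
        Matrix.single ((0 : Fin 4), false) ((0 : Fin 4), true) (1 : ℂ) := by
      ext i j
      rw [Matrix.mul_apply, Matrix.smul_apply, smul_eq_mul]
      by_cases hij : ((0 : Fin 4), false) = i ∧ ((0 : Fin 4), true) = j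
      · obtain ⟨rfl, rfl⟩ := hij
        rw [Matrix.single_apply_same, mul_one, Finset.sum_eq_single ((1 : Fin 4), true)]
        · intro q _ hq
          rw [hxs _ _ (by
            rintro (⟨h3, -⟩ | ⟨-, h3⟩)
            · exact hq h3
            · simp at h3), mul_zero]
        · intro hq
          exact absurd (Finset.mem_univ _) hq
      · rw [Matrix.single_apply_of_ne _ _ _ _ _ hij, mul_zero]
        refine Finset.sum_eq_zero fun q _ => ?_
        by_cases hq1 : q = (1, true) ∧ j = (0, true)
        · obtain ⟨rfl, rfl⟩ := hq1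
          rw [hys _ _ (Or.inr b1) (by
              rintro (⟨-, h3⟩ | ⟨h3, -⟩)
              · simp at h3
              · exact hij ⟨h3.symm, rfl⟩), zero_mul]
        · by_cases hq2 : q = (0, false) ∧ j = (1, false)
          · obtain ⟨rfl, rfl⟩ := hq2
            rw [hys _ _ (Or.inr rfl) (by simp), zero_mul]
          · rw [hxs _ _ (fun h3 => h3.elim hq1 hq2), mul_zero]
    rw [e1, e2, hxb, hyb, ← sub_smul]
    congr 1
    ring
  rw [he] at hbr
  have hne : (-2 * (x (1, true) (0, true) * y (1, false) (0, true))) ≠ 0 :=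
    mul_ne_zero (by norm_num) (mul_ne_zero hx0 hy0)
  have h3 := M.smul_mem (-2 * (x (1, true) (0, true) * y (1, false) (0, true)))⁻¹ hbr
  rwa [smul_smul, inv_mul_cancel₀ hne, one_smul] at h3

/-- The form vanishes on some vectors. -/
theorem kill_single {p q : Fin 4 × Bool} (hm : Matrix.single p q (1 : ℂ) ∈ M)
    {b c d : Fin 4 × Bool} (hb : b ≠ q) (hc : c ≠ q) (hd : d ≠ q) : F p b c d = 0 := by
  classical
  have h1 := H.kf hm q b c d
  unfold DD D1 D2 D3 D4 at h1
  rw [Finset.sum_eq_single p, Finset.sum_eq_zero, Finset.sum_eq_zero, Finset.sum_eq_zero,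
    Matrix.single_apply_same] at h1
  · linear_combination h1
  · intro r _
    rw [Matrix.single_apply_of_ne _ _ _ _ _ (fun h => hd h.2.symm), zero_mul]
  · intro r _
    rw [Matrix.single_apply_of_ne _ _ _ _ _ (fun h => hc h.2.symm), zero_mul]
  · intro r _
    rw [Matrix.single_apply_of_ne _ _ _ _ _ (fun h => hb h.2.symm), zero_mul]
  · intro r _ hr
    rw [Matrix.single_apply_of_ne _ _ _ _ _ (fun h => hr h.1.symm), zero_mul]
  · intro h
    exact absurd (Finset.mem_univ _) h

end BD

end Pool.Agent.R912.Q
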