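import Pool.Agent.H86.CMLib.R912.Q.Top

set_option autoImplicit false
set_option linter.unusedSectionVars false

/-!
# The action of matrices on forms in four variables
-/

open Matrix

namespace Pool.Agent.R912.Q

variable {I : Type} [Fintype I] [DecidableEq I]

/-- forms in four variables, in coordinates -/
abbrev Ten (I : Type) : Type := I → I → I → I → ℂ

def D1 (x : Matrix I I ℂ) (F : Ten I) : Ten I := fun a b c d => ∑ q, x q a * F q b c d
def D2 (x : Matrix I I ℂ) (F : Ten I) : Ten I := fun a b c d => ∑ q, x q b * F a q c d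
def D3 (x : Matrix I I ℂ) (F : Ten I) : Ten I := fun a b c d => ∑ q, x q c * F a b q d
def D4 (x : Matrix I I ℂ) (F : Ten I) : Ten I := fun a b c d => ∑ q, x q d * F a b c q

/-- the action of a matrix as a derivation -/
def DD (x : Matrix I I ℂ) (F : Ten I) : Ten I := fun a b c d =>
  D1 x F a b c d + D2 x F a b c d + D3 x F a b c d + D4 x F a b c d

/-- the matrices which annihilate the form -/
def KF (F : Ten I) : Submodule ℂ (Matrix I I ℂ) where
  carrier := {x | ∀ a b c d, DD x F a b c d = 0}
  zero_mem' := fun a b c d => by simp [DD, D1, D2, D3, D4]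
  add_mem' := fun {x y} hx hy a b c d => by
    have h1 := hx a b c d
    have h2 := hy a b c d
    simp only [DD, D1, D2, D3, D4, Matrix.add_apply, add_mul, Finset.sum_add_distrib] at h1 h2 ⊢
    linear_combination h1 + h2
  smul_mem' := fun r x hx a b c d => by
    have h1 := hx a b c d
    simp only [DD, D1, D2, D3, D4, Matrix.smul_apply, smul_eq_mul, mul_assoc,
      ← Finset.mul_sum] at h1 ⊢
    rw [← mul_add, ← mul_add, ← mul_add, h1, mul_zero]

theorem mem_KF {F : Ten I} {x : Matrix I I ℂ} : x ∈ KF F ↔ ∀ a b c d, DD x F a b c d = 0 :=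
  Iff.rfl

section Mul

variable (x y : Matrix I I ℂ) (F : Ten I)

theorem D11 : D1 x (D1 y F) = D1 (y * x) F := by
  funext a b c d
  simp only [D1, Matrix.mul_apply, Finset.mul_sum, Finset.sum_mul]
  rw [Finset.sum_comm]
  exact Finset.sum_congr rfl fun p _ => Finset.sum_congr rfl fun q _ => by ring

theorem D22 : D2 x (D2 y F) = D2 (y * x) F := by
  funext a b c d
  simp only [D2, Matrix.mul_apply, Finset.mul_sum, Finset.sum_mul]
  rw [Finset.sum_comm]
  exact Finset.sum_congr rfl fun p _ => Finset.sum_congr rfl fun q _ => by ring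

theorem D33 : D3 x (D3 y F) = D3 (y * x) F := by
  funext a b c d
  simp only [D3, Matrix.mul_apply, Finset.mul_sum, Finset.sum_mul]
  rw [Finset.sum_comm]
  exact Finset.sum_congr rfl fun p _ => Finset.sum_congr rfl fun q _ => by ring

theorem D44 : D4 x (D4 y F) = D4 (y * x) F := by
  funext a b c d
  simp only [D4, Matrix.mul_apply, Finset.mul_sum, Finset.sum_mul]
  rw [Finset.sum_comm]
  exact Finset.sum_congr rfl fun p _ => Finset.sum_congr rfl fun q _ => by ring

theorem D12 : D1 x (D2 y F) = D2 y (D1 x F) := by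
  funext a b c d
  simp only [D1, D2, Finset.mul_sum]
  rw [Finset.sum_comm]
  exact Finset.sum_congr rfl fun p _ => Finset.sum_congr rfl fun q _ => by ring

theorem D13 : D1 x (D3 y F) = D3 y (D1 x F) := by
  funext a b c d
  simp only [D1, D3, Finset.mul_sum]
  rw [Finset.sum_comm]
  exact Finset.sum_congr rfl fun p _ => Finset.sum_congr rfl fun q _ => by ring

theorem D14 : D1 x (D4 y F) = D4 y (D1 x F) := by
  funext a b c d
  simp only [D1, D4, Finset.mul_sum]
  rw [Finset.sum_comm]
  exact Finset.sum_congr rfl fun p _ => Finset.sum_congr rfl fun q _ => by ring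

theorem D23 : D2 x (D3 y F) = D3 y (D2 x F) := by
  funext a b c d
  simp only [D2, D3, Finset.mul_sum]
  rw [Finset.sum_comm]
  exact Finset.sum_congr rfl fun p _ => Finset.sum_congr rfl fun q _ => by ring

theorem D24 : D2 x (D4 y F) = D4 y (D2 x F) := by
  funext a b c d
  simp only [D2, D4, Finset.mul_sum]
  rw [Finset.sum_comm]
  exact Finset.sum_congr rfl fun p _ => Finset.sum_congr rfl fun q _ => by ring

theorem D34 : D3 x (D4 y F) = D4 y (D3 x F) := by
  funext a b c d
  simp only [D3, D4, Finset.mul_sum]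
  rw [Finset.sum_comm]
  exact Finset.sum_congr rfl fun p _ => Finset.sum_congr rfl fun q _ => by ring

end Mul

theorem D1_add (x : Matrix I I ℂ) (F G : Ten I) : D1 x (F + G) = D1 x F + D1 x G := by
  funext a b c d
  simp only [D1, Pi.add_apply, mul_add, Finset.sum_add_distrib]

theorem D2_add (x : Matrix I I ℂ) (F G : Ten I) : D2 x (F + G) = D2 x F + D2 x G := by
  funext a b c d
  simp only [D2, Pi.add_apply, mul_add, Finset.sum_add_distrib]

theorem D3_add (x : Matrix I I ℂ) (F G : Ten I) : D3 x (F + G) = D3 x F + D3 x G := by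
  funext a b c d
  simp only [D3, Pi.add_apply, mul_add, Finset.sum_add_distrib]

theorem D4_add (x : Matrix I I ℂ) (F G : Ten I) : D4 x (F + G) = D4 x F + D4 x G := by
  funext a b c d
  simp only [D4, Pi.add_apply, mul_add, Finset.sum_add_distrib]

theorem KF_br {F : Ten I} {x y : Matrix I I ℂ} (hx : x ∈ KF F) (hy : y ∈ KF F) :
    x * y - y * x ∈ KF F := by
  have key : ∀ x y : Matrix I I ℂ, y ∈ KF F →
      (D1 (y * x) F + D2 (y * x) F + D3 (y * x) F + D4 (y * x) F) +
      (D2 y (D1 x F) + D3 y (D1 x F) + D4 y (D1 x F) + D3 y (D2 x F) + D4 y (D2 x F) +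
        D4 y (D3 x F) + D2 x (D1 y F) + D3 x (D1 y F) + D4 x (D1 y F) + D3 x (D2 y F) +
        D4 x (D2 y F) + D4 x (D3 y F)) = 0 := by
    intro x y hy
    have h0 : D1 y F + D2 y F + D3 y F + D4 y F = 0 := by
      funext a b c d
      exact hy a b c d
    have h1 : D1 x (D1 y F + D2 y F + D3 y F + D4 y F) = 0 := by
      rw [h0]; funext a b c d; simp [D1]
    have h2 : D2 x (D1 y F + D2 y F + D3 y F + D4 y F) = 0 := by
      rw [h0]; funext a b c d; simp [D2]
    have h3 : D3 x (D1 y F + D2 y F + D3 y F + D4 y F) = 0 := by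
      rw [h0]; funext a b c d; simp [D3]
    have h4 : D4 x (D1 y F + D2 y F + D3 y F + D4 y F) = 0 := by
      rw [h0]; funext a b c d; simp [D4]
    simp only [D1_add, D11, D12, D13, D14] at h1
    simp only [D2_add, D22, D23, D24] at h2
    simp only [D3_add, D33, D34] at h3
    simp only [D4_add, D44] at h4
    linear_combination h1 + h2 + h3 + h4
  have e1 := key x y hy
  have e2 := key y x hx
  have e3 : (D1 (y * x) F + D2 (y * x) F + D3 (y * x) F + D4 (y * x) F) -
      (D1 (x * y) F + D2 (x * y) F + D3 (x * y) F + D4 (x * y) F) = 0 := by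
    linear_combination e1 - e2
  intro a b c d
  have e4 := congrFun (congrFun (congrFun (congrFun e3 a) b) c) d
  simp only [Pi.sub_apply, Pi.add_apply, Pi.zero_apply, D1, D2, D3, D4] at e4
  simp only [DD, D1, D2, D3, D4, Matrix.sub_apply, sub_mul, Finset.sum_sub_distrib]
  linear_combination -e4

/-! ## Symplectic and orthogonal matrices -/

/-- the opposite index -/
def bar {k : ℕ} (p : Fin k × Bool) : Fin k × Bool := (p.1, !p.2)

@[simp] theorem bar_bar {k : ℕ} (p : Fin k × Bool) : bar (bar p) = p := by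
  simp [bar]

/-- the sign of an index -/
def sg (ε : ℂ) {k : ℕ} (p : Fin k × Bool) : ℂ := if p.2 then 1 else ε

/-- `x` is skew-symmetric for the form with `(e p, e (bar p)) = 1` for `p = (i, true)` and
`ε` for `p = (i, false)`. -/
def Sk (ε : ℂ) (k : ℕ) : Submodule ℂ (Matrix (Fin k × Bool) (Fin k × Bool) ℂ) where
  carrier := {x | ∀ p q, x q p * sg ε q + sg ε p * x (bar p) (bar q) = 0}
  zero_mem' := fun p q => by simp
  add_mem' := fun {x y} hx hy p q => by
    rw [Matrix.add_apply, Matrix.add_apply]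
    linear_combination hx p q + hy p q
  smul_mem' := fun c x hx p q => by
    rw [Matrix.smul_apply, Matrix.smul_apply, smul_eq_mul, smul_eq_mul]
    linear_combination c * hx p q

theorem mem_Sk {ε : ℂ} {k : ℕ} {x : Matrix (Fin k × Bool) (Fin k × Bool) ℂ} :
    x ∈ Sk ε k ↔ ∀ p q, x q p * sg ε q + sg ε p * x (bar p) (bar q) = 0 := Iff.rfl

theorem sg_bar {ε : ℂ} (hε : ε * ε = 1) {k : ℕ} (p : Fin k × Bool) :
    sg ε (bar p) = ε * sg ε p := by
  unfold sg bar
  cases p.2 <;> simp [hε]

theorem sg_sq {ε : ℂ} (hε : ε * ε = 1) {k : ℕ} (p : Fin k × Bool) : sg ε p * sg ε p = 1 := by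
  unfold sg
  split_ifs
  · norm_num
  · exact hε

theorem Sk_bar {ε : ℂ} (hε : ε * ε = 1) {k : ℕ} {x : Matrix (Fin k × Bool) (Fin k × Bool) ℂ}
    (hx : x ∈ Sk ε k) (p q : Fin k × Bool) : x (bar p) (bar q) = -(sg ε p * sg ε q * x q p) := by
  have h1 := hx p q
  have h2 := sg_sq hε p
  linear_combination (sg ε p) * h1 - x (bar p) (bar q) * h2

theorem Sk_br {ε : ℂ} (hε : ε * ε = 1) {k : ℕ} {x y : Matrix (Fin k × Bool) (Fin k × Bool) ℂ}
    (hx : x ∈ Sk ε k) (hy : y ∈ Sk ε k) : x * y - y * x ∈ Sk ε k := by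
  have key : ∀ x y : Matrix (Fin k × Bool) (Fin k × Bool) ℂ, x ∈ Sk ε k → y ∈ Sk ε k → ∀ p q,
      (x * y) (bar p) (bar q) = sg ε p * sg ε q * (y * x) q p := by
    intro x y hx hy p q
    rw [Matrix.mul_apply, Matrix.mul_apply, Finset.mul_sum]
    refine Fintype.sum_equiv (Function.Involutive.toPerm bar bar_bar) _ _ fun r => ?_
    have e : (Function.Involutive.toPerm bar bar_bar) r = bar r := rfl
    rw [e]
    have h1 := Sk_bar hε hx p (bar r)
    have h2 := Sk_bar hε hy (bar r) q
    rw [bar_bar] at h1 h2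
    rw [h1, h2]
    have h3 := sg_sq hε (bar r)
    linear_combination (sg ε p * sg ε q * x (bar r) p * y q (bar r)) * h3
  intro p q
  rw [Matrix.sub_apply, Matrix.sub_apply, key x y hx hy, key y x hy hx]
  have h2 := sg_sq hε p
  linear_combination (sg ε q * (y * x) q p - sg ε q * (x * y) q p) * h2

end Pool.Agent.R912.Q
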