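import Mathlib

set_option autoImplicit false
set_option linter.unusedSectionVars false

/-!
# Lie algebras of matrices which are normalized by a diagonal matrix: the first two weights
-/

open Matrix

namespace Pool.Agent.R912.Q

variable {I : Type} [Fintype I] [DecidableEq I]

/-- the vectors with support in `S` -/
def WS (S : Set I) : Submodule ℂ (I → ℂ) where
  carrier := {v | ∀ i ∉ S, v i = 0}
  zero_mem' := fun _ _ => rfl
  add_mem' := fun {v w} hv hw i hi => by rw [Pi.add_apply, hv i hi, hw i hi, add_zero]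
  smul_mem' := fun c v hv i hi => by rw [Pi.smul_apply, hv i hi, smul_zero]

/-- A Lie algebra of matrices which acts irreducibly on the vectors with support in `S`. -/
structure IrrOn (M : Submodule ℂ (Matrix I I ℂ)) (S : Set I) : Prop where
  br : ∀ x ∈ M, ∀ y ∈ M, x * y - y * x ∈ M
  stab : ∀ x ∈ M, ∀ i ∉ S, ∀ j ∈ S, x i j = 0
  irr : ∀ P : Submodule ℂ (I → ℂ), P ≤ WS S → (∀ x ∈ M, ∀ v ∈ P, x *ᵥ v ∈ P) → P ≠ ⊥ → WS S ≤ P

/-- `M` is normalized by the diagonal matrix with the entries `h`. -/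
def Nrm (M : Submodule ℂ (Matrix I I ℂ)) (h : I → ℤ) : Prop :=
  ∀ x ∈ M, (Matrix.of fun i j => ((h i - h j : ℤ) : ℂ) * x i j) ∈ M

/-- the component of degree `c` -/
def cmp (h : I → ℤ) (c : ℤ) (x : Matrix I I ℂ) : Matrix I I ℂ :=
  Matrix.of fun i j => if h i - h j = c then x i j else 0

theorem cmp_mem {M : Submodule ℂ (Matrix I I ℂ)} {h : I → ℤ} (hM : Nrm M h) (c : ℤ)
    {x : Matrix I I ℂ} (hx : x ∈ M) : cmp h c x ∈ M := by
  classical
  have key : ∀ F : Finset ℤ, (Matrix.of fun i j => (∏ μ ∈ F, (((h i - h j : ℤ) : ℂ) - μ)) * x i j)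
      ∈ M := by
    intro F
    induction F using Finset.induction_on with
    | empty =>
      have : (Matrix.of fun i j => (∏ μ ∈ (∅ : Finset ℤ), (((h i - h j : ℤ) : ℂ) - μ)) * x i j) =
          x := by
        ext i j
        simp
      rw [this]
      exact hx
    | insert μ F hμ ih =>
      have h1 := M.sub_mem (hM _ ih) (M.smul_mem (μ : ℂ) ih)
      convert h1 using 1
      ext i j
      rw [Matrix.of_apply, Finset.prod_insert hμ, Matrix.sub_apply, Matrix.smul_apply,
        Matrix.of_apply, Matrix.of_apply, smul_eq_mul]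
      ring
  let F : Finset ℤ := (Finset.univ.image fun p : I × I => h p.1 - h p.2).erase c
  let d : ℂ := ∏ μ ∈ F, ((c : ℂ) - μ)
  have hd : d ≠ 0 := by
    refine Finset.prod_ne_zero_iff.2 fun μ hμ => ?_
    rw [sub_ne_zero]
    intro h1
    exact (Finset.mem_erase.1 hμ).1 (by exact_mod_cast h1.symm)
  have h1 := M.smul_mem d⁻¹ (key F)
  convert h1 using 1
  ext i j
  rw [cmp, Matrix.of_apply, Matrix.smul_apply, Matrix.of_apply, smul_eq_mul]
  split_ifs with hc
  · rw [hc, ← mul_assoc, inv_mul_cancel₀ hd, one_mul]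
  · have h2 : ∏ μ ∈ F, (((h i - h j : ℤ) : ℂ) - μ) = 0 := by
      refine Finset.prod_eq_zero (i := h i - h j) ?_ (sub_self _)
      exact Finset.mem_erase.2 ⟨hc, Finset.mem_image.2 ⟨(i, j), Finset.mem_univ _, rfl⟩⟩
    rw [h2, zero_mul, mul_zero]

/-- A matrix is the sum of its components. -/
theorem cmp_sum (h : I → ℤ) (x : Matrix I I ℂ) :
    x = ∑ c ∈ Finset.univ.image (fun p : I × I => h p.1 - h p.2), cmp h c x := by
  classical
  ext i j
  rw [Matrix.sum_apply, Finset.sum_eq_single (h i - h j)]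
  · rw [cmp, Matrix.of_apply, if_pos rfl]
  · intro c _ hc
    rw [cmp, Matrix.of_apply, if_neg (Ne.symm hc)]
  · intro hn
    exact absurd (Finset.mem_image.2 ⟨(i, j), Finset.mem_univ _, rfl⟩) hn

/-- **The first two weights.** -/
theorem IrrOn.top_two {M : Submodule ℂ (Matrix I I ℂ)} {S : Set I} (hM : IrrOn M S) {h : I → ℤ}
    (hh : Nrm M h) {i0 i1 : I} (h0 : i0 ∈ S) (h1 : i1 ∈ S) (h10 : h i1 < h i0)
    (hmax : ∀ j ∈ S, j ≠ i0 → j ≠ i1 → h j < h i1) :
    ∃ x ∈ M, x i1 i0 ≠ 0 ∧ ∀ i j, h i - h j ≠ h i1 - h i0 → x i j = 0 := by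
  classical
  by_contra hcon
  push Not at hcon
  have hz : ∀ x ∈ M, x i1 i0 = 0 := by
    intro x hx
    by_contra hne
    obtain ⟨i, j, hij, hne'⟩ := hcon _ (cmp_mem hh (h i1 - h i0) hx) (by
      rw [cmp, Matrix.of_apply, if_pos rfl]
      exact hne)
    rw [cmp, Matrix.of_apply, if_neg hij] at hne'
    exact hne' rfl
  have hlt : ∀ j ∈ S, j ≠ i0 → h j < h i0 := by
    intro j hj hj0
    by_cases hj1 : j = i1
    · rw [hj1]; exact h10
    · exact (hmax j hj hj0 hj1).trans h10
  let v : I → ℂ := Pi.single i0 1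
  -- the family of subspaces
  let Good : Submodule ℂ (I → ℂ) → Prop := fun Q => v ∈ Q ∧
    ∀ c < 0, ∀ y ∈ M, ∀ u ∈ Q, cmp h c y *ᵥ u ∈ Q
  let N : Submodule ℂ (I → ℂ) := sInf {Q | Good Q}
  have hvN : v ∈ N := by
    rw [Submodule.mem_sInf]
    intro Q hQ
    exact hQ.1
  have hNst : ∀ c < 0, ∀ y ∈ M, ∀ u ∈ N, cmp h c y *ᵥ u ∈ N := by
    intro c hc y hy u hu
    rw [Submodule.mem_sInf] at hu ⊢
    intro Q hQ
    exact hQ.2 c hc y hy u (hu Q hQ)
  have hNle : ∀ Q, Good Q → N ≤ Q := fun Q hQ => sInf_le hQ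
  -- `N` has support in `S`
  have hNS : N ≤ WS S := by
    refine hNle _ ⟨?_, ?_⟩
    · intro i hi
      exact Pi.single_eq_of_ne (fun e : i = i0 => hi (e.symm ▸ h0)) _
    · intro c _ y hy u hu i hi
      rw [Matrix.mulVec, dotProduct]
      refine Finset.sum_eq_zero fun j _ => ?_
      by_cases hj : j ∈ S
      · rw [hM.stab _ (cmp_mem hh c hy) i hi j hj, zero_mul]
      · rw [hu j hj, mul_zero]
  -- stability
  have hNstab : ∀ u ∈ N, ∀ x ∈ M, x *ᵥ u ∈ N := by
    let N₀ : Submodule ℂ (I → ℂ) :=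
      { carrier := {u | u ∈ N ∧ ∀ x ∈ M, x *ᵥ u ∈ N}
        zero_mem' := ⟨N.zero_mem, fun x _ => by rw [Matrix.mulVec_zero]; exact N.zero_mem⟩
        add_mem' := fun {a b} ha hb => ⟨N.add_mem ha.1 hb.1, fun x hx => by
          rw [Matrix.mulVec_add]; exact N.add_mem (ha.2 x hx) (hb.2 x hx)⟩
        smul_mem' := fun c a ha => ⟨N.smul_mem c ha.1, fun x hx => by
          rw [Matrix.mulVec_smul]; exact N.smul_mem c (ha.2 x hx)⟩ }
    have h2 : N ≤ N₀ := by
      refine hNle _ ⟨⟨hvN, fun x hx => ?_⟩, fun c hc y hy u hu => ⟨hNst c hc y hy u hu.1,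
        fun x hx => ?_⟩⟩
      · rw [cmp_sum h x, Matrix.sum_mulVec]
        refine Submodule.sum_mem _ fun c _ => ?_
        rcases lt_or_ge c 0 with hc | hc
        · exact hNst c hc x hx v hvN
        · have h3 : cmp h c x *ᵥ v = (cmp h c x) i0 i0 • v := by
            ext i
            rw [Matrix.mulVec_single_one, Pi.smul_apply, smul_eq_mul]
            by_cases hi : i = i0
            · subst hi
              simp [v]
            · have e0 : v i = 0 := Pi.single_eq_of_ne hi _
              rw [e0, mul_zero]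
              by_cases hiS : i ∈ S
              · have h4 := hlt i hiS hi
                have h5 : h i - h i0 ≠ c := by omega
                exact if_neg h5
              · exact hM.stab _ (cmp_mem hh c hx) i hiS i0 h0
          rw [h3]
          exact N.smul_mem _ hvN
      · have h3 : x *ᵥ (cmp h c y *ᵥ u) = cmp h c y *ᵥ (x *ᵥ u) +
            (x * cmp h c y - cmp h c y * x) *ᵥ u := by
          rw [Matrix.sub_mulVec, Matrix.mulVec_mulVec, Matrix.mulVec_mulVec]
          abel
        rw [h3]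
        exact N.add_mem (hNst c hc y hy _ (hu.2 x hx)) (hu.2 _ (hM.br x hx _ (cmp_mem hh c hy)))
    intro u hu x hx
    exact (h2 hu).2 x hx
  have hN0 : N ≠ ⊥ := by
    intro hb
    rw [hb, Submodule.mem_bot] at hvN
    have := congrFun hvN i0
    simp [v] at this
  have hall := hM.irr N hNS (fun x hx v hv => hNstab v hv x hx) hN0
  have hmem : (Pi.single i1 1 : I → ℂ) ∈ N := hall fun i hi =>
    Pi.single_eq_of_ne (fun e : i = i1 => hi (e.symm ▸ h1)) _
  -- contradiction
  let Q : Submodule ℂ (I → ℂ) :=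
    { carrier := {u | ∀ i, i ≠ i0 → (i ∈ S → h i1 ≤ h i) → u i = 0}
      zero_mem' := fun _ _ _ => rfl
      add_mem' := fun {v w} hv hw i hi hi' => by
        rw [Pi.add_apply, hv i hi hi', hw i hi hi', add_zero]
      smul_mem' := fun c v hv i hi hi' => by rw [Pi.smul_apply, hv i hi hi', smul_zero] }
  have hQ : Good Q := by
    refine ⟨?_, ?_⟩
    · intro i hi _
      exact Pi.single_eq_of_ne hi _
    · intro c hc y hy u hu i hi hi'
      rw [Matrix.mulVec, dotProduct]
      refine Finset.sum_eq_zero fun j _ => ?_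
      by_cases hj0 : j = i0
      · subst hj0
        by_cases hiS : i ∈ S
        · by_cases hi1 : i = i1
          · subst hi1
            rw [hz _ (cmp_mem hh c hy), zero_mul]
          · exact absurd (hi' hiS) (not_le.2 (hmax i hiS hi hi1))
        · rw [hM.stab _ (cmp_mem hh c hy) i hiS _ h0, zero_mul]
      · by_cases hj : j ∈ S → h i1 ≤ h j
        · rw [hu j hj0 hj, mul_zero]
        · push Not at hj
          by_cases hiS : i ∈ S
          · have h3 := hi' hiS
            have h4 : h i - h j ≠ c := by omega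
            have h5 : cmp h c y i j = 0 := if_neg h4
            rw [h5, zero_mul]
          · rw [hM.stab _ (cmp_mem hh c hy) i hiS _ hj.1, zero_mul]
  have h3 := hNle Q hQ hmem i1 (fun hh => by rw [hh] at h10; exact lt_irrefl _ h10)
    (fun _ => le_rfl)
  simp at h3

end Pool.Agent.R912.Q
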