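import Pool.Agent.H86.CMLib.R912.Q.Two

set_option autoImplicit false
set_option linter.unusedSectionVars false
set_option linter.unusedSimpArgs false
set_option linter.unusedVariables false

/-!
# Sums of irreducible subspaces of dimension two: the Lie algebra is everything
-/

open Module Matrix

namespace Pool.Agent.R912

open Pool.Agent.Y102.SP Q

attribute [local instance 100] LieRing.ofAssociativeRing

variable {U : Type} [AddCommGroup U] [Module ℂ U] [FiniteDimensional ℂ U]
  {T : Type} [AddCommGroup T] [Module ℂ T] {L : Submodule ℂ (Module.End ℂ U)}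

section Lin

variable (ω : U →ₗ[ℂ] U →ₗ[ℂ] ℂ) {k : ℕ} (e : Fin k × Bool → U) (i : Fin k)

theorem tA_add (y z : Module.End ℂ U) : tA ω e i (y + z) = tA ω e i y + tA ω e i z := by
  simp [tA]
theorem tB_add (y z : Module.End ℂ U) : tB ω e i (y + z) = tB ω e i y + tB ω e i z := by
  simp [tB]
theorem tC_add (y z : Module.End ℂ U) : tC ω e i (y + z) = tC ω e i y + tC ω e i z := by
  simp [tC]; ring
theorem tA_smul (c : ℂ) (y : Module.End ℂ U) : tA ω e i (c • y) = c * tA ω e i y := by
  simp [tA]
theorem tB_smul (c : ℂ) (y : Module.End ℂ U) : tB ω e i (c • y) = c * tB ω e i y := by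
  simp [tB]
theorem tC_smul (c : ℂ) (y : Module.End ℂ U) : tC ω e i (c • y) = c * tC ω e i y := by
  simp [tC]

end Lin

namespace GB

variable {S : RS L T} {R : Submodule ℂ U} {ω : U →ₗ[ℂ] U →ₗ[ℂ] ℂ} {k : ℕ}
  {blk : Fin k → ℕ} {e : Fin k × Bool → U} {w : Fin k × Bool → Module.Dual ℂ T}
  (h : GB S R ω k blk e w) (hblk : ∀ i j, blk i = blk j → i = j)
  (al : ∀ u v, ω u v = -ω v u) (sk : ∀ x ∈ L, ∀ u v, ω (x u) v + ω u (x v) = 0)
include h hblk al sk

theorem tC_pos (i : Fin k) : tC ω e i (S.e (w (i, true) + w (i, true))) = 0 := by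
  by_contra hne
  obtain ⟨k1, k2⟩ := h.exB hblk al sk i
  have h1 := h.tC_root sk k1 hne
  have h2 : (2 : ℚ) • (w (i, true) + w (i, true)) = 0 := by
    rw [two_smul]
    nth_rewrite 1 [h1]
    abel
  exact S.R.zero (((smul_eq_zero.1 h2).resolve_left two_ne_zero) ▸ k1)

theorem tB_neg (i : Fin k) : tB ω e i (S.e (-(w (i, true) + w (i, true)))) = 0 := by
  by_contra hne
  obtain ⟨k1, k2⟩ := h.exC hblk al sk i
  have h1 := h.tB_root sk k1 hne
  have h2 : (2 : ℚ) • (-(w (i, true) + w (i, true))) = 0 := by
    rw [two_smul]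
    nth_rewrite 1 [h1]
    abel
  exact S.R.zero (((smul_eq_zero.1 h2).resolve_left two_ne_zero) ▸ k1)

/-- the product of the coefficients -/
theorem prodBC (i : Fin k) : tB ω e i (S.e (w (i, true) + w (i, true))) *
    tC ω e i (S.e (-(w (i, true) + w (i, true)))) =
    w (i, true) (S.h (w (i, true) + w (i, true))) := by
  obtain ⟨k1, k2⟩ := h.exB hblk al sk i
  obtain ⟨k3, k4⟩ := h.exC hblk al sk i
  have hst := fun β (hβ : β ∈ S.R.Φ) => (h.irr i).stab _ (S.emem β hβ)
  have h1 := LinearMap.congr_fun (S.br _ k1) (e (i, true))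
  rw [LinearMap.sub_apply, Module.End.mul_apply, Module.End.mul_apply,
    h.crdT hblk (hst _ k1), h.tC_pos hblk al sk, h.tA_root sk k1, h.crdT hblk (hst _ k3),
    h.tA_root sk k3] at h1
  simp only [zero_smul, zero_add, add_zero, map_zero, sub_zero, map_smul] at h1
  rw [h.crdF hblk (hst _ k1) al (sk _ (S.emem _ k1)), h.tA_root sk k1, zero_smul,
    sub_zero, h.wt (i, true), smul_smul] at h1
  have h2 := congrArg (fun u => ω u (e (i, false))) h1
  simp only [map_smul, LinearMap.smul_apply, smul_eq_mul, h.f1 hblk, mul_one] at h2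
  rw [mul_comm]
  exact h2

section Pair

variable {i j : Fin k} (hij : w (i, true) = w (j, true))
include hij

/-- the relation between the coefficients on isomorphic subspaces -/
theorem relL {y : Module.End ℂ U} (hy : y ∈ L) :
    tA ω e i y = tA ω e j y ∧
    tC ω e i (S.e (-(w (i, true) + w (i, true)))) * tB ω e i y =
      tC ω e j (S.e (-(w (i, true) + w (i, true)))) * tB ω e j y ∧
    tC ω e i (S.e (-(w (i, true) + w (i, true)))) * tC ω e j y =
      tC ω e j (S.e (-(w (i, true) + w (i, true)))) * tC ω e i y := by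
  obtain ⟨y1, ⟨t, rfl⟩, z, hz, rfl⟩ := Submodule.mem_sup.1 (S.span hy)
  clear hy
  have hz' : tA ω e i z = tA ω e j z ∧
      tC ω e i (S.e (-(w (i, true) + w (i, true)))) * tB ω e i z =
      tC ω e j (S.e (-(w (i, true) + w (i, true)))) * tB ω e j z ∧
      tC ω e i (S.e (-(w (i, true) + w (i, true)))) * tC ω e j z =
      tC ω e j (S.e (-(w (i, true) + w (i, true)))) * tC ω e i z := by
    induction hz using Submodule.span_induction with
    | mem z hz =>
      obtain ⟨β, hβ, rfl⟩ := hz
      refine ⟨by rw [h.tA_root sk hβ, h.tA_root sk hβ], ?_, ?_⟩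
      · by_cases h1 : β = w (i, true) + w (i, true)
        · subst h1
          have h2 := h.prodBC hblk al sk i
          have h3 := h.prodBC hblk al sk j
          rw [← hij] at h3
          rw [mul_comm, h2, mul_comm, h3]
        · have e1 : tB ω e i (S.e β) = 0 := by
            by_contra hne
            exact h1 (h.tB_root sk hβ hne)
          have e2 : tB ω e j (S.e β) = 0 := by
            by_contra hne
            apply h1
            rw [hij]
            exact h.tB_root sk hβ hne
          rw [e1, e2, mul_zero, mul_zero]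
      · by_cases h1 : β = -(w (i, true) + w (i, true))
        · subst h1
          rw [mul_comm]
        · have e1 : tC ω e i (S.e β) = 0 := by
            by_contra hne
            exact h1 (h.tC_root sk hβ hne)
          have e2 : tC ω e j (S.e β) = 0 := by
            by_contra hne
            apply h1
            rw [hij]
            exact h.tC_root sk hβ hne
          rw [e1, e2, mul_zero, mul_zero]
    | zero => simp [tA, tB, tC]
    | add y z _ _ hy hz =>
      obtain ⟨a1, a2, a3⟩ := hy
      obtain ⟨b1, b2, b3⟩ := hz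
      rw [tA_add, tA_add, tB_add, tB_add, tC_add, tC_add]
      refine ⟨by rw [a1, b1], ?_, ?_⟩
      · linear_combination a2 + b2
      · linear_combination a3 + b3
    | smul c z _ hz =>
      obtain ⟨b1, b2, b3⟩ := hz
      rw [tA_smul, tA_smul, tB_smul, tB_smul, tC_smul, tC_smul]
      refine ⟨by rw [b1], ?_, ?_⟩
      · linear_combination c * b2
      · linear_combination c * b3
  obtain ⟨b1, b2, b3⟩ := hz'
  rw [tA_add, tA_add, tB_add, tB_add, tC_add, tC_add, h.tA_ι sk, h.tA_ι sk, h.tB_ι hblk sk,
    h.tB_ι hblk sk, h.tC_ι hblk sk, h.tC_ι hblk sk, hij, zero_add, zero_add, zero_add, zero_add]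
  rw [← hij]
  exact ⟨by rw [b1], b2, b3⟩

/-- the relation for the endomorphisms which commute with the commutant -/
theorem relX {X : Module.End ℂ U} (hX1 : ∀ i, ∀ u ∈ BSp e blk i, X u ∈ BSp e blk i)
    (hX2 : ∀ K : Module.End ℂ U, (∀ x ∈ L, x * K = K * x) → X * K = K * X)
    (hX3 : ∀ u v, ω (X u) v + ω u (X v) = 0) :
    tA ω e i X = tA ω e j X ∧
    tC ω e i (S.e (-(w (i, true) + w (i, true)))) * tB ω e i X =
      tC ω e j (S.e (-(w (i, true) + w (i, true)))) * tB ω e j X ∧
    tC ω e i (S.e (-(w (i, true) + w (i, true)))) * tC ω e j X =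
      tC ω e j (S.e (-(w (i, true) + w (i, true)))) * tC ω e i X := by
  obtain ⟨ci, hci⟩ : ∃ c, c = tC ω e i (S.e (-(w (i, true) + w (i, true)))) := ⟨_, rfl⟩
  obtain ⟨cj, hcj⟩ : ∃ c, c = tC ω e j (S.e (-(w (i, true) + w (i, true)))) := ⟨_, rfl⟩
  let K : Module.End ℂ U := ci • (ω.flip (e (i, false))).smulRight (e (j, true)) -
    cj • (ω.flip (e (i, true))).smulRight (e (j, false))
  have hK : ∀ u, K u = (ci * ω u (e (i, false))) • e (j, true) -
      (cj * ω u (e (i, true))) • e (j, false) := by
    intro u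
    simp only [K, LinearMap.sub_apply, LinearMap.smul_apply, LinearMap.smulRight_apply,
      LinearMap.flip_apply, smul_smul]
  have hcomm : ∀ x ∈ L, x * K = K * x := by
    intro x hx
    refine LinearMap.ext fun u => ?_
    rw [Module.End.mul_apply, Module.End.mul_apply, hK, hK]
    have hst := fun i => (h.irr i).stab _ hx
    obtain ⟨r1, r2, r3⟩ := h.relL hblk al sk hij hx
    rw [← hci, ← hcj] at r2 r3
    have s1 := sk x hx u (e (i, false))
    have s2 := sk x hx u (e (i, true))
    rw [h.crdF hblk (hst i) al (sk x hx), map_sub, map_smul, map_smul, smul_eq_mul,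
      smul_eq_mul] at s1
    rw [h.crdT hblk (hst i), map_add, map_smul, map_smul, smul_eq_mul, smul_eq_mul] at s2
    rw [map_sub, map_smul, map_smul, h.crdT hblk (hst j), h.crdF hblk (hst j) al (sk x hx)]
    have t1 : ci * ω (x u) (e (i, false)) = ci * ω u (e (i, false)) * tA ω e j x -
        cj * ω u (e (i, true)) * tB ω e j x := by
      linear_combination ci * s1 - ω u (e (i, true)) * r2 + ci * ω u (e (i, false)) * r1
    have t2 : cj * ω (x u) (e (i, true)) = -(ci * ω u (e (i, false)) * tC ω e j x) -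
        cj * ω u (e (i, true)) * tA ω e j x := by
      linear_combination cj * s2 + ω u (e (i, false)) * r3 - cj * ω u (e (i, true)) * r1
    rw [t1, t2]
    module
  have h1 := hX2 K hcomm
  have g1 := h.f1 hblk i
  have g2 := h.f2 hblk i
  have g3 := h.f3 hblk i
  have g4 := h.f4 hblk i
  have j1 := h.f1 hblk j
  have j2 := h.f2 hblk j
  have j3 := h.f3 hblk j
  have j4 := h.f4 hblk j
  have hci0 : ci ≠ 0 := by rw [hci]; exact (h.exC hblk al sk i).2
  have hcj0 : cj ≠ 0 := by rw [hcj, hij]; exact (h.exC hblk al sk j).2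
  rw [← hci, ← hcj]
  have k1 := LinearMap.congr_fun h1 (e (i, true))
  have k2 := LinearMap.congr_fun h1 (e (i, false))
  rw [Module.End.mul_apply, Module.End.mul_apply, hK, hK, g1, g3, mul_one, mul_zero, zero_smul,
    sub_zero, map_smul, h.crdT hblk (hX1 j), h.crdT hblk (hX1 i)] at k1
  rw [Module.End.mul_apply, Module.End.mul_apply, hK, hK, g2, g4, mul_zero, zero_smul,
    zero_sub, h.crdF hblk (hX1 i) al hX3] at k2
  have k3 := congrArg (fun u => ω u (e (j, false))) k1
  have k4 := congrArg (fun u => ω u (e (j, true))) k1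
  have k5 := congrArg (fun u => ω u (e (j, false))) k2
  simp only [map_add, map_sub, map_smul, map_neg, LinearMap.add_apply, LinearMap.sub_apply,
    LinearMap.smul_apply, LinearMap.neg_apply, smul_eq_mul, g1, g2, g3, g4, j1, j2, j3, j4] at k3 k4 k5
  rw [h.crdF hblk (hX1 j) al hX3] at k5
  simp only [map_add, map_sub, map_smul, map_neg, LinearMap.add_apply, LinearMap.sub_apply,
    LinearMap.smul_apply, LinearMap.neg_apply, smul_eq_mul, g1, g2, g3, g4, j1, j2, j3, j4] at k5
  refine ⟨?_, ?_, ?_⟩
  · have : ci * (tA ω e i X - tA ω e j X) = 0 := by linear_combination -k3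
    exact sub_eq_zero.1 ((mul_eq_zero.1 this).resolve_left hci0)
  · linear_combination -k5
  · linear_combination -k4

end Pair

end GB

end Pool.Agent.R912
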