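import Pool.Agent.H86.CMLib.R912.U2
import Pool.Agent.H86.CMLib.Y102.SP.Kil

set_option autoImplicit false
set_option linter.unusedSectionVars false

/-!
# Weights of irreducible subspaces: bases of weight vectors
-/

open Module

namespace Pool.Agent.R912

open Pool.Agent.Y102.SP

attribute [local instance 100] LieRing.ofAssociativeRing

variable {U : Type} [AddCommGroup U] [Module ℂ U] [FiniteDimensional ℂ U]
  {T : Type} [AddCommGroup T] [Module ℂ T] {L : Submodule ℂ (Module.End ℂ U)}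

/-- An irreducible stable subspace. -/
structure IrrSub (L : Submodule ℂ (Module.End ℂ U)) (N : Submodule ℂ U) : Prop where
  ne : N ≠ ⊥
  stab : ∀ x ∈ L, ∀ u ∈ N, x u ∈ N
  irr : ∀ P ≤ N, (∀ x ∈ L, ∀ u ∈ P, x u ∈ P) → P ≠ ⊥ → P = N

/-! ## A lemma on `sl_2` -/

theorem sl2_ef {h e f : Module.End ℂ U} (t : IsSl2Triple h e f) {n : ℂ} {u : U}
    (hu : h u = n • u) (k : ℕ) :
    e ((f ^ (k + 1)) u) = (f ^ (k + 1)) (e u) + (((k : ℂ) + 1) * (n - k)) • (f ^ k) u := by
  have hf : ∀ w : U, e (f w) = f (e w) + h w := by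
    intro w
    have h1 := LinearMap.congr_fun t.lie_e_f w
    rw [Ring.lie_def, LinearMap.sub_apply, Module.End.mul_apply, Module.End.mul_apply] at h1
    rw [← h1]
    abel
  have hhf : ∀ w : U, h (f w) = f (h w) - (2 : ℂ) • f w := by
    intro w
    have h1 := LinearMap.congr_fun (t.lie_lie_smul_f ℂ) w
    rw [Ring.lie_def, LinearMap.sub_apply, Module.End.mul_apply, Module.End.mul_apply,
      LinearMap.neg_apply, LinearMap.smul_apply] at h1
    rw [sub_eq_add_neg, ← h1]
    abel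
  have hw : ∀ k : ℕ, h ((f ^ k) u) = (n - 2 * k) • (f ^ k) u := by
    intro k
    induction k with
    | zero => simpa using hu
    | succ k ih =>
      rw [pow_succ', Module.End.mul_apply, hhf, ih, map_smul, ← sub_smul]
      congr 1
      push_cast
      ring
  induction k with
  | zero =>
    rw [zero_add, pow_one, pow_zero, Module.End.one_apply, hf, hu]
    congr 2
    norm_num
  | succ k ih =>
    rw [pow_succ' f (k + 1), Module.End.mul_apply, hf, ih, map_add, map_smul, hw (k + 1),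
      ← Module.End.mul_apply f, ← pow_succ', ← Module.End.mul_apply f, ← pow_succ', add_assoc,
      ← add_smul]
    congr 2
    push_cast
    ring

open LieModule in
theorem sl2_inj {h e f : Module.End ℂ U} (t : IsSl2Triple h e f) (j : ℕ) :
    ∀ (n : ℕ) (u : U), h u = (n : ℂ) • u → u ≠ 0 → (e ^ (j + 1)) u = 0 → ∀ k ≤ n,
      (f ^ k) u ≠ 0 := by
  have base : ∀ (n : ℕ) (u : U), h u = (n : ℂ) • u → u ≠ 0 → e u = 0 → ∀ k ≤ n,
      (f ^ k) u ≠ 0 := by
    intro n u hu hu0 he k hk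
    have P : t.HasPrimitiveVectorWith u (n : ℂ) := ⟨hu0, hu, he⟩
    exact P.pow_toEnd_f_ne_zero_of_eq_nat rfl hk
  induction j with
  | zero =>
    intro n u hu hu0 he
    exact base n u hu hu0 (by simpa using he)
  | succ j ih =>
    intro n u hu hu0 he k hk hfk
    by_cases h0 : e u = 0
    · exact base n u hu hu0 h0 k hk hfk
    · have h1 : h (e u) = ((n + 2 : ℕ) : ℂ) • e u := by
        have h2 := LinearMap.congr_fun (t.lie_h_e_smul ℂ) u
        rw [Ring.lie_def, LinearMap.sub_apply, Module.End.mul_apply, Module.End.mul_apply, hu,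
          map_smul, LinearMap.smul_apply, sub_eq_iff_eq_add] at h2
        rw [h2, ← add_smul]
        congr 1
        push_cast
        ring
      cases k with
      | zero => exact hu0 (by simpa using hfk)
      | succ k =>
        have h2 := sl2_ef t hu k
        rw [hfk, map_zero] at h2
        have h3 := congrArg f h2
        rw [map_zero, map_add, map_smul, ← Module.End.mul_apply f, ← pow_succ',
          ← Module.End.mul_apply f (f ^ k), ← pow_succ', hfk, smul_zero, add_zero] at h3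
        refine ih (n + 2) (e u) h1 h0 ?_ (k + 1 + 1) (by omega) h3.symm
        rw [← Module.End.mul_apply, ← pow_succ]
        exact he

namespace RS

variable (S : RS L T)

theorem stab_of {P : Submodule ℂ U} (hι : ∀ t, ∀ u ∈ P, S.ι t u ∈ P)
    (he : ∀ α ∈ S.R.Φ, ∀ u ∈ P, S.e α u ∈ P) : ∀ x ∈ L, ∀ u ∈ P, x u ∈ P := by
  intro y hy u hu
  obtain ⟨y1, ⟨t, rfl⟩, z, hz, rfl⟩ := Submodule.mem_sup.1 (S.span hy)
  rw [LinearMap.add_apply]
  refine Submodule.add_mem _ (hι t u hu) ?_
  clear hy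
  induction hz using Submodule.span_induction with
  | mem z hz =>
    obtain ⟨α, hα, rfl⟩ := hz
    exact he α hα u hu
  | zero => exact Submodule.zero_mem _
  | add y z _ _ hy hz => exact Submodule.add_mem _ hy hz
  | smul c z _ hz => exact Submodule.smul_mem _ c hz

/-- Lowering operators are injective on vectors of nonnegative weight. -/
theorem uinj {α : Module.Dual ℂ T} (hα : α ∈ S.R.Φ) {μ : Module.Dual ℂ T} {u : U}
    (hu : u ∈ usp S.ι μ) (hu0 : u ≠ 0) {n : ℕ} (hn : S.R.pr α μ = n) {k : ℕ} (hk : k ≤ n) :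
    ((S.e (-α)) ^ k) u ≠ 0 := by
  have h1 : ⁅S.ι (S.h α), u⁆ = μ (S.h α) • u := hu _
  obtain ⟨m, j, hP, h2⟩ := Wt_prim (S.triple hα) hu0 h1
  have h3 : μ (S.h α) = (S.R.pr α μ : ℂ) :=
    S.prh α hα μ ⟨(m : ℚ) - 2 * j, by rw [h2]; push_cast; ring⟩
  have h4 : (S.e α ^ (j + 1)) u = 0 := by
    have h5 := hP.lie_e
    rw [pow_succ', Module.End.mul_apply]
    exact h5
  refine sl2_inj (S.triple hα) j n u ?_ hu0 h4 k hk
  rw [hu, h3, hn, Rat.cast_natCast]

theorem upr {α : Module.Dual ℂ T} (hα : α ∈ S.R.Φ) {μ : Module.Dual ℂ T} {u : U}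
    (hu : u ∈ usp S.ι μ) (hu0 : u ≠ 0) : ∃ n : ℤ, S.R.pr α μ = n := by
  have h1 : ⁅S.ι (S.h α), u⁆ = μ (S.h α) • u := hu _
  obtain ⟨m, j, hP, h2⟩ := Wt_prim (S.triple hα) hu0 h1
  have h3 : μ (S.h α) = (S.R.pr α μ : ℂ) :=
    S.prh α hα μ ⟨(m : ℚ) - 2 * j, by rw [h2]; push_cast; ring⟩
  refine ⟨(m : ℤ) - 2 * j, ?_⟩
  have h4 : ((S.R.pr α μ : ℚ) : ℂ) = (((m : ℚ) - 2 * j : ℚ) : ℂ) := by
    rw [← h3, h2]
    push_cast
    ring
  have h5 := Rat.cast_injective h4
  rw [h5]
  push_cast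
  ring

theorem upow {α : Module.Dual ℂ T} (hα : α ∈ S.R.Φ) {μ : Module.Dual ℂ T} {u : U}
    (hu : u ∈ usp S.ι μ) (k : ℕ) : ((S.e α) ^ k) u ∈ usp S.ι ((k : ℚ) • α + μ) := by
  induction k with
  | zero => simpa using hu
  | succ k ih =>
    rw [pow_succ', Module.End.mul_apply]
    have h1 := S.usp_mul (fun t => S.wt α hα t) ih
    have h2 : ((k + 1 : ℕ) : ℚ) • α + μ = α + ((k : ℚ) • α + μ) := by
      push_cast
      rw [add_smul, one_smul]
      abel
    rw [h2]
    exact h1

/-- A basis of weight vectors. -/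
structure WB (N : Submodule ℂ U) (d : ℕ) (b : Fin d → U) (χ : Fin d → Module.Dual ℂ T) : Prop where
  li : LinearIndependent ℂ b
  span : Submodule.span ℂ (Set.range b) = N
  wt : ∀ i, b i ∈ usp S.ι (χ i)

theorem exists_wb {N : Submodule ℂ U} (hN : IrrSub L N) :
    ∃ b χ, S.WB N (finrank ℂ N) b χ := by
  classical
  obtain ⟨P, hPdef⟩ : ∃ P : Submodule ℂ U,
      P = Submodule.span ℂ {u | u ∈ N ∧ ∃ χ, u ∈ usp S.ι χ} := ⟨_, rfl⟩
  have hPN : P ≤ N := by
    rw [hPdef, Submodule.span_le]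
    rintro u ⟨hu, -⟩
    exact hu
  have hL : ∀ y ∈ L, ∀ u ∈ P, y u ∈ P := by
    refine S.stab_of ?_ ?_
    · intro t u hu
      rw [hPdef] at hu ⊢
      induction hu using Submodule.span_induction with
      | mem u hu =>
        obtain ⟨hu1, χ, hχ⟩ := hu
        rw [hχ t]
        exact Submodule.smul_mem _ _ (Submodule.subset_span ⟨hu1, χ, hχ⟩)
      | zero => rw [map_zero]; exact Submodule.zero_mem _
      | add u v _ _ hu hv => rw [map_add]; exact Submodule.add_mem _ hu hv
      | smul r u _ hu => rw [map_smul]; exact Submodule.smul_mem _ _ hu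
    · intro α hα u hu
      rw [hPdef] at hu ⊢
      induction hu using Submodule.span_induction with
      | mem u hu =>
        obtain ⟨hu1, χ, hχ⟩ := hu
        exact Submodule.subset_span ⟨hN.stab _ (S.emem α hα) u hu1, α + χ,
          S.usp_mul (fun t => S.wt α hα t) hχ⟩
      | zero => rw [map_zero]; exact Submodule.zero_mem _
      | add u v _ _ hu hv => rw [map_add]; exact Submodule.add_mem _ hu hv
      | smul r u _ hu => rw [map_smul]; exact Submodule.smul_mem _ _ hu
  have hP0 : P ≠ ⊥ := by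
    obtain ⟨χ, u, hu, hu0, hχ⟩ := kil_eig S.ι S.comm _ N le_rfl hN.ne
      (fun t => hN.stab _ (S.ιmem t))
    intro hb
    have h1 : u ∈ P := by
      rw [hPdef]
      exact Submodule.subset_span ⟨hu, χ, hχ⟩
    rw [hb, Submodule.mem_bot] at h1
    exact hu0 h1
  have hPe : P = N := hN.irr P hPN hL hP0
  obtain ⟨s, hs1, hs2, hs3⟩ := exists_linearIndependent ℂ {u | u ∈ N ∧ ∃ χ, u ∈ usp S.ι χ}
  have hspan : Submodule.span ℂ s = N := by rw [hs2, ← hPdef, hPe]
  have hfin : Finite s := hs3.finite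
  have := Fintype.ofFinite s
  have hc2 : finrank ℂ N = Fintype.card s := by
    rw [← hspan]
    have h1 := finrank_span_eq_card hs3
    rw [Subtype.range_coe] at h1
    exact h1
  let e : Fin (finrank ℂ N) ≃ s := Fintype.equivOfCardEq (by rw [Fintype.card_fin, hc2])
  have hχ : ∀ i, ∃ χ, (e i : U) ∈ usp S.ι χ := fun i => (hs1 (e i).2).2
  choose χ hχ' using hχ
  refine ⟨fun i => (e i : U), χ, ⟨?_, ?_, hχ'⟩⟩
  · exact hs3.comp _ e.injective
  · have : Set.range (fun i => (e i : U)) = s := by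
      ext u
      constructor
      · rintro ⟨i, rfl⟩
        exact (e i).2
      · intro hu
        exact ⟨e.symm ⟨u, hu⟩, by simp⟩
    rw [this, hspan]

namespace WB

variable {S} {N : Submodule ℂ U} {d : ℕ} {b : Fin d → U} {χ : Fin d → Module.Dual ℂ T}
  (W : S.WB N d b χ)
include W

theorem mem (i : Fin d) : b i ∈ N := by
  rw [← W.span]
  exact Submodule.subset_span ⟨i, rfl⟩

theorem ne (i : Fin d) : b i ≠ 0 := W.li.ne_zero i

/-- The vectors of a given weight. -/
theorem of_usp {μ : Module.Dual ℂ T} {u : U} (hu : u ∈ N) (hμ : u ∈ usp S.ι μ) :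
    u ∈ Submodule.span ℂ (b '' {i | χ i = μ}) := by
  classical
  rw [← W.span, Submodule.mem_span_range_iff_exists_fun] at hu
  obtain ⟨c, rfl⟩ := hu
  have h1 : ∑ i, c i • b i = ∑ i ∈ Finset.univ.filter (fun i => χ i = μ), c i • b i +
      ∑ i ∈ Finset.univ.filter (fun i => ¬ χ i = μ), c i • b i :=
    (Finset.sum_filter_add_sum_filter_not _ _ _).symm
  have h2 : ∑ i ∈ Finset.univ.filter (fun i => χ i = μ), c i • b i ∈ usp S.ι μ := by
    refine Submodule.sum_mem _ fun i hi => Submodule.smul_mem _ _ ?_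
    have := W.wt i
    rwa [(Finset.mem_filter.1 hi).2] at this
  have h3 : ∑ i ∈ Finset.univ.filter (fun i => ¬ χ i = μ), c i • b i ∈
      ⨆ ψ, ⨆ (_ : ψ ≠ μ), usp S.ι ψ := by
    refine Submodule.sum_mem _ fun i hi => Submodule.smul_mem _ _ ?_
    have h4 : usp S.ι (χ i) ≤ ⨆ ψ, ⨆ (_ : ψ ≠ μ), usp S.ι ψ :=
      le_iSup₂_of_le (χ i) (Finset.mem_filter.1 hi).2 le_rfl
    exact h4 (W.wt i)
  have h5 : ∑ i ∈ Finset.univ.filter (fun i => ¬ χ i = μ), c i • b i ∈ usp S.ι μ := by
    have h6 : ∑ i ∈ Finset.univ.filter (fun i => ¬ χ i = μ), c i • b i =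
        ∑ i, c i • b i - ∑ i ∈ Finset.univ.filter (fun i => χ i = μ), c i • b i := by
      rw [h1]; abel
    rw [h6]
    exact Submodule.sub_mem _ hμ h2
  have h7 := (S.usp_indep μ).le_bot ⟨h5, h3⟩
  rw [h1, (Submodule.mem_bot ℂ).1 h7, add_zero]
  refine Submodule.sum_mem _ fun i hi => Submodule.smul_mem _ _ (Submodule.subset_span ?_)
  exact ⟨i, (Finset.mem_filter.1 hi).2, rfl⟩

theorem exists_of_usp {μ : Module.Dual ℂ T} {u : U} (hu : u ∈ N) (hμ : u ∈ usp S.ι μ)
    (hu0 : u ≠ 0) : ∃ i, χ i = μ := by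
  by_contra hcon
  push Not at hcon
  have h1 := W.of_usp hu hμ
  have h2 : {i | χ i = μ} = ∅ := by
    ext i
    simp [hcon i]
  rw [h2, Set.image_empty, Submodule.span_empty, Submodule.mem_bot] at h1
  exact hu0 h1

theorem of_usp1 {μ : Module.Dual ℂ T} {u : U} (hu : u ∈ N) (hμ : u ∈ usp S.ι μ) {i : Fin d}
    (hi : ∀ j, χ j = μ → j = i) : ∃ c : ℂ, u = c • b i := by
  have h1 := W.of_usp hu hμ
  have h2 : Submodule.span ℂ (b '' {i | χ i = μ}) ≤ Submodule.span ℂ {b i} := by
    rw [Submodule.span_le]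
    rintro _ ⟨j, hj, rfl⟩
    rw [hi j hj]
    exact Submodule.mem_span_singleton_self _
  obtain ⟨c, hc⟩ := Submodule.mem_span_singleton.1 (h2 h1)
  exact ⟨c, hc.symm⟩

/-- Two independent basis vectors are not multiples of the same vector. -/
theorem not_both {i j : Fin d} {v : U} {c c' : ℂ} (hi : b i = c • v) (hj : b j = c' • v) :
    i = j := by
  by_contra hne
  have h1 : c' • b i - c • b j = 0 := by
    rw [hi, hj, smul_smul, smul_smul, mul_comm, sub_self]
  have h2 : LinearIndependent ℂ ![b i, b j] := by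
    have := W.li.comp ![i, j] (by
      intro x y hxy
      fin_cases x <;> fin_cases y <;> simp_all)
    convert this using 1
    ext k
    fin_cases k <;> rfl
  rw [LinearIndependent.pair_iff] at h2
  have h3 := h2 c' (-c) (by rw [neg_smul, ← sub_eq_add_neg]; exact h1)
  have h4 : c = 0 := neg_eq_zero.1 h3.2
  rw [h4, zero_smul] at hi
  exact W.ne i hi

end WB

end RS

end Pool.Agent.R912
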